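import Mathlib

/-!
Basic facts on the Weierstrass function: second order ODE, injectivity modulo the lattice,
the function `R(z,w) = (wp'(z)+wp'(w)) / (2 (wp(z)-wp(w)))`, and the addition theorem.
-/

namespace Pool.Agent.Lib.MP_0b1044_mp

open PeriodPair Filter Topology

variable (L : PeriodPair)

lemma isOpen_compl_lattice : IsOpen ((L.lattice : Set ℂ)ᶜ) :=
  L.isClosed_lattice.isOpen_compl

lemma countable_lattice : (L.lattice : Set ℂ).Countable :=
  countable_of_Lindelof_of_discrete (X := L.lattice)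

lemma isPreconnected_compl_of_countable {s : Set ℂ} (hs : s.Countable) : IsPreconnected sᶜ :=
  (Set.Countable.isConnected_compl_of_one_lt_rank (by simp) hs).isPreconnected

variable {L}

lemma hasDerivAt_wp {z : ℂ} (hz : z ∉ L.lattice) : HasDerivAt ℘[L] (℘'[L] z) z := by
  have h : DifferentiableAt ℂ ℘[L] z :=
    (L.differentiableOn_weierstrassP).differentiableAt ((isOpen_compl_lattice L).mem_nhds hz)
  have := h.hasDerivAt
  rwa [L.deriv_weierstrassP] at this

lemma differentiableAt_wp' {z : ℂ} (hz : z ∉ L.lattice) : DifferentiableAt ℂ ℘'[L] z :=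
  (L.differentiableOn_derivWeierstrassP).differentiableAt ((isOpen_compl_lattice L).mem_nhds hz)

/-- the second order ODE times `wp'`. -/
lemma wp_ode2_aux {z : ℂ} (hz : z ∉ L.lattice) :
    (deriv ℘'[L] z - (6 * ℘[L] z ^ 2 - L.g₂ / 2)) * ℘'[L] z = 0 := by
  have h1 : HasDerivAt (fun z => ℘'[L] z ^ 2) (2 * ℘'[L] z * deriv ℘'[L] z) z := by
    have := (differentiableAt_wp' hz).hasDerivAt.pow 2
    convert! this using 1
    norm_num
  have h2 : HasDerivAt (fun z => 4 * ℘[L] z ^ 3 - L.g₂ * ℘[L] z - L.g₃)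
      (4 * (3 * ℘[L] z ^ 2 * ℘'[L] z) - L.g₂ * ℘'[L] z) z := by
    have hw := hasDerivAt_wp hz
    have := (((hw.pow 3).const_mul 4).sub (hw.const_mul L.g₂)).sub_const L.g₃
    convert! this using 1
  have h3 : (fun z => ℘'[L] z ^ 2) =ᶠ[𝓝 z] (fun z => 4 * ℘[L] z ^ 3 - L.g₂ * ℘[L] z - L.g₃) := by
    filter_upwards [(isOpen_compl_lattice L).mem_nhds hz] with w hw
    exact L.derivWeierstrassP_sq w hw
  have h4 := h1.unique (h2.congr_of_eventuallyEq h3)
  linear_combination (1/2) * h4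

lemma tendsto_sq_mul_wp : Tendsto (fun z => z ^ 2 * ℘[L] z) (𝓝[≠] 0) (𝓝 1) := by
  have h0 : (0 : ℂ) ∈ L.lattice := zero_mem _
  have h1 : Tendsto (fun z : ℂ => z ^ 2 * ℘[L - (0 : ℂ)] z + 1) (𝓝 0) (𝓝 1) := by
    have hc : ContinuousAt (fun z : ℂ => z ^ 2 * ℘[L - (0 : ℂ)] z + 1) 0 := by
      have := (L.analyticAt_weierstrassPExcept 0).continuousAt
      fun_prop
    have := hc.tendsto
    simpa using this
  refine (h1.mono_left nhdsWithin_le_nhds).congr' ?_
  filter_upwards [self_mem_nhdsWithin] with z hz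
  have hz' : z ≠ 0 := hz
  have := L.weierstrassPExcept_add ⟨0, h0⟩ z
  simp only [sub_zero, ne_eq, OfNat.ofNat_ne_zero, not_false_eq_true, zero_pow, div_zero] at this
  rw [← this]
  field_simp

lemma tendsto_cube_mul_wp' : Tendsto (fun z => z ^ 3 * ℘'[L] z) (𝓝[≠] 0) (𝓝 (-2)) := by
  have h0 : (0 : ℂ) ∈ L.lattice := zero_mem _
  have h1 : Tendsto (fun z : ℂ => z ^ 3 * ℘'[L - (0 : ℂ)] z - 2) (𝓝 0) (𝓝 (-2)) := by
    have hc : ContinuousAt (fun z : ℂ => z ^ 3 * ℘'[L - (0 : ℂ)] z - 2) 0 := by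
      have := (L.analyticAt_derivWeierstrassPExcept 0).continuousAt
      fun_prop
    have := hc.tendsto
    simpa using this
  refine (h1.mono_left nhdsWithin_le_nhds).congr' ?_
  filter_upwards [self_mem_nhdsWithin] with z hz
  have hz' : z ≠ 0 := hz
  have := L.derivWeierstrassPExcept_sub ⟨0, h0⟩ z
  simp only [sub_zero] at this
  rw [← this]
  field_simp

/-- near `0` (punctured) there are no lattice points. -/
lemma eventually_notMem_lattice : ∀ᶠ z in 𝓝[≠] (0 : ℂ), z ∉ L.lattice := by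
  have : ((L.lattice : Set ℂ) \ {0})ᶜ ∈ 𝓝[≠] (0 : ℂ) :=
    mem_nhdsWithin_of_mem_nhds (L.compl_lattice_sdiff_singleton_mem_nhds 0)
  filter_upwards [this, self_mem_nhdsWithin] with z hz hz0 hzL
  exact hz ⟨hzL, hz0⟩

lemma wp_ode2 {z : ℂ} (hz : z ∉ L.lattice) :
    deriv ℘'[L] z = 6 * ℘[L] z ^ 2 - L.g₂ / 2 := by
  have hU := isOpen_compl_lattice L
  have hP : AnalyticOnNhd ℂ ℘[L] (L.lattice : Set ℂ)ᶜ := L.analyticOnNhd_weierstrassP
  have hP' : AnalyticOnNhd ℂ ℘'[L] (L.lattice : Set ℂ)ᶜ := L.analyticOnNhd_derivWeierstrassP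
  have hf : AnalyticOnNhd ℂ (fun z => deriv ℘'[L] z - (6 * ℘[L] z ^ 2 - L.g₂ / 2))
      (L.lattice : Set ℂ)ᶜ := by
    intro w hw
    have h1 := hP w hw
    have h2 := (hP'.deriv) w hw
    fun_prop
  have := AnalyticOnNhd.eq_zero_or_eq_zero_of_mul_eq_zero hf hP'
    (fun w hw => wp_ode2_aux hw) (isPreconnected_compl_of_countable (countable_lattice L))
  rcases this with h | h
  · exact sub_eq_zero.mp (h z hz)
  · exfalso
    have h1 : Tendsto (fun z => z ^ 3 * ℘'[L] z) (𝓝[≠] 0) (𝓝 0) := by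
      refine tendsto_const_nhds.congr' ?_
      filter_upwards [eventually_notMem_lattice (L := L)] with w hw
      rw [h w hw, mul_zero]
    have := tendsto_nhds_unique h1 tendsto_cube_mul_wp'
    norm_num at this

lemma hasDerivAt_wp' {z : ℂ} (hz : z ∉ L.lattice) :
    HasDerivAt ℘'[L] (6 * ℘[L] z ^ 2 - L.g₂ / 2) z := by
  rw [← wp_ode2 hz]
  exact (differentiableAt_wp' hz).hasDerivAt

open Polynomial in
/-- Formal derivation on pairs `(p,q)` standing for `p(wp) + q(wp) wp'`. -/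
noncomputable def Dp (g2 g3 : ℂ) (v : ℂ[X] × ℂ[X]) : ℂ[X] × ℂ[X] :=
  (derivative v.2 * (4 * X ^ 3 - C g2 * X - C g3) + v.2 * (6 * X ^ 2 - C (g2 / 2)), derivative v.1)

variable (L) in
open Polynomial in
/-- Evaluation of a pair `(p,q)` as `p(wp z) + q(wp z) wp' z`. -/
noncomputable def ev (v : ℂ[X] × ℂ[X]) (z : ℂ) : ℂ :=
  v.1.eval (℘[L] z) + v.2.eval (℘[L] z) * ℘'[L] z

open Polynomial in
lemma hasDerivAt_ev (v : ℂ[X] × ℂ[X]) {z : ℂ} (hz : z ∉ L.lattice) :
    HasDerivAt (ev L v) (ev L (Dp L.g₂ L.g₃ v) z) z := by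
  have hw := hasDerivAt_wp hz
  have hw' := hasDerivAt_wp' hz
  have h1 : HasDerivAt (fun z => v.1.eval (℘[L] z)) ((derivative v.1).eval (℘[L] z) * ℘'[L] z) z :=
    (v.1.hasDerivAt (℘[L] z)).comp z hw
  have h2 : HasDerivAt (fun z => v.2.eval (℘[L] z)) ((derivative v.2).eval (℘[L] z) * ℘'[L] z) z :=
    (v.2.hasDerivAt (℘[L] z)).comp z hw
  have h3 := h1.add (h2.mul hw')
  have e := L.derivWeierstrassP_sq z hz
  convert! h3 using 1
  simp only [ev, Dp, eval_add, eval_mul, eval_sub, eval_pow, eval_X, eval_C, eval_ofNat]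
  linear_combination (-(derivative v.2).eval (℘[L] z)) * e

open Polynomial in
lemma iteratedDeriv_ev (n : ℕ) (v : ℂ[X] × ℂ[X]) {z : ℂ} (hz : z ∉ L.lattice) :
    iteratedDeriv n (ev L v) z = ev L ((Dp L.g₂ L.g₃)^[n] v) z := by
  induction n generalizing z with
  | zero => simp
  | succ n ih =>
    rw [iteratedDeriv_succ, Function.iterate_succ_apply']
    have : iteratedDeriv n (ev L v) =ᶠ[𝓝 z] ev L ((Dp L.g₂ L.g₃)^[n] v) := by
      filter_upwards [(isOpen_compl_lattice L).mem_nhds hz] with w hw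
      exact ih hw
    rw [this.deriv_eq]
    exact (hasDerivAt_ev _ hz).deriv

open Polynomial in
lemma ev_X : ev L ((X, 0) : ℂ[X] × ℂ[X]) = ℘[L] := by
  ext z; simp [ev]

open Polynomial in
lemma iteratedDeriv_wp (n : ℕ) {z : ℂ} (hz : z ∉ L.lattice) :
    iteratedDeriv n ℘[L] z = ev L ((Dp L.g₂ L.g₃)^[n] (X, 0)) z := by
  rw [← iteratedDeriv_ev n _ hz, ev_X]

lemma sub_mem_of_wp_eq {z w : ℂ} (hz : z ∉ L.lattice) (hw : w ∉ L.lattice)
    (h : ℘[L] z = ℘[L] w) (h' : ℘'[L] z = ℘'[L] w) : w - z ∈ L.lattice := by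
  by_contra hwz
  have hder : ∀ n, iteratedDeriv n ℘[L] z = iteratedDeriv n ℘[L] w := by
    intro n
    rw [iteratedDeriv_wp n hz, iteratedDeriv_wp n hw]
    simp [ev, h, h']
  have hP : AnalyticOnNhd ℂ ℘[L] (L.lattice : Set ℂ)ᶜ := L.analyticOnNhd_weierstrassP
  set U : Set ℂ := {t | z + t ∉ L.lattice ∧ w + t ∉ L.lattice} with hU
  have hUc : Uᶜ.Countable := by
    have : Uᶜ = (fun t => z + t) ⁻¹' (L.lattice : Set ℂ) ∪ (fun t => w + t) ⁻¹' (L.lattice : Set ℂ) := by
      ext t; simp [hU, or_iff_not_imp_left]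
    rw [this]
    exact ((countable_lattice L).preimage (add_right_injective z)).union
      ((countable_lattice L).preimage (add_right_injective w))
  have hUp : IsPreconnected U := by
    rw [← compl_compl U]
    exact isPreconnected_compl_of_countable hUc
  have ha1 : AnalyticOnNhd ℂ (fun t => ℘[L] (z + t)) U := by
    intro t ht
    exact (hP _ ht.1).comp_of_eq (by fun_prop) rfl
  have ha2 : AnalyticOnNhd ℂ (fun t => ℘[L] (w + t)) U := by
    intro t ht
    exact (hP _ ht.2).comp_of_eq (by fun_prop) rfl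
  have h0U : (0 : ℂ) ∈ U := by simp [hU, hz, hw]
  have hev : (fun t => ℘[L] (z + t)) =ᶠ[𝓝 0] (fun t => ℘[L] (w + t)) := by
    have hsub : AnalyticAt ℂ (fun t => ℘[L] (z + t) - ℘[L] (w + t)) 0 :=
      (ha1 0 h0U).sub (ha2 0 h0U)
    have htop : analyticOrderAt (fun t => ℘[L] (z + t) - ℘[L] (w + t)) 0 = ⊤ := by
      rw [ENat.eq_top_iff_forall_ge]
      intro m
      rw [natCast_le_analyticOrderAt_iff_iteratedDeriv_eq_zero hsub]
      intro i _
      rw [iteratedDeriv_fun_sub (ha1 0 h0U).contDiffAt (ha2 0 h0U).contDiffAt]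
      rw [iteratedDeriv_comp_const_add, iteratedDeriv_comp_const_add]
      simp [hder]
    rw [analyticOrderAt_eq_top] at htop
    filter_upwards [htop] with t ht
    exact sub_eq_zero.mp ht
  have hEq := ha1.eqOn_of_preconnected_of_eventuallyEq ha2 hUp h0U hev
  have h1 : Tendsto (fun s => s ^ 2 * ℘[L] (w - z + s)) (𝓝[≠] 0) (𝓝 0) := by
    have hc : ContinuousAt (fun s => s ^ 2 * ℘[L] (w - z + s)) 0 := by
      have : ContinuousAt ℘[L] (w - z + 0) := by
        rw [add_zero]; exact (hP _ hwz).continuousAt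
      have h2 : ContinuousAt (fun s : ℂ => ℘[L] (w - z + s)) 0 :=
        ContinuousAt.comp (g := ℘[L]) (f := fun s : ℂ => w - z + s) this (by fun_prop)
      fun_prop
    have := hc.tendsto
    simp only [ne_eq, OfNat.ofNat_ne_zero, not_false_eq_true, zero_pow, add_zero, zero_mul] at this
    exact this.mono_left nhdsWithin_le_nhds
  have h2 : Tendsto (fun s => s ^ 2 * ℘[L] s) (𝓝[≠] 0) (𝓝 0) := by
    refine h1.congr' ?_
    have hmem : ∀ᶠ s in 𝓝[≠] (0 : ℂ), w - z + s ∉ L.lattice := by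
      apply mem_nhdsWithin_of_mem_nhds
      have : Tendsto (fun s : ℂ => w - z + s) (𝓝 0) (𝓝 (w - z)) := by
        have : ContinuousAt (fun s : ℂ => w - z + s) 0 := by fun_prop
        simpa using this.tendsto
      exact this ((isOpen_compl_lattice L).mem_nhds hwz)
    filter_upwards [hmem, eventually_notMem_lattice (L := L)] with s hs1 hs2
    have := hEq (x := s - z) ⟨by simpa using hs2, by
      have e : w + (s - z) = w - z + s := by ring
      rw [e]; exact hs1⟩
    simp only [add_sub_cancel] at this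
    rw [this]
    congr 2
    ring
  have := tendsto_nhds_unique h2 tendsto_sq_mul_wp
  norm_num at this

lemma wp'_sq_eq {z w : ℂ} (hz : z ∉ L.lattice) (hw : w ∉ L.lattice)
    (h : ℘[L] z = ℘[L] w) : ℘'[L] z = ℘'[L] w ∨ ℘'[L] z = - ℘'[L] w := by
  have h1 := L.derivWeierstrassP_sq z hz
  have h2 := L.derivWeierstrassP_sq w hw
  rw [h, ← h2] at h1
  exact sq_eq_sq_iff_eq_or_eq_neg.mp h1

/-- `wp z = wp w` forces `w = z` or `w = -z` modulo the lattice. -/
lemma wp_ne {z w : ℂ} (hz : z ∉ L.lattice) (hw : w ∉ L.lattice)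
    (h1 : z - w ∉ L.lattice) (h2 : z + w ∉ L.lattice) : ℘[L] z ≠ ℘[L] w := by
  intro h
  rcases wp'_sq_eq hz hw h with h' | h'
  · apply h1
    have := sub_mem_of_wp_eq hz hw h h'
    rwa [← neg_mem_iff, neg_sub] at this
  · apply h2
    have hw' : -w ∉ L.lattice := by rwa [neg_mem_iff]
    have := sub_mem_of_wp_eq hz hw' (by simpa using h) (by simpa using h')
    rw [← neg_mem_iff] at this
    convert! this using 1
    ring

lemma wp'_ne_zero {z : ℂ} (hz : z ∉ L.lattice) (h2 : 2 * z ∉ L.lattice) : ℘'[L] z ≠ 0 := by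
  intro h
  apply h2
  have hz' : -z ∉ L.lattice := by rwa [neg_mem_iff]
  have := sub_mem_of_wp_eq hz' hz (by simp) (by simp [h])
  convert! this using 1
  ring

end Pool.Agent.Lib.MP_0b1044_mp
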