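import Mathlib
import Pool.Agent.Lib.MP_0b1044_mp.Wp

/-!
The function `R(z,w) = (wp'(z)+wp'(w)) / (2 (wp(z)-wp(w)))`, its derivatives, the three-term
identity and the addition theorem.
-/

namespace Pool.Agent.Lib.MP_0b1044_mp

open PeriodPair Filter Topology

variable (L : PeriodPair)

/-- `R(z,w) = (wp'(z)+wp'(w)) / (2 (wp(z)-wp(w)))`. -/
noncomputable def R (z w : ℂ) : ℂ := (℘'[L] z + ℘'[L] w) / (2 * (℘[L] z - ℘[L] w))

variable {L}

@[simp] lemma R_self (z : ℂ) : R L z z = 0 := by simp [R]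

lemma R_antisymm (z w : ℂ) : R L w z = - R L z w := by
  simp only [R]
  rw [show 2 * (℘[L] w - ℘[L] z) = -(2 * (℘[L] z - ℘[L] w)) by ring, div_neg, add_comm]

lemma R_mul {z w : ℂ} (h : ℘[L] z ≠ ℘[L] w) :
    R L z w * (2 * (℘[L] z - ℘[L] w)) = ℘'[L] z + ℘'[L] w := by
  have : ℘[L] z - ℘[L] w ≠ 0 := sub_ne_zero.mpr h
  rw [R]; field_simp

/-- The three-term identity. -/
lemma R_three {z w v : ℂ} (hz : z ∉ L.lattice) (hw : w ∉ L.lattice) (hv : v ∉ L.lattice)
    (h1 : ℘[L] z ≠ ℘[L] w) (h2 : ℘[L] w ≠ ℘[L] v) (h3 : ℘[L] v ≠ ℘[L] z) :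
    R L z w * R L w v + R L w v * R L v z + R L v z * R L z w = -(℘[L] z + ℘[L] w + ℘[L] v) := by
  have e1 := L.derivWeierstrassP_sq z hz
  have e2 := L.derivWeierstrassP_sq w hw
  have e3 := L.derivWeierstrassP_sq v hv
  have d1 : ℘[L] z - ℘[L] w ≠ 0 := sub_ne_zero.mpr h1
  have d2 : ℘[L] w - ℘[L] v ≠ 0 := sub_ne_zero.mpr h2
  have d3 : ℘[L] v - ℘[L] z ≠ 0 := sub_ne_zero.mpr h3
  simp only [R]
  generalize ℘[L] z = x1 at *
  generalize ℘[L] w = x2 at *
  generalize ℘[L] v = x3 at *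
  generalize ℘'[L] z = y1 at *
  generalize ℘'[L] w = y2 at *
  generalize ℘'[L] v = y3 at *
  field_simp
  linear_combination (x2 - x3) * e1 + (x3 - x1) * e2 + (x1 - x2) * e3

lemma hasDerivAt_R_left {z w : ℂ} (hz : z ∉ L.lattice) (hw : w ∉ L.lattice)
    (h : ℘[L] z ≠ ℘[L] w) :
    HasDerivAt (fun z => R L z w) (-(R L z w) ^ 2 + 2 * ℘[L] z + ℘[L] w) z := by
  have d1 : 2 * (℘[L] z - ℘[L] w) ≠ 0 := by
    simpa using sub_ne_zero.mpr h
  have e1 := L.derivWeierstrassP_sq z hz
  have e2 := L.derivWeierstrassP_sq w hw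
  have := ((hasDerivAt_wp' hz).add_const (℘'[L] w)).fun_div
    (((hasDerivAt_wp hz).sub_const (℘[L] w)).const_mul 2) d1
  convert! this using 1
  simp only [R]
  have d2 : ℘[L] z - ℘[L] w ≠ 0 := sub_ne_zero.mpr h
  generalize ℘[L] z = x1 at *
  generalize ℘[L] w = x2 at *
  generalize ℘'[L] z = y1 at *
  generalize ℘'[L] w = y2 at *
  field_simp
  linear_combination e1 - e2

lemma hasDerivAt_R_right {z w : ℂ} (hz : z ∉ L.lattice) (hw : w ∉ L.lattice)
    (h : ℘[L] z ≠ ℘[L] w) :
    HasDerivAt (fun w => R L z w) ((R L z w) ^ 2 - ℘[L] z - 2 * ℘[L] w) w := by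
  have := (hasDerivAt_R_left hw hz h.symm).neg
  have e : (fun w => R L z w) = fun w => - R L w z := by
    ext w; rw [R_antisymm w z]
  rw [e]
  convert! this using 1
  rw [R_antisymm z w]
  ring

/-- Derivative of `t ↦ R(t+c,t)`. -/
lemma hasDerivAt_R_diag {t c : ℂ} (h1 : t + c ∉ L.lattice) (h2 : t ∉ L.lattice)
    (h : ℘[L] (t + c) ≠ ℘[L] t) :
    HasDerivAt (fun t => R L (t + c) t) (℘[L] (t + c) - ℘[L] t) t := by
  have d1 : 2 * (℘[L] (t + c) - ℘[L] t) ≠ 0 := by
    simpa using sub_ne_zero.mpr h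
  have e1 := L.derivWeierstrassP_sq (t + c) h1
  have e2 := L.derivWeierstrassP_sq t h2
  have a1 : HasDerivAt (fun t => ℘[L] (t + c)) (℘'[L] (t + c)) t :=
    (hasDerivAt_wp h1).comp_add_const t c
  have a2 : HasDerivAt (fun t => ℘'[L] (t + c)) (6 * ℘[L] (t + c) ^ 2 - L.g₂ / 2) t :=
    (hasDerivAt_wp' h1).comp_add_const t c
  have := (a2.fun_add (hasDerivAt_wp' h2)).fun_div ((a1.fun_sub (hasDerivAt_wp h2)).const_mul 2) d1
  simp only [R]
  convert! this using 1
  have d2 : ℘[L] (t + c) - ℘[L] t ≠ 0 := sub_ne_zero.mpr h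
  generalize ℘[L] (t + c) = x1 at *
  generalize ℘[L] t = x2 at *
  generalize ℘'[L] (t + c) = y1 at *
  generalize ℘'[L] t = y2 at *
  field_simp
  linear_combination 2 * (e1 - e2)

/-- The addition theorem. -/
theorem R_sq {z w : ℂ} (hz : z ∉ L.lattice) (hw : w ∉ L.lattice)
    (h1 : z - w ∉ L.lattice) (h2 : z + w ∉ L.lattice) :
    R L z w ^ 2 = ℘[L] (z - w) + ℘[L] z + ℘[L] w := by
  set c := z - w with hc
  set U : Set ℂ := {t | t ∉ L.lattice ∧ t + c ∉ L.lattice ∧ 2 * t + c ∉ L.lattice} with hU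
  have hUo : IsOpen U := by
    have o1 : IsOpen {t : ℂ | t ∉ L.lattice} := isOpen_compl_lattice L
    have o2 : IsOpen {t : ℂ | t + c ∉ L.lattice} :=
      (isOpen_compl_lattice L).preimage (f := fun t : ℂ => t + c) (by fun_prop)
    have o3 : IsOpen {t : ℂ | 2 * t + c ∉ L.lattice} :=
      (isOpen_compl_lattice L).preimage (f := fun t : ℂ => 2 * t + c) (by fun_prop)
    exact o1.inter (o2.inter o3)
  have hUc : Uᶜ.Countable := by
    have : Uᶜ = (L.lattice : Set ℂ) ∪ ((fun t => t + c) ⁻¹' (L.lattice : Set ℂ) ∪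
        (fun t => 2 * t + c) ⁻¹' (L.lattice : Set ℂ)) := by
      ext t
      simp only [hU, Set.mem_compl_iff, Set.mem_ofPred_eq, not_and_or, not_not, Set.mem_union,
        SetLike.mem_coe, Set.mem_preimage]
    rw [this]
    refine (countable_lattice L).union (((countable_lattice L).preimage (add_left_injective c)).union
      ((countable_lattice L).preimage ?_))
    intro a b hab
    have : 2 * a = 2 * b := by simpa using hab
    simpa using this
  have hUp : IsPreconnected U := by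
    rw [← compl_compl U]
    exact isPreconnected_compl_of_countable hUc
  have hwU : w ∈ U := by
    refine ⟨hw, ?_, ?_⟩
    · simpa [hc] using hz
    · have : 2 * w + c = z + w := by rw [hc]; ring
      rw [this]; exact h2
  have hne : ∀ t ∈ U, ℘[L] (t + c) ≠ ℘[L] t := by
    intro t ht
    refine wp_ne ht.2.1 ht.1 ?_ ?_
    · rw [add_sub_cancel_left]; exact h1
    · have : t + c + t = 2 * t + c := by ring
      rw [this]; exact ht.2.2
  have hder : ∀ t ∈ U, HasDerivAt (fun t => R L (t + c) t ^ 2 - ℘[L] (t + c) - ℘[L] t) 0 t := by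
    intro t ht
    have a := hasDerivAt_R_diag ht.2.1 ht.1 (hne t ht)
    have a1 : HasDerivAt (fun t => ℘[L] (t + c)) (℘'[L] (t + c)) t :=
      (hasDerivAt_wp ht.2.1).comp_add_const t c
    have := ((a.pow 2).sub a1).sub (hasDerivAt_wp ht.1)
    convert! this using 1
    have e := R_mul (hne t ht)
    norm_num
    linear_combination -e
  have hconst : ∀ t ∈ U, R L (t + c) t ^ 2 - ℘[L] (t + c) - ℘[L] t
      = R L z w ^ 2 - ℘[L] z - ℘[L] w := by
    intro t ht
    have := hUo.is_const_of_deriv_eq_zero hUp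
      (fun s hs => (hder s hs).differentiableAt.differentiableWithinAt)
      (fun s hs => (hder s hs).deriv) ht hwU
    simpa [hc] using this
  -- limit at zero
  have hlim : Tendsto (fun t => R L (t + c) t ^ 2 - ℘[L] (t + c) - ℘[L] t) (𝓝[≠] 0)
      (𝓝 (℘[L] c)) := by
    -- xi = 1/wp, eta = wp'/wp^2
    have hX : Tendsto (fun t => (℘[L] t)⁻¹) (𝓝[≠] 0) (𝓝 0) := by
      have h1 := tendsto_sq_mul_wp (L := L)
      have h2 : Tendsto (fun z : ℂ => z ^ 2) (𝓝[≠] 0) (𝓝 0) := by
        have : ContinuousAt (fun z : ℂ => z ^ 2) 0 := by fun_prop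
        have := this.tendsto
        simp only [ne_eq, OfNat.ofNat_ne_zero, not_false_eq_true, zero_pow] at this
        exact this.mono_left nhdsWithin_le_nhds
      have h3 := h2.mul (h1.inv₀ one_ne_zero)
      simp only [inv_one, mul_one] at h3
      refine h3.congr' ?_
      filter_upwards [self_mem_nhdsWithin] with t ht
      have : t ≠ 0 := ht
      rw [mul_inv]
      field_simp
    have hY : Tendsto (fun t => ℘'[L] t * (℘[L] t)⁻¹ ^ 2) (𝓝[≠] 0) (𝓝 0) := by
      have h1 := tendsto_sq_mul_wp (L := L)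
      have h1' := tendsto_cube_mul_wp' (L := L)
      have h2 : Tendsto (fun z : ℂ => z) (𝓝[≠] 0) (𝓝 0) :=
        tendsto_id.mono_left nhdsWithin_le_nhds
      have h3 := (h2.mul h1').mul ((h1.inv₀ one_ne_zero).pow 2)
      simp only [zero_mul] at h3
      refine h3.congr' ?_
      filter_upwards [self_mem_nhdsWithin] with t ht
      have : t ≠ 0 := ht
      rw [mul_inv]
      field_simp
    have hc1 : Tendsto (fun t => ℘[L] (t + c)) (𝓝[≠] 0) (𝓝 (℘[L] c)) := by
      have : ContinuousAt (fun t => ℘[L] (t + c)) 0 := by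
        have h := ((hasDerivAt_wp (z := 0 + c) (by simpa using h1)).comp_add_const 0 c).continuousAt
        exact h
      have := this.tendsto
      simp only [zero_add] at this
      exact this.mono_left nhdsWithin_le_nhds
    have hc2 : Tendsto (fun t => ℘'[L] (t + c)) (𝓝[≠] 0) (𝓝 (℘'[L] c)) := by
      have : ContinuousAt (fun t => ℘'[L] (t + c)) 0 := by
        have h := ((hasDerivAt_wp' (z := 0 + c) (by simpa using h1)).comp_add_const 0 c).continuousAt
        exact h
      have := this.tendsto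
      simp only [zero_add] at this
      exact this.mono_left nhdsWithin_le_nhds
    have hnum : Tendsto (fun t => 2 * ℘[L] (t + c)
        + (1 / 2) * (℘'[L] t * (℘[L] t)⁻¹ ^ 2) * ℘'[L] (t + c)
        - (℘[L] t)⁻¹ * ℘[L] (t + c) ^ 2
        - (L.g₂ * (℘[L] t)⁻¹ + L.g₃ * (℘[L] t)⁻¹ ^ 2) / 4
        + (1 / 4) * ℘'[L] (t + c) ^ 2 * (℘[L] t)⁻¹ ^ 2) (𝓝[≠] 0) (𝓝 (2 * ℘[L] c
        + (1 / 2) * 0 * ℘'[L] c - 0 * ℘[L] c ^ 2 - (L.g₂ * 0 + L.g₃ * 0 ^ 2) / 4
        + (1 / 4) * ℘'[L] c ^ 2 * 0 ^ 2)) := by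
      refine Tendsto.add (Tendsto.sub (Tendsto.sub (Tendsto.add (hc1.const_mul 2) ?_) ?_) ?_) ?_
      · exact (hY.const_mul (1 / 2)).mul hc2
      · exact hX.mul (hc1.pow 2)
      · exact ((hX.const_mul L.g₂).add ((hX.pow 2).const_mul L.g₃)).div_const 4
      · exact ((hc2.pow 2).const_mul (1 / 4)).mul (hX.pow 2)
    have hden : Tendsto (fun t => ((℘[L] t)⁻¹ * ℘[L] (t + c) - 1) ^ 2) (𝓝[≠] 0)
        (𝓝 ((0 * ℘[L] c - 1) ^ 2)) := ((hX.mul hc1).sub_const 1).pow 2
    have hq := (hnum.div hden (by norm_num)).sub hc1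
    have hval : (2 * ℘[L] c
        + (1 / 2) * 0 * ℘'[L] c - 0 * ℘[L] c ^ 2 - (L.g₂ * 0 + L.g₃ * 0 ^ 2) / 4
        + (1 / 4) * ℘'[L] c ^ 2 * 0 ^ 2) / ((0 * ℘[L] c - 1) ^ 2) - ℘[L] c = ℘[L] c := by
      norm_num; ring
    rw [hval] at hq
    refine hq.congr' ?_
    have hev1 : ∀ᶠ t in 𝓝[≠] (0 : ℂ), t + c ∉ L.lattice := by
      apply mem_nhdsWithin_of_mem_nhds
      have : Tendsto (fun s : ℂ => s + c) (𝓝 0) (𝓝 c) := by
        have : ContinuousAt (fun s : ℂ => s + c) 0 := by fun_prop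
        simpa using this.tendsto
      exact this ((isOpen_compl_lattice L).mem_nhds h1)
    have hev2 : ∀ᶠ t in 𝓝[≠] (0 : ℂ), 2 * t + c ∉ L.lattice := by
      apply mem_nhdsWithin_of_mem_nhds
      have : Tendsto (fun s : ℂ => 2 * s + c) (𝓝 0) (𝓝 c) := by
        have : ContinuousAt (fun s : ℂ => 2 * s + c) 0 := by fun_prop
        simpa using this.tendsto
      exact this ((isOpen_compl_lattice L).mem_nhds h1)
    have hev3 : ∀ᶠ t in 𝓝[≠] (0 : ℂ), ℘[L] t ≠ 0 := by
      have := (tendsto_sq_mul_wp (L := L)).eventually_ne one_ne_zero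
      filter_upwards [this] with t ht h0
      rw [h0] at ht; simp at ht
    filter_upwards [eventually_notMem_lattice (L := L), hev1, hev2, hev3] with t ht1 ht2 ht3 ht4
    have hn := hne t ⟨ht1, ht2, ht3⟩
    have d2 : ℘[L] (t + c) - ℘[L] t ≠ 0 := sub_ne_zero.mpr hn
    have e2 := L.derivWeierstrassP_sq t ht1
    simp only [R, Pi.div_apply]
    generalize ℘[L] (t + c) = x1 at *
    generalize ℘[L] t = x2 at *
    generalize ℘'[L] (t + c) = y1 at *
    generalize ℘'[L] t = y2 at *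
    have hd : x2⁻¹ * x1 - 1 ≠ 0 := by
      intro h
      apply d2
      field_simp at h
      simpa using h
    field_simp
    field_simp at hd
    linear_combination (-4) * e2
  have hlim2 : Tendsto (fun t => R L (t + c) t ^ 2 - ℘[L] (t + c) - ℘[L] t) (𝓝[≠] 0)
      (𝓝 (R L z w ^ 2 - ℘[L] z - ℘[L] w)) := by
    refine tendsto_const_nhds.congr' ?_
    have hev1 : ∀ᶠ t in 𝓝[≠] (0 : ℂ), t + c ∉ L.lattice := by
      apply mem_nhdsWithin_of_mem_nhds
      have : Tendsto (fun s : ℂ => s + c) (𝓝 0) (𝓝 c) := by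
        have : ContinuousAt (fun s : ℂ => s + c) 0 := by fun_prop
        simpa using this.tendsto
      exact this ((isOpen_compl_lattice L).mem_nhds h1)
    have hev2 : ∀ᶠ t in 𝓝[≠] (0 : ℂ), 2 * t + c ∉ L.lattice := by
      apply mem_nhdsWithin_of_mem_nhds
      have : Tendsto (fun s : ℂ => 2 * s + c) (𝓝 0) (𝓝 c) := by
        have : ContinuousAt (fun s : ℂ => 2 * s + c) 0 := by fun_prop
        simpa using this.tendsto
      exact this ((isOpen_compl_lattice L).mem_nhds h1)
    filter_upwards [eventually_notMem_lattice (L := L), hev1, hev2] with t ht1 ht2 ht3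
    exact (hconst t ⟨ht1, ht2, ht3⟩).symm
  have := tendsto_nhds_unique hlim2 hlim
  linear_combination this

/-- Reflection form of the addition theorem: `R(s-a,s) = R(a,s)`. -/
theorem R_reflect {a s : ℂ} (hs : s ∉ L.lattice) (h1 : a ∉ L.lattice) (h2 : s - a ∉ L.lattice)
    (h3 : a + s ∉ L.lattice) (h4 : 2 * s - a ∉ L.lattice) : R L (s - a) s = R L a s := by
  set U : Set ℂ := {t | t ∉ L.lattice ∧ s - t ∉ L.lattice ∧ t + s ∉ L.lattice ∧
    2 * s - t ∉ L.lattice} with hU
  have hUo : IsOpen U := by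
    have o1 : IsOpen {t : ℂ | t ∉ L.lattice} := isOpen_compl_lattice L
    have o2 : IsOpen {t : ℂ | s - t ∉ L.lattice} :=
      (isOpen_compl_lattice L).preimage (f := fun t : ℂ => s - t) (by fun_prop)
    have o3 : IsOpen {t : ℂ | t + s ∉ L.lattice} :=
      (isOpen_compl_lattice L).preimage (f := fun t : ℂ => t + s) (by fun_prop)
    have o4 : IsOpen {t : ℂ | 2 * s - t ∉ L.lattice} :=
      (isOpen_compl_lattice L).preimage (f := fun t : ℂ => 2 * s - t) (by fun_prop)
    exact o1.inter (o2.inter (o3.inter o4))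
  have hUc : Uᶜ.Countable := by
    have : Uᶜ = (L.lattice : Set ℂ) ∪ ((fun t => s - t) ⁻¹' (L.lattice : Set ℂ) ∪
        ((fun t => t + s) ⁻¹' (L.lattice : Set ℂ) ∪
        (fun t => 2 * s - t) ⁻¹' (L.lattice : Set ℂ))) := by
      ext t
      simp only [hU, Set.mem_compl_iff, Set.mem_ofPred_eq, not_and_or, not_not, Set.mem_union,
        SetLike.mem_coe, Set.mem_preimage]
    rw [this]
    exact (countable_lattice L).union
      (((countable_lattice L).preimage (sub_right_injective (b := s))).union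
      (((countable_lattice L).preimage (add_left_injective s)).union
      ((countable_lattice L).preimage (sub_right_injective (b := 2 * s)))))
  have hUp : IsPreconnected U := by
    rw [← compl_compl U]
    exact isPreconnected_compl_of_countable hUc
  have haU : a ∈ U := ⟨h1, h2, h3, h4⟩
  have hbU : s - a ∈ U := by
    refine ⟨h2, ?_, ?_, ?_⟩
    · simpa using h1
    · have : s - a + s = 2 * s - a := by ring
      rw [this]; exact h4
    · have : 2 * s - (s - a) = a + s := by ring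
      rw [this]; exact h3
  have hne1 : ∀ t ∈ U, ℘[L] t ≠ ℘[L] s := by
    intro t ht
    refine wp_ne ht.1 hs ?_ ht.2.2.1
    rw [← neg_mem_iff, neg_sub]; exact ht.2.1
  have hne2 : ∀ t ∈ U, ℘[L] (s - t) ≠ ℘[L] s := by
    intro t ht
    refine wp_ne ht.2.1 hs ?_ ?_
    · have : s - t - s = -t := by ring
      rw [this, neg_mem_iff]; exact ht.1
    · have : s - t + s = 2 * s - t := by ring
      rw [this]; exact ht.2.2.2
  have hder : ∀ t ∈ U, HasDerivAt (fun t => R L t s - R L (s - t) s) 0 t := by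
    intro t ht
    have a1 := hasDerivAt_R_left ht.1 hs (hne1 t ht)
    have a2 := (hasDerivAt_R_left ht.2.1 hs (hne2 t ht)).comp_const_sub s t
    have := a1.fun_sub a2
    convert! this using 1
    have e1 := R_sq ht.1 hs (by rw [← neg_mem_iff, neg_sub]; exact ht.2.1) ht.2.2.1
    have e2 := R_sq ht.2.1 hs (by
      have : s - t - s = -t := by ring
      rw [this, neg_mem_iff]; exact ht.1) (by
      have : s - t + s = 2 * s - t := by ring
      rw [this]; exact ht.2.2.2)
    have e3 : ℘[L] (t - s) = ℘[L] (s - t) := by rw [← L.weierstrassP_neg, neg_sub]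
    have e4 : ℘[L] (s - t - s) = ℘[L] t := by
      have : s - t - s = -t := by ring
      rw [this, L.weierstrassP_neg]
    rw [e3] at e1
    rw [e4] at e2
    rw [e1, e2]
    ring
  have := hUo.is_const_of_deriv_eq_zero hUp
      (fun s hs => (hder s hs).differentiableAt.differentiableWithinAt)
      (fun s hs => (hder s hs).deriv) haU hbU
  simp only [sub_sub_cancel] at this
  linear_combination (-1/2) * this

end Pool.Agent.Lib.MP_0b1044_mp
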