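import Mathlib
import Pool.Agent.Lib.MP_0b1044_mp.RFun

/-!
The filtered space `Wsp n` of pairs `(p,q)` (standing for `p(wp)+q(wp) wp'`) with pole order at
most `n`, the basis `phi`, the leading coefficient `lc`, and multiplication by `R(.,s)`.
-/

namespace Pool.Agent.Lib.MP_0b1044_mp

open PeriodPair Filter Topology Polynomial

/-- Pairs with pole order at most `n`. -/
noncomputable def Wsp (n : ℕ) : Submodule ℂ (ℂ[X] × ℂ[X]) :=
  (degreeLT ℂ (n / 2 + 1)).prod (degreeLT ℂ ((n - 1) / 2))

lemma mem_Wsp {n : ℕ} {v : ℂ[X] × ℂ[X]} :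
    v ∈ Wsp n ↔ v.1.degree < ((n / 2 + 1 : ℕ) : WithBot ℕ) ∧
      v.2.degree < (((n - 1) / 2 : ℕ) : WithBot ℕ) := by
  rw [Wsp, Submodule.mem_prod, mem_degreeLT, mem_degreeLT]

/-- `phi 0 = 1`, `phi (j+1) = wp^{(j)}` as pairs. -/
noncomputable def phi (g2 g3 : ℂ) : ℕ → ℂ[X] × ℂ[X]
  | 0 => (1, 0)
  | (j + 1) => (Dp g2 g3)^[j] (X, 0)

@[simp] lemma phi_zero (g2 g3 : ℂ) : phi g2 g3 0 = (1, 0) := rfl

lemma phi_one (g2 g3 : ℂ) : phi g2 g3 1 = (X, 0) := rfl

lemma phi_succ_succ (g2 g3 : ℂ) (j : ℕ) : phi g2 g3 (j + 2) = Dp g2 g3 (phi g2 g3 (j + 1)) := by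
  simp only [phi]
  rw [Function.iterate_succ_apply']

/-- leading coefficient functional (normalised so that it is `lim z^n ev v z`). -/
noncomputable def lc (n : ℕ) (v : ℂ[X] × ℂ[X]) : ℂ :=
  if Even n then v.1.coeff (n / 2) else -2 * v.2.coeff ((n - 1) / 2 - 1)

lemma lc_add (n : ℕ) (v w : ℂ[X] × ℂ[X]) : lc n (v + w) = lc n v + lc n w := by
  simp only [lc, Prod.fst_add, Prod.snd_add, coeff_add]
  split_ifs <;> ring

lemma lc_smul (n : ℕ) (c : ℂ) (v : ℂ[X] × ℂ[X]) : lc n (c • v) = c * lc n v := by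
  simp only [lc, Prod.smul_fst, Prod.smul_snd, coeff_smul, smul_eq_mul]
  split_ifs <;> ring

lemma lc_zero (n : ℕ) : lc n 0 = 0 := by simp [lc]

lemma lc_sum {ι : Type*} (s : Finset ι) (n : ℕ) (f : ι → ℂ[X] × ℂ[X]) :
    lc n (∑ i ∈ s, f i) = ∑ i ∈ s, lc n (f i) := by
  classical
  induction s using Finset.induction_on with
  | empty => simp [lc_zero]
  | insert a s ha ih => rw [Finset.sum_insert ha, Finset.sum_insert ha, lc_add, ih]

/-- elements of `W_{n+1}` with vanishing leading coefficient lie in `W_n`. -/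
lemma mem_Wsp_of_lc {n : ℕ} (hn : 1 ≤ n) {v : ℂ[X] × ℂ[X]} (hv : v ∈ Wsp (n + 1))
    (h : lc (n + 1) v = 0) : v ∈ Wsp n := by
  rw [mem_Wsp] at hv ⊢
  rcases Nat.even_or_odd (n + 1) with he | ho
  · obtain ⟨r, hr⟩ := he
    rw [lc, if_pos ⟨r, hr⟩] at h
    have e1 : (n + 1) / 2 = r := by omega
    have e2 : (n + 1 - 1) / 2 = r - 1 := by omega
    have e3 : n / 2 + 1 = r := by omega
    have e4 : (n - 1) / 2 = r - 1 := by omega
    rw [e1, e2] at hv
    rw [e1] at h
    rw [e3, e4]
    refine ⟨?_, hv.2⟩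
    rw [degree_lt_iff_coeff_zero] at hv ⊢
    intro m hm
    rcases eq_or_lt_of_le hm with h1 | h1
    · rw [← h1]; exact h
    · exact hv.1 m h1
  · obtain ⟨r, hr⟩ := ho
    have hne : ¬ Even (n + 1) := by rw [Nat.not_even_iff_odd]; exact ⟨r, hr⟩
    rw [lc, if_neg hne] at h
    have e1 : (n + 1) / 2 + 1 = r + 1 := by omega
    have e2 : (n + 1 - 1) / 2 = r := by omega
    have e3 : n / 2 + 1 = r + 1 := by omega
    have e4 : (n - 1) / 2 = r - 1 := by omega
    rw [e1, e2] at hv
    rw [e2] at h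
    rw [e3, e4]
    refine ⟨hv.1, ?_⟩
    have hr1 : 1 ≤ r := by omega
    have h' : v.2.coeff (r - 1) = 0 := by simpa using h
    rw [degree_lt_iff_coeff_zero]
    have hv2 := hv.2
    rw [degree_lt_iff_coeff_zero] at hv2
    intro m hm
    rcases eq_or_lt_of_le hm with h1 | h1
    · rw [← h1]; exact h'
    · exact hv2 m (by omega)

lemma Wsp_mono {m n : ℕ} (h : m ≤ n) : Wsp m ≤ Wsp n := by
  intro v hv
  rw [mem_Wsp] at hv ⊢
  refine ⟨hv.1.trans_le ?_, hv.2.trans_le ?_⟩
  · exact_mod_cast (by omega : m / 2 + 1 ≤ n / 2 + 1)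
  · exact_mod_cast (by omega : (m - 1) / 2 ≤ (n - 1) / 2)

/-- shape of the `phi`'s. -/
lemma phi_shape (g2 g3 : ℂ) (i : ℕ) :
    (∃ p : ℂ[X], phi g2 g3 (2 * i + 1) = (p, 0) ∧ p.degree = ((i + 1 : ℕ) : WithBot ℕ)) ∧
    (∃ q : ℂ[X], phi g2 g3 (2 * i + 2) = (0, q) ∧ q.degree = ((i : ℕ) : WithBot ℕ)) := by
  induction i with
  | zero =>
    refine ⟨⟨X, by simp [phi_one], by simp [degree_X]⟩, ⟨1, ?_, by simp⟩⟩
    rw [show 2 * 0 + 2 = 0 + 2 from rfl, phi_succ_succ, phi_one]
    simp [Dp]
  | succ i ih =>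
    obtain ⟨_, q, hq, hqd⟩ := ih
    have key : ∃ p : ℂ[X], phi g2 g3 (2 * (i + 1) + 1) = (p, 0) ∧
        p.degree = ((i + 1 + 1 : ℕ) : WithBot ℕ) := by
      refine ⟨derivative q * (4 * X ^ 3 - C g2 * X - C g3) + q * (6 * X ^ 2 - C (g2 / 2)), ?_, ?_⟩
      · rw [show 2 * (i + 1) + 1 = (2 * i + 1) + 2 by ring, phi_succ_succ,
          show 2 * i + 1 + 1 = 2 * i + 2 by ring, hq]
        simp [Dp]
      · have hq0 : q ≠ 0 := by
          intro h; rw [h, degree_zero] at hqd; simp at hqd
        have hnd : q.natDegree = i := natDegree_eq_of_degree_eq_some hqd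
        have hlc : q.coeff i ≠ 0 := by
          have := leadingCoeff_ne_zero.mpr hq0
          rwa [leadingCoeff, hnd] at this
        have hc : (derivative q * (4 * X ^ 3 - C g2 * X - C g3)
            + q * (6 * X ^ 2 - C (g2 / 2))).coeff (i + 2) = (4 * i + 6) * q.coeff i := by
          have h1 : (derivative q * (4 * X ^ 3 - C g2 * X - C g3)).coeff (i + 2)
              = 4 * i * q.coeff i := by
            have e : derivative q * (4 * X ^ 3 - C g2 * X - C g3)
              = 4 * (derivative q * X ^ 3) - C g2 * (derivative q * X) - C g3 * derivative q := by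
              ring
            rw [e, coeff_sub, coeff_sub, coeff_C_mul, coeff_C_mul, coeff_ofNat_mul,
              coeff_mul_X_pow', coeff_mul_X, coeff_derivative, coeff_derivative, coeff_derivative]
            have z1 : q.coeff (i + 1 + 1) = 0 := coeff_eq_zero_of_natDegree_lt (by omega)
            have z2 : q.coeff (i + 2 + 1) = 0 := coeff_eq_zero_of_natDegree_lt (by omega)
            rw [z1, z2]
            rcases Nat.eq_zero_or_pos i with h0 | h0
            · subst h0; simp
            · rw [if_pos (by omega), show i + 2 - 3 + 1 = i by omega]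
              have : ((i + 2 - 3 : ℕ) : ℂ) + 1 = i := by
                have : i + 2 - 3 + 1 = i := by omega
                exact_mod_cast congrArg (Nat.cast (R := ℂ)) this
              rw [this]; ring
          have h2 : (q * (6 * X ^ 2 - C (g2 / 2))).coeff (i + 2) = 6 * q.coeff i := by
            have e : q * (6 * X ^ 2 - C (g2 / 2)) = 6 * (q * X ^ 2) - C (g2 / 2) * q := by ring
            rw [e, coeff_sub, coeff_ofNat_mul, coeff_C_mul, coeff_mul_X_pow]
            have z2 : q.coeff (i + 2) = 0 := coeff_eq_zero_of_natDegree_lt (by omega)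
            rw [z2]; ring
          rw [coeff_add, h1, h2]; ring
        have hne : (derivative q * (4 * X ^ 3 - C g2 * X - C g3)
            + q * (6 * X ^ 2 - C (g2 / 2))).coeff (i + 2) ≠ 0 := by
          rw [hc]
          refine mul_ne_zero ?_ hlc
          have : ((4 * i + 6 : ℕ) : ℂ) ≠ 0 := by
            rw [Nat.cast_ne_zero]; omega
          simpa using this
        apply le_antisymm
        · have d1 : (derivative q).degree ≤ ((i - 1 : ℕ) : WithBot ℕ) ∨ derivative q = 0 := by
            rcases Nat.eq_zero_or_pos i with h0 | h0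
            · right
              subst h0
              rw [eq_C_of_natDegree_eq_zero hnd]; simp
            · left
              refine degree_le_of_natDegree_le ?_
              have := natDegree_derivative_lt (p := q) (by omega)
              omega
          have d2 : (4 * X ^ 3 - C g2 * X - C g3 : ℂ[X]).degree ≤ ((3 : ℕ) : WithBot ℕ) :=
            degree_le_of_natDegree_le (by compute_degree)
          have d3 : (6 * X ^ 2 - C (g2 / 2) : ℂ[X]).degree ≤ ((2 : ℕ) : WithBot ℕ) :=
            degree_le_of_natDegree_le (by compute_degree)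
          refine (degree_add_le _ _).trans (max_le ?_ ?_)
          · rcases d1 with d1 | d1
            · rcases Nat.eq_zero_or_pos i with h0 | h0
              · have : derivative q = 0 := by
                  subst h0
                  rw [eq_C_of_natDegree_eq_zero hnd]; simp
                rw [this, zero_mul, degree_zero]; exact bot_le
              · refine (degree_mul_le _ _).trans ((add_le_add d1 d2).trans ?_)
                exact_mod_cast (by omega : i - 1 + 3 ≤ i + 1 + 1)
            · rw [d1, zero_mul, degree_zero]; exact bot_le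
          · refine (degree_mul_le _ _).trans ((add_le_add hqd.le d3).trans ?_)
            exact_mod_cast (by omega : i + 2 ≤ i + 1 + 1)
        · exact le_degree_of_ne_zero hne
    refine ⟨key, ?_⟩
    obtain ⟨p, hp, hpd⟩ := key
    refine ⟨derivative p, ?_, ?_⟩
    · rw [show 2 * (i + 1) + 2 = (2 * (i + 1)) + 2 by ring, phi_succ_succ, hp]
      simp [Dp]
    · rw [degree_derivative]
      · rw [natDegree_eq_of_degree_eq_some hpd]; rfl
      · rw [natDegree_eq_of_degree_eq_some hpd]; omega

lemma phi_mem (g2 g3 : ℂ) (j : ℕ) : phi g2 g3 j ∈ Wsp (j + 1) := by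
  rw [mem_Wsp]
  rcases Nat.eq_zero_or_pos j with h0 | h0
  · subst h0
    simp only [phi_zero, degree_one, degree_zero]
    refine ⟨by norm_num, ?_⟩
    exact WithBot.bot_lt_coe _
  · obtain ⟨i, hi | hi⟩ := Nat.even_or_odd' j
    · obtain ⟨k, rfl⟩ : ∃ k, i = k + 1 := ⟨i - 1, by omega⟩
      obtain ⟨q, hq, hqd⟩ := (phi_shape g2 g3 k).2
      rw [hi, show 2 * (k + 1) = 2 * k + 2 by ring, hq]
      simp only [degree_zero]
      refine ⟨WithBot.bot_lt_coe _, ?_⟩
      rw [hqd]
      exact_mod_cast (by omega : k < (2 * k + 2 + 1 - 1) / 2)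
    · obtain ⟨p, hp, hpd⟩ := (phi_shape g2 g3 i).1
      rw [hi, hp]
      simp only [degree_zero]
      refine ⟨?_, WithBot.bot_lt_coe _⟩
      rw [hpd]
      exact_mod_cast (by omega : i + 1 < (2 * i + 1 + 1) / 2 + 1)

lemma degC (a : ℂ) (p : ℂ[X]) : (C a * p).degree ≤ p.degree := by
  rw [← smul_eq_C_mul]; exact degree_smul_le a p

lemma lc_phi_ne_zero (g2 g3 : ℂ) {n : ℕ} (hn : 1 ≤ n) : lc (n + 1) (phi g2 g3 n) ≠ 0 := by
  obtain ⟨i, hi | hi⟩ := Nat.even_or_odd' n
  · obtain ⟨k, rfl⟩ : ∃ k, i = k + 1 := ⟨i - 1, by omega⟩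
    obtain ⟨q, hq, hqd⟩ := (phi_shape g2 g3 k).2
    have hne : ¬ Even (n + 1) := by
      rw [Nat.not_even_iff_odd]; exact ⟨k + 1, by omega⟩
    rw [lc, if_neg hne, hi, show 2 * (k + 1) = 2 * k + 2 by ring, hq]
    have : (2 * k + 2 + 1 - 1) / 2 - 1 = k := by omega
    rw [this]
    have hq0 : q ≠ 0 := by
      intro h; rw [h, degree_zero] at hqd; simp at hqd
    have hnd : q.natDegree = k := natDegree_eq_of_degree_eq_some hqd
    have hlc : q.coeff k ≠ 0 := by
      have := leadingCoeff_ne_zero.mpr hq0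
      rwa [leadingCoeff, hnd] at this
    simpa using hlc
  · obtain ⟨q, hq, hqd⟩ := (phi_shape g2 g3 i).1
    have hne : Even (n + 1) := ⟨i + 1, by omega⟩
    rw [lc, if_pos hne, hi, hq]
    have : (2 * i + 1 + 1) / 2 = i + 1 := by omega
    rw [this]
    have hq0 : q ≠ 0 := by
      intro h; rw [h, degree_zero] at hqd; exact absurd hqd.symm (WithBot.coe_ne_bot)
    have hnd : q.natDegree = i + 1 := natDegree_eq_of_degree_eq_some hqd
    have hlc : q.coeff (i + 1) ≠ 0 := by
      have := leadingCoeff_ne_zero.mpr hq0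
      rwa [leadingCoeff, hnd] at this
    simpa using hlc

/-- the `phi j`, `j < n`, span `W_n`. -/
lemma exists_coeffs (g2 g3 : ℂ) {n : ℕ} (hn : 1 ≤ n) {v : ℂ[X] × ℂ[X]} (hv : v ∈ Wsp n) :
    ∃ c : ℕ → ℂ, v = ∑ j ∈ Finset.range n, c j • phi g2 g3 j := by
  induction n, hn using Nat.le_induction generalizing v with
  | base =>
    rw [mem_Wsp] at hv
    refine ⟨fun _ => v.1.coeff 0, ?_⟩
    simp only [Finset.range_one, Finset.sum_singleton, phi_zero]
    have h1 : v.1 = C (v.1.coeff 0) := by
      apply eq_C_of_degree_le_zero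
      rw [degree_le_iff_coeff_zero]
      intro m hm
      have := hv.1
      rw [degree_lt_iff_coeff_zero] at this
      have hm' : 0 < m := by exact_mod_cast hm
      exact this m (by omega)
    have h2 : v.2 = 0 := by
      have := hv.2
      norm_num at this
      exact this
    ext1
    · simp only [Prod.smul_mk, smul_zero]
      rw [← C_mul', mul_one]; exact h1
    · simpa using h2
  | succ n hn ih =>
    set c0 := lc (n + 1) v / lc (n + 1) (phi g2 g3 n) with hc0
    have hne := lc_phi_ne_zero g2 g3 hn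
    have hw : v - c0 • phi g2 g3 n ∈ Wsp n := by
      apply mem_Wsp_of_lc hn
      · exact sub_mem hv (Submodule.smul_mem _ _ (phi_mem g2 g3 n))
      · rw [sub_eq_add_neg, lc_add, ← neg_smul, lc_smul, hc0]
        field_simp
        ring
    obtain ⟨c, hc⟩ := ih hw
    refine ⟨fun j => if j = n then c0 else c j, ?_⟩
    rw [Finset.sum_range_succ]
    simp only [if_true]
    have : ∑ x ∈ Finset.range n, (if x = n then c0 else c x) • phi g2 g3 x
        = ∑ x ∈ Finset.range n, c x • phi g2 g3 x := by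
      apply Finset.sum_congr rfl
      intro x hx
      rw [if_neg (by have := Finset.mem_range.mp hx; omega)]
    rw [this, ← hc]
    abel

variable {L : PeriodPair}

lemma ev_add (v w : ℂ[X] × ℂ[X]) (z : ℂ) : ev L (v + w) z = ev L v z + ev L w z := by
  simp only [ev, Prod.fst_add, Prod.snd_add, eval_add]; ring

lemma ev_smul (c : ℂ) (v : ℂ[X] × ℂ[X]) (z : ℂ) : ev L (c • v) z = c * ev L v z := by
  simp only [ev, Prod.smul_fst, Prod.smul_snd, eval_smul, smul_eq_mul]; ring

lemma ev_sum {ι : Type*} (s : Finset ι) (f : ι → ℂ[X] × ℂ[X]) (z : ℂ) :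
    ev L (∑ i ∈ s, f i) z = ∑ i ∈ s, ev L (f i) z := by
  classical
  induction s using Finset.induction_on with
  | empty => simp [ev]
  | insert a s ha ih => rw [Finset.sum_insert ha, Finset.sum_insert ha, ev_add, ih]

lemma ev_phi_zero (g2 g3 : ℂ) (z : ℂ) : ev L (phi g2 g3 0) z = 1 := by simp [ev]

lemma ev_phi_succ (j : ℕ) {z : ℂ} (hz : z ∉ L.lattice) :
    ev L (phi L.g₂ L.g₃ (j + 1)) z = iteratedDeriv j ℘[L] z := by
  rw [iteratedDeriv_wp j hz]; rfl

/-- Multiplication by `R(.,s)`: if `v ∈ W_n` vanishes at `s` then `v * R(.,s)` extends to an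
element of `W_{n+1}`, whose value at `s` is `v'(s)`. -/
lemma exists_mul_R {n : ℕ} (hn : 1 ≤ n) {v : ℂ[X] × ℂ[X]} (hv : v ∈ Wsp n) {s : ℂ}
    (hs : s ∉ L.lattice) (h0 : ev L v s = 0) :
    ∃ w ∈ Wsp (n + 1), lc (n + 1) w = - lc n v ∧
      (∀ z, z ∉ L.lattice → ℘[L] z ≠ ℘[L] s → ev L w z = ev L v z * R L z s) ∧
      ev L w s = ev L (Dp L.g₂ L.g₃ v) s := by
  obtain ⟨p, q⟩ := v
  set x := ℘[L] s with hx
  set y := ℘'[L] s with hy
  have hode := L.derivWeierstrassP_sq s hs
  rw [← hx, ← hy] at hode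
  simp only [ev, ← hx, ← hy] at h0
  set f : ℂ[X] := 4 * X ^ 3 - C L.g₂ * X - C L.g₃ with hf
  have hfx : f.eval x = y ^ 2 := by
    rw [hf, hode]; simp
  have hP : (X - C x) ∣ (p * C y + q * f) := by
    rw [dvd_iff_isRoot, IsRoot.def, eval_add, eval_mul, eval_mul, eval_C, hfx]
    linear_combination y * h0
  have hQ : (X - C x) ∣ (p + q * C y) := by
    rw [dvd_iff_isRoot, IsRoot.def, eval_add, eval_mul, eval_C]
    linear_combination h0
  obtain ⟨P1, hP1⟩ := hP
  obtain ⟨Q1, hQ1⟩ := hQ
  rw [mem_Wsp] at hv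
  simp only at hv
  have hcoefP : ∀ m, (p * C y + q * f).coeff (m + 1) = P1.coeff m - x * P1.coeff (m + 1) := by
    intro m
    rw [hP1, sub_mul, coeff_sub, coeff_X_mul, coeff_C_mul]
  have hcoefQ : ∀ m, (p + q * C y).coeff (m + 1) = Q1.coeff m - x * Q1.coeff (m + 1) := by
    intro m
    rw [hQ1, sub_mul, coeff_sub, coeff_X_mul, coeff_C_mul]
  have hfdeg : f.degree ≤ ((3 : ℕ) : WithBot ℕ) :=
    degree_le_of_natDegree_le (by rw [hf]; compute_degree)
  have hqfcoef : ∀ m, (q * f).coeff (m + 3) = 4 * q.coeff m - L.g₂ * q.coeff (m + 2)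
      - L.g₃ * q.coeff (m + 3) := by
    intro m
    have e : q * f = 4 * (q * X ^ 3) - C L.g₂ * (q * X) - C L.g₃ * q := by rw [hf]; ring
    rw [e, coeff_sub, coeff_sub, coeff_C_mul, coeff_C_mul, coeff_ofNat_mul, coeff_mul_X_pow,
      show m + 3 = (m + 2) + 1 by ring, coeff_mul_X]
  -- degree bounds for P1, Q1
  have hdegX : (X - C x : ℂ[X]).degree = 1 := degree_X_sub_C x
  have bound : ∀ (A B : ℂ[X]) (k : ℕ), A = (X - C x) * B → A.degree < ((k + 1 : ℕ) : WithBot ℕ) →
      B.degree < ((k : ℕ) : WithBot ℕ) := by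
    intro A B k hAB hA
    by_cases hB : B = 0
    · rw [hB, degree_zero]; exact WithBot.bot_lt_coe _
    rw [hAB, degree_mul, hdegX, degree_eq_natDegree hB] at hA
    rw [degree_eq_natDegree hB]
    have : 1 + B.natDegree < k + 1 := by exact_mod_cast hA
    exact_mod_cast (by omega : B.natDegree < k)
  obtain ⟨r, hr | hr⟩ := Nat.even_or_odd' n
  · -- n = 2 r, r ≥ 1
    have e1 : n / 2 + 1 = r + 1 := by omega
    have e2 : (n - 1) / 2 = r - 1 := by omega
    rw [e1, e2] at hv
    have e3 : (n + 1) / 2 + 1 = r + 1 := by omega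
    have e4 : (n + 1 - 1) / 2 = r := by omega
    have hPd : P1.degree < ((r + 1 : ℕ) : WithBot ℕ) := by
      apply bound _ _ _ hP1
      refine (degree_add_le _ _).trans_lt (max_lt ?_ ?_)
      · rw [mul_comm]
        refine (degC y p).trans_lt (hv.1.trans_le ?_)
        exact_mod_cast (by omega : r + 1 ≤ r + 1 + 1)
      · by_cases hq0 : q = 0
        · rw [hq0, zero_mul, degree_zero]; exact WithBot.bot_lt_coe _
        rw [degree_eq_natDegree hq0] at hv
        have hqn : q.natDegree < r - 1 := by exact_mod_cast hv.2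
        refine (degree_mul_le _ _).trans_lt ?_
        rw [degree_eq_natDegree hq0]
        refine (add_le_add le_rfl hfdeg).trans_lt ?_
        exact_mod_cast (by omega : q.natDegree + 3 < r + 1 + 1)
    have hQd : Q1.degree < ((r : ℕ) : WithBot ℕ) := by
      apply bound _ _ _ hQ1
      refine (degree_add_le _ _).trans_lt (max_lt hv.1 ?_)
      rw [mul_comm]
      refine (degC y q).trans_lt (hv.2.trans_le ?_)
      exact_mod_cast (by omega : r - 1 ≤ r + 1)
    refine ⟨(C (1/2) * P1, C (1/2) * Q1), ?_, ?_, ?_, ?_⟩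
    · rw [mem_Wsp, e3, e4]
      exact ⟨(degC _ _).trans_lt hPd, (degC _ _).trans_lt hQd⟩
    · have hne : ¬ Even (n + 1) := by rw [Nat.not_even_iff_odd]; exact ⟨r, by omega⟩
      rw [lc, if_neg hne, lc, if_pos ⟨r, by omega⟩]
      simp only
      rw [coeff_C_mul]
      have hr1 : 1 ≤ r := by omega
      have h1 := hcoefQ (r - 1)
      rw [show r - 1 + 1 = r by omega] at h1
      have h2 : Q1.coeff r = 0 := by
        rw [degree_lt_iff_coeff_zero] at hQd; exact hQd r le_rfl
      have h3 : q.coeff r = 0 := by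
        have := hv.2; rw [degree_lt_iff_coeff_zero] at this; exact this r (by omega)
      rw [h2, coeff_add, coeff_mul_C, h3] at h1
      rw [show (n + 1 - 1) / 2 - 1 = r - 1 by omega, show n / 2 = r by omega]
      linear_combination h1
    · intro z hz hzs
      have hode' := L.derivWeierstrassP_sq z hz
      have hd : ℘[L] z - x ≠ 0 := sub_ne_zero.mpr hzs
      have a1 := congrArg (eval (℘[L] z)) hP1
      have a2 := congrArg (eval (℘[L] z)) hQ1
      simp only [eval_add, eval_mul, eval_sub, eval_X, eval_C] at a1 a2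
      have a3 : f.eval (℘[L] z) = ℘'[L] z ^ 2 := by rw [hf, hode']; simp
      rw [a3] at a1
      simp only [ev, R, ← hx, ← hy, eval_mul, eval_C]
      field_simp
      linear_combination -a1 - ℘'[L] z * a2
    · have a1 := congrArg (fun A => eval x (derivative A)) hP1
      have a2 := congrArg (fun A => eval x (derivative A)) hQ1
      simp only [derivative_add, derivative_mul, derivative_C, derivative_sub, derivative_X,
        eval_add, eval_mul, eval_sub, eval_X, eval_C, sub_self, zero_mul,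
        mul_zero, add_zero, sub_zero, one_mul] at a1 a2
      have a3 : (derivative f).eval x = 12 * x ^ 2 - L.g₂ := by
        rw [hf]; simp; ring
      rw [a3] at a1
      rw [hfx] at a1
      simp only [ev, Dp, ← hx, ← hy, eval_mul, eval_C, ← hf, eval_add, eval_sub, eval_pow, eval_X,
        hfx, eval_ofNat]
      linear_combination (-1/2) * a1 - (1/2) * y * a2
  · -- n = 2 r + 1
    have e1 : n / 2 + 1 = r + 1 := by omega
    have e2 : (n - 1) / 2 = r := by omega
    rw [e1, e2] at hv
    have e3 : (n + 1) / 2 + 1 = r + 2 := by omega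
    have e4 : (n + 1 - 1) / 2 = r := by omega
    have hPd : P1.degree < ((r + 2 : ℕ) : WithBot ℕ) := by
      apply bound _ _ _ hP1
      refine (degree_add_le _ _).trans_lt (max_lt ?_ ?_)
      · rw [mul_comm]
        refine (degC y p).trans_lt (hv.1.trans_le ?_)
        exact_mod_cast (by omega : r + 1 ≤ r + 2 + 1)
      · by_cases hq0 : q = 0
        · rw [hq0, zero_mul, degree_zero]; exact WithBot.bot_lt_coe _
        rw [degree_eq_natDegree hq0] at hv
        have hqn : q.natDegree < r := by exact_mod_cast hv.2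
        refine (degree_mul_le _ _).trans_lt ?_
        rw [degree_eq_natDegree hq0]
        refine (add_le_add le_rfl hfdeg).trans_lt ?_
        exact_mod_cast (by omega : q.natDegree + 3 < r + 2 + 1)
    have hQd : Q1.degree < ((r : ℕ) : WithBot ℕ) := by
      apply bound _ _ _ hQ1
      refine (degree_add_le _ _).trans_lt (max_lt hv.1 ?_)
      rw [mul_comm]
      refine (degC y q).trans_lt (hv.2.trans_le ?_)
      exact_mod_cast (by omega : r ≤ r + 1)
    refine ⟨(C (1/2) * P1, C (1/2) * Q1), ?_, ?_, ?_, ?_⟩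
    · rw [mem_Wsp, e3, e4]
      exact ⟨(degC _ _).trans_lt hPd, (degC _ _).trans_lt hQd⟩
    · have hne : ¬ Even n := by rw [Nat.not_even_iff_odd]; exact ⟨r, by omega⟩
      rw [lc, if_pos ⟨r + 1, by omega⟩, lc, if_neg hne]
      simp only
      rw [coeff_C_mul]
      have h1 := hcoefP (r + 1)
      have h2 : P1.coeff (r + 1 + 1) = 0 := by
        rw [degree_lt_iff_coeff_zero] at hPd; exact hPd _ le_rfl
      have hv1 := hv.1
      have hv2 := hv.2
      rw [degree_lt_iff_coeff_zero] at hv1 hv2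
      have h3 : p.coeff (r + 1 + 1) = 0 := hv1 _ (by omega)
      rw [h2, coeff_add, coeff_mul_C, h3] at h1
      rw [show (n - 1) / 2 - 1 = r - 1 by omega, show (n + 1) / 2 = r + 1 by omega]
      rcases Nat.eq_zero_or_pos r with h0r | h0r
      · have hq0 : q = 0 := by
          ext m; rw [hv2 m (by omega)]; simp
        rw [hq0] at h1 ⊢
        simp only [zero_mul, add_zero, coeff_zero, mul_zero, sub_zero, neg_zero] at h1 ⊢
        rw [← h1]; ring
      · have h4 := hqfcoef (r - 1)
        rw [show r - 1 + 3 = r + 1 + 1 by omega, show r - 1 + 2 = r + 1 by omega,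
          hv2 (r + 1) (by omega), hv2 (r + 1 + 1) (by omega)] at h4
        rw [h4] at h1
        linear_combination (-1/2) * h1
    · intro z hz hzs
      have hode' := L.derivWeierstrassP_sq z hz
      have hd : ℘[L] z - x ≠ 0 := sub_ne_zero.mpr hzs
      have a1 := congrArg (eval (℘[L] z)) hP1
      have a2 := congrArg (eval (℘[L] z)) hQ1
      simp only [eval_add, eval_mul, eval_sub, eval_X, eval_C] at a1 a2
      have a3 : f.eval (℘[L] z) = ℘'[L] z ^ 2 := by rw [hf, hode']; simp
      rw [a3] at a1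
      simp only [ev, R, ← hx, ← hy, eval_mul, eval_C]
      field_simp
      linear_combination -a1 - ℘'[L] z * a2
    · have a1 := congrArg (fun A => eval x (derivative A)) hP1
      have a2 := congrArg (fun A => eval x (derivative A)) hQ1
      simp only [derivative_add, derivative_mul, derivative_C, derivative_sub, derivative_X,
        eval_add, eval_mul, eval_sub, eval_X, eval_C, sub_self, zero_mul,
        mul_zero, add_zero, sub_zero, one_mul] at a1 a2
      have a3 : (derivative f).eval x = 12 * x ^ 2 - L.g₂ := by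
        rw [hf]; simp; ring
      rw [a3] at a1
      rw [hfx] at a1
      simp only [ev, Dp, ← hx, ← hy, eval_mul, eval_C, ← hf, eval_add, eval_sub, eval_pow, eval_X,
        hfx, eval_ofNat]
      linear_combination (-1/2) * a1 - (1/2) * y * a2

end Pool.Agent.Lib.MP_0b1044_mp
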