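import Mathlib
import Pool.Agent.Lib.MP_0b1044_mp.Space

/-!
Existence of an element of `W_{N+1}` vanishing at `y_1,...,y_N,-(y_1+...+y_N)`, for generic `y`
(Abel's theorem), by recursion.
-/

namespace Pool.Agent.Lib.MP_0b1044_mp

open PeriodPair Filter Topology Polynomial

variable {L : PeriodPair}

theorem exists_F (y : ℕ → ℂ) (N : ℕ) (hN : 1 ≤ N)
    (h1 : ∀ i < N, y i ∉ L.lattice)
    (h2 : ∀ k, 1 ≤ k → k ≤ N → (∑ i ∈ Finset.range k, y i) ∉ L.lattice)
    (h3 : ∀ k, 1 ≤ k → k < N → y k - ∑ i ∈ Finset.range k, y i ∉ L.lattice)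
    (h4 : ∀ k, 1 ≤ k → k < N → y k + 2 * ∑ i ∈ Finset.range k, y i ∉ L.lattice)
    (h5 : ∀ k, 2 ≤ k → k < N → ∀ i < k, y i + (∑ j ∈ Finset.range k, y j) ∉ L.lattice ∧
      y i - (∑ j ∈ Finset.range k, y j) ∉ L.lattice) :
    ∃ v ∈ Wsp (N + 1), lc (N + 1) v ≠ 0 ∧ (∀ i < N, ev L v (y i) = 0) ∧
      ev L v (-(∑ i ∈ Finset.range N, y i)) = 0 := by
  induction N, hN using Nat.le_induction with
  | base =>
    refine ⟨(X - C (℘[L] (y 0)), 0), ?_, ?_, ?_, ?_⟩
    · rw [mem_Wsp]
      simp only [degree_zero]
      refine ⟨?_, WithBot.bot_lt_coe _⟩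
      rw [degree_X_sub_C]
      norm_num
    · rw [lc, if_pos (by decide)]
      simp [coeff_X]
    · intro i hi
      have : i = 0 := by omega
      subst this
      simp [ev]
    · simp [ev]
  | succ N hN ih =>
    set S := ∑ i ∈ Finset.range N, y i with hS
    have hsum : ∑ i ∈ Finset.range (N + 1), y i = S + y N := by
      rw [Finset.sum_range_succ]
    -- points s = -S, a = y N, b = s - a
    have hs : -S ∉ L.lattice := by
      rw [neg_mem_iff]; exact h2 N hN (by omega)
    have ha : y N ∉ L.lattice := h1 N (by omega)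
    have hb : -S - y N ∉ L.lattice := by
      have : -S - y N = -(S + y N) := by ring
      rw [this, neg_mem_iff, ← hsum]
      exact h2 (N + 1) (by omega) le_rfl
    have has : y N + -S ∉ L.lattice := by
      rw [← sub_eq_add_neg]; exact h3 N hN (by omega)
    have h2sa : 2 * -S - y N ∉ L.lattice := by
      have : 2 * -S - y N = -(y N + 2 * S) := by ring
      rw [this, neg_mem_iff]; exact h4 N hN (by omega)
    have hrefl := R_reflect hs ha hb has h2sa
    have hane : ℘[L] (y N) ≠ ℘[L] (-S) := by
      refine wp_ne ha hs ?_ has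
      rw [sub_neg_eq_add]
      have := h2 (N + 1) (by omega) le_rfl
      rw [hsum] at this
      rwa [add_comm]
    have hbne : ℘[L] (-S - y N) ≠ ℘[L] (-S) := by
      refine wp_ne hb hs ?_ ?_
      · have : -S - y N - -S = - y N := by ring
        rw [this, neg_mem_iff]; exact ha
      · have : -S - y N + -S = 2 * -S - y N := by ring
        rw [this]; exact h2sa
    have hbeq : -(∑ i ∈ Finset.range (N + 1), y i) = -S - y N := by rw [hsum]; ring
    rw [hbeq]
    rcases eq_or_lt_of_le hN with hN1 | hN2
    · -- N = 1
      subst hN1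
      have hS0 : S = y 0 := by rw [hS]; simp
      set r := R L (y 1) (-S) with hr
      refine ⟨(C (℘'[L] (-S) / 2) - C r * (X - C (℘[L] (-S))), C (1 / 2)), ?_, ?_, ?_, ?_⟩
      · rw [mem_Wsp]
        have hd : ((1 : ℕ) : WithBot ℕ) < ((2 : ℕ) : WithBot ℕ) := by exact_mod_cast one_lt_two
        refine ⟨?_, ?_⟩
        · refine (degree_sub_le _ _).trans_lt (max_lt ?_ ?_)
          · refine degree_C_le.trans_lt ?_
            norm_num
          · refine (degC _ _).trans_lt ?_
            rw [degree_X_sub_C]
            norm_num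
        · refine degree_C_le.trans_lt ?_
          norm_num
      · rw [lc, if_neg (by decide)]
        norm_num [coeff_C]
      · intro i hi
        have hi' : i = 0 ∨ i = 1 := by omega
        rcases hi' with hi' | hi'
        · subst hi'
          simp only [ev, eval_sub, eval_mul, eval_C, eval_X, ← hS0]
          rw [L.weierstrassP_neg, L.derivWeierstrassP_neg]
          ring
        · subst hi'
          simp only [ev, eval_sub, eval_mul, eval_C, eval_X]
          have := R_mul hane
          rw [← hr] at this
          linear_combination (-1/2) * this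
      · simp only [ev, eval_sub, eval_mul, eval_C, eval_X]
        have := R_mul hbne
        rw [hrefl] at this
        linear_combination (-1/2) * this
    · -- N ≥ 2
      obtain ⟨v, hv, hlc, hvy, hvs⟩ := ih (fun i hi => h1 i (by omega))
        (fun k hk hk' => h2 k hk (by omega)) (fun k hk hk' => h3 k hk (by omega))
        (fun k hk hk' => h4 k hk (by omega)) (fun k hk hk' => h5 k hk (by omega))
      obtain ⟨w, hw, hwlc, hwz, _⟩ := exists_mul_R (by omega) hv hs hvs
      refine ⟨w + (-(R L (y N) (-S))) • v, ?_, ?_, ?_, ?_⟩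
      · exact add_mem hw (Submodule.smul_mem _ _ (Wsp_mono (by omega) hv))
      · rw [lc_add, hwlc, lc_smul]
        have hz : lc (N + 1 + 1) v = 0 := by
          rw [mem_Wsp] at hv
          have hv1 := hv.1
          have hv2 := hv.2
          rw [degree_lt_iff_coeff_zero] at hv1 hv2
          rw [lc]
          split_ifs with he
          · obtain ⟨t, ht⟩ := he
            exact hv1 _ (by omega)
          · rw [Nat.not_even_iff_odd] at he
            obtain ⟨t, ht⟩ := he
            rw [hv2 _ (by omega), mul_zero]
        rw [hz, mul_zero, add_zero]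
        exact neg_ne_zero.mpr hlc
      · intro i hi
        rw [ev_add, ev_smul]
        rcases Nat.lt_succ_iff_lt_or_eq.mp hi with hi' | hi'
        · have h5i := h5 N (by omega) (by omega) i hi'
          rw [← hS] at h5i
          rw [hwz (y i) (h1 i hi) (wp_ne (h1 i hi) hs (by rw [sub_neg_eq_add]; exact h5i.1)
            (by rw [← sub_eq_add_neg]; exact h5i.2)), hvy i hi']
          ring
        · subst hi'
          rw [hwz (y i) ha hane]
          ring
      · rw [ev_add, ev_smul, hwz _ hb hbne, hrefl]
        ring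

end Pool.Agent.Lib.MP_0b1044_mp
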