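import Mathlib

/-!
Calculus of directional derivatives (`lineDeriv`) for analytic functions on `Fin N → ℂ`.
-/

namespace Pool.Agent.Lib.MP_0b1044_mp

open Filter Topology

variable {N : ℕ}

/-- directional derivative in direction `v`. -/
noncomputable def dd (v : Fin N → ℂ) (ψ : (Fin N → ℂ) → ℂ) (y : Fin N → ℂ) : ℂ :=
  lineDeriv ℂ ψ y v

variable {v : Fin N → ℂ} {y : Fin N → ℂ} {f g : (Fin N → ℂ) → ℂ}

lemma dd_eq_fderiv (hf : DifferentiableAt ℂ f y) : dd v f y = fderiv ℂ f y v :=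
  hf.lineDeriv_eq_fderiv

lemma dd_eq_of_hasDerivAt {c : ℂ} (h : HasDerivAt (fun t : ℂ => f (y + t • v)) c 0) :
    dd v f y = c := h.deriv

lemma hasDerivAt_line (hf : DifferentiableAt ℂ f y) :
    HasDerivAt (fun t : ℂ => f (y + t • v)) (dd v f y) 0 := by
  rw [dd_eq_fderiv hf]
  exact hf.hasFDerivAt.hasLineDerivAt v

lemma dd_congr (h : f =ᶠ[𝓝 y] g) : dd v f y = dd v g y := by
  unfold dd
  exact h.lineDeriv_eq

lemma analyticAt_dd (hf : AnalyticAt ℂ f y) : AnalyticAt ℂ (dd v f) y := by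
  have h1 : AnalyticAt ℂ (fun x => fderiv ℂ f x v) y := by
    have := hf.fderiv
    exact (ContinuousLinearMap.apply ℂ ℂ v).analyticAt _ |>.comp this
  refine h1.congr ?_
  filter_upwards [hf.eventually_analyticAt] with x hx
  exact (dd_eq_fderiv hx.differentiableAt).symm

lemma dd_add (hf : DifferentiableAt ℂ f y) (hg : DifferentiableAt ℂ g y) :
    dd v (fun x => f x + g x) y = dd v f y + dd v g y :=
  dd_eq_of_hasDerivAt ((hasDerivAt_line hf).fun_add (hasDerivAt_line hg))

lemma dd_sub (hf : DifferentiableAt ℂ f y) (hg : DifferentiableAt ℂ g y) :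
    dd v (fun x => f x - g x) y = dd v f y - dd v g y :=
  dd_eq_of_hasDerivAt ((hasDerivAt_line hf).fun_sub (hasDerivAt_line hg))

lemma dd_mul (hf : DifferentiableAt ℂ f y) (hg : DifferentiableAt ℂ g y) :
    dd v (fun x => f x * g x) y = dd v f y * g y + f y * dd v g y := by
  have := (hasDerivAt_line (v := v) hf).fun_mul (hasDerivAt_line (v := v) hg)
  simp only [zero_smul, add_zero] at this
  exact dd_eq_of_hasDerivAt this

lemma dd_const (c : ℂ) : dd v (fun _ => c) y = 0 :=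
  dd_eq_of_hasDerivAt (hasDerivAt_const _ _)

lemma dd_const_mul (c : ℂ) (hf : DifferentiableAt ℂ f y) :
    dd v (fun x => c * f x) y = c * dd v f y :=
  dd_eq_of_hasDerivAt ((hasDerivAt_line hf).const_mul c)

lemma dd_sum {ι : Type*} (s : Finset ι) {F : ι → (Fin N → ℂ) → ℂ}
    (h : ∀ i ∈ s, DifferentiableAt ℂ (F i) y) :
    dd v (fun x => ∑ i ∈ s, F i x) y = ∑ i ∈ s, dd v (F i) y :=
  dd_eq_of_hasDerivAt (HasDerivAt.fun_sum fun i hi => hasDerivAt_line (h i hi))

lemma dd_cexp (hf : DifferentiableAt ℂ f y) :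
    dd v (fun x => Complex.exp (f x)) y = Complex.exp (f y) * dd v f y := by
  have := (hasDerivAt_line (v := v) hf).cexp
  simp only [zero_smul, add_zero] at this
  exact dd_eq_of_hasDerivAt this

/-- linear in the direction. -/
lemma dd_dir_sum {ι : Type*} (s : Finset ι) (c : ι → ℂ) (w : ι → Fin N → ℂ)
    (hf : DifferentiableAt ℂ f y) :
    dd (∑ i ∈ s, c i • w i) f y = ∑ i ∈ s, c i * dd (w i) f y := by
  rw [dd_eq_fderiv hf, map_sum]
  refine Finset.sum_congr rfl fun i _ => ?_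
  rw [map_smul, smul_eq_mul, dd_eq_fderiv hf]

/-- expansion of a direction in coordinates. -/
lemma dd_eq_sum_single (hf : DifferentiableAt ℂ f y) :
    dd v f y = ∑ i, v i * dd (Pi.single i 1) f y := by
  rw [← dd_dir_sum Finset.univ v (fun i => Pi.single i 1) hf]
  congr 1
  ext j
  simp [Finset.sum_apply, Pi.single_apply]

/-- chain rule. -/
lemma dd_comp {M : ℕ} {u : (Fin N → ℂ) → (Fin M → ℂ)} {h : (Fin M → ℂ) → ℂ}
    (hu : ∀ i, DifferentiableAt ℂ (fun x => u x i) y) (hh : DifferentiableAt ℂ h (u y)) :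
    dd v (fun x => h (u x)) y = ∑ i, dd (Pi.single i 1) h (u y) * dd v (fun x => u x i) y := by
  have hu' : DifferentiableAt ℂ u y := differentiableAt_pi.mpr hu
  have hc : DifferentiableAt ℂ (fun x => h (u x)) y := hh.comp y hu'
  rw [dd_eq_fderiv hc]
  have h1 : fderiv ℂ (fun x => h (u x)) y = (fderiv ℂ h (u y)).comp (fderiv ℂ u y) :=
    fderiv_comp y hh hu'
  rw [h1, ContinuousLinearMap.comp_apply]
  rw [← dd_eq_fderiv hh, dd_eq_sum_single hh]
  refine Finset.sum_congr rfl fun i _ => ?_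
  rw [mul_comm]
  congr 1
  rw [dd_eq_fderiv (hu i)]
  have h2 : HasFDerivAt (fun x => u x i) ((ContinuousLinearMap.proj i).comp (fderiv ℂ u y)) y :=
    (ContinuousLinearMap.proj (R := ℂ) (φ := fun _ : Fin M => ℂ) i).hasFDerivAt.comp y
      hu'.hasFDerivAt
  rw [h2.fderiv]
  rfl

/-- symmetry of second derivatives. -/
lemma dd_comm {w : Fin N → ℂ} (hf : AnalyticAt ℂ f y) :
    dd v (dd w f) y = dd w (dd v f) y := by
  have hev : ∀ (w : Fin N → ℂ), dd w f =ᶠ[𝓝 y] fun x => fderiv ℂ f x w := by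
    intro w
    filter_upwards [hf.eventually_analyticAt] with x hx
    exact dd_eq_fderiv hx.differentiableAt
  have hd : DifferentiableAt ℂ (fderiv ℂ f) y := hf.fderiv.differentiableAt
  have key : ∀ (v w : Fin N → ℂ), dd v (dd w f) y = fderiv ℂ (fderiv ℂ f) y v w := by
    intro v w
    rw [dd_congr (hev w)]
    rw [dd_eq_fderiv (hd.clm_apply (differentiableAt_const w))]
    rw [fderiv_clm_apply hd (differentiableAt_const w)]
    simp
  rw [key, key]
  have hs := (hf.contDiffAt (n := 2)).isSymmSndFDerivAt (by simp)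
  exact hs v w

end Pool.Agent.Lib.MP_0b1044_mp
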