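import Mathlib

/-!
# The elliptic Calogero-Moser operator and the change of variables: definitions
-/

namespace Pool.Agent.Lib.MP_0b1044_mp

open PeriodPair Topology

/-- `(y_1, ..., y_N, y_{N+1})` where `y_{N+1} = -(y_1 + ... + y_N)`. -/
noncomputable def yhat {N : ℕ} (y : Fin N → ℂ) : Fin (N + 1) → ℂ :=
  Fin.snoc y (-∑ i, y i)

/-- The partial derivative of `ψ` with respect to the `i`-th coordinate. -/
noncomputable def pd {N : ℕ} (i : Fin N) (ψ : (Fin N → ℂ) → ℂ) (x : Fin N → ℂ) : ℂ :=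
  lineDeriv ℂ ψ x (Pi.single i 1)

/-- The matrix `(℘^{(j-1)}(y_i))_{1 ≤ i,j ≤ N}` (here the index `j` runs from `0` to `N-1`, and
the entry is the `j`-th derivative of `℘` at `y_i`). -/
noncomputable def wpMatrix (L : PeriodPair) {N : ℕ} (y : Fin N → ℂ) : Matrix (Fin N) (Fin N) ℂ :=
  Matrix.of fun i j => iteratedDeriv (j : ℕ) ℘[L] (y i)

/-- The new variables `u = (u_1,...,u_N)`: the solution of the linear system
`∑_j ℘^{(j-1)}(y_i) u_j = 1`, `i = 1,...,N`. -/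
noncomputable def uvar (L : PeriodPair) {N : ℕ} (y : Fin N → ℂ) : Fin N → ℂ :=
  (wpMatrix L y)⁻¹.mulVec (fun _ => 1)

/-- The Jacobian `D_N(y)` of `y ↦ u`. -/
noncomputable def jac (L : PeriodPair) {N : ℕ} (y : Fin N → ℂ) : ℂ :=
  Matrix.det (Matrix.of fun i j : Fin N => pd j (fun x => uvar L x i) y)

/-- The reduced elliptic Calogero-Moser operator `H_N`. -/
noncomputable def ham (L : PeriodPair) {N : ℕ} (β : ℂ) (ψ : (Fin N → ℂ) → ℂ) (y : Fin N → ℂ) : ℂ :=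
  -((N : ℂ) / (N + 1)) * ∑ i, pd i (pd i ψ) y
    + (1 / ((N : ℂ) + 1)) * ∑ i, ∑ j, (if i = j then 0 else pd i (pd j ψ) y)
    + β * (β - 1) * (∑ i : Fin (N + 1), ∑ j : Fin (N + 1),
        if i = j then 0 else ℘[L] (yhat y i - yhat y j)) * ψ y

/-- Near `y`, `G` is an analytic branch of `log D_N`; then `exp (β G)` is a local branch of
`D_N^β`. -/
def LogJac (L : PeriodPair) {N : ℕ} (G : (Fin N → ℂ) → ℂ) (y : Fin N → ℂ) : Prop :=
  AnalyticAt ℂ G y ∧ ∀ᶠ x in 𝓝 y, Complex.exp (G x) = jac L x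

/-- The gauge-transformed operator `D_N^{-β} ∘ H_N ∘ D_N^{β}` applied to `φ`, at the point `y`,
where `G` is the chosen branch of `log D_N` near `y`. -/
noncomputable def gauged (L : PeriodPair) {N : ℕ} (β : ℂ) (G φ : (Fin N → ℂ) → ℂ)
    (y : Fin N → ℂ) : ℂ :=
  Complex.exp (-β * G y) * ham L β (fun x => Complex.exp (β * G x) * φ x) y

/-- Generic points: no `y_i` (`1 ≤ i ≤ N+1`) and no difference `y_i - y_j` (`i ≠ j`) is a lattice
point, and the linear system defining `u` is nonsingular. -/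
def Generic (L : PeriodPair) {N : ℕ} (y : Fin N → ℂ) : Prop :=
  (∀ i, yhat y i ∉ L.lattice) ∧ (∀ i j, i ≠ j → yhat y i - yhat y j ∉ L.lattice) ∧
    (wpMatrix L y).det ≠ 0

/-- The operators `E_{ij}`, `0 ≤ i,j ≤ N`, acting on functions of `u`, where
`E_{00} = -∑_j u_j ∂_{u_j} + κ`. -/
noncomputable def Eop {N : ℕ} (κ : ℂ) (i j : Fin (N + 1)) (f : (Fin N → ℂ) → ℂ) :
    (Fin N → ℂ) → ℂ := fun u =>
  (Fin.cons 1 u : Fin (N + 1) → ℂ) i *
    (Fin.cons (-(∑ k, u k * pd k f u) + κ * f u) (fun k => pd k f u) : Fin (N + 1) → ℂ) j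

/-- The anti-commutator `{A,B} = AB + BA` of two operators on functions of `u`. -/
noncomputable def anti {N : ℕ} (A B : ((Fin N → ℂ) → ℂ) → ((Fin N → ℂ) → ℂ))
    (f : (Fin N → ℂ) → ℂ) : (Fin N → ℂ) → ℂ := fun u => A (B f) u + B (A f) u

end Pool.Agent.Lib.MP_0b1044_mp
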