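import Mathlib
import Pool.Agent.Lib.MP_0b1044_mp.Defs
import Pool.Agent.Lib.MP_0b1044_mp.Calc
import Pool.Agent.Lib.MP_0b1044_mp.Abel

/-!
Basic properties of the variables `u` and of `F(z) = 1 - ∑ u_j wp^{(j-1)}(z)`.
-/

namespace Pool.Agent.Lib.MP_0b1044_mp

open PeriodPair Filter Topology Polynomial

variable {L : PeriodPair} {N : ℕ}

/-- first regularity condition: the system is defined and nonsingular at `y`. -/
def Reg (L : PeriodPair) {N : ℕ} (y : Fin N → ℂ) : Prop :=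
  (∀ i, y i ∉ L.lattice) ∧ (wpMatrix L y).det ≠ 0

lemma wpMatrix_mul_uvar {y : Fin N → ℂ} (h : (wpMatrix L y).det ≠ 0) (i : Fin N) :
    ∑ j : Fin N, iteratedDeriv (j : ℕ) ℘[L] (y i) * uvar L y j = 1 := by
  have hu : IsUnit (wpMatrix L y).det := isUnit_iff_ne_zero.mpr h
  have h1 : (wpMatrix L y).mulVec (uvar L y) = fun _ => 1 := by
    rw [uvar, Matrix.mulVec_mulVec, Matrix.mul_nonsing_inv _ hu, Matrix.one_mulVec]
  have := congrFun h1 i
  simpa [Matrix.mulVec, dotProduct, wpMatrix] using this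

lemma analyticAt_iteratedDeriv_wp (k : ℕ) {z : ℂ} (hz : z ∉ L.lattice) :
    AnalyticAt ℂ (iteratedDeriv k ℘[L]) z := by
  have hP : AnalyticOnNhd ℂ ℘[L] (L.lattice : Set ℂ)ᶜ := L.analyticOnNhd_weierstrassP
  exact (hP.iterated_deriv k) z hz |>.congr (by
    rw [iteratedDeriv_eq_iterate])

lemma analyticAt_entry (k : ℕ) (i : Fin N) {y : Fin N → ℂ} (hy : y i ∉ L.lattice) :
    AnalyticAt ℂ (fun x : Fin N → ℂ => iteratedDeriv k ℘[L] (x i)) y := by
  have h1 : AnalyticAt ℂ (fun x : Fin N → ℂ => x i) y :=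
    (ContinuousLinearMap.proj (R := ℂ) (φ := fun _ : Fin N => ℂ) i).analyticAt y
  exact (analyticAt_iteratedDeriv_wp k hy).comp_of_eq h1 rfl

lemma analyticAt_det {m : ℕ} {A : (Fin N → ℂ) → Matrix (Fin m) (Fin m) ℂ} {y : Fin N → ℂ}
    (h : ∀ i j, AnalyticAt ℂ (fun x => A x i j) y) : AnalyticAt ℂ (fun x => (A x).det) y := by
  simp only [Matrix.det_apply']
  refine Finset.analyticAt_fun_sum _ fun σ _ => ?_
  refine analyticAt_const.mul ?_
  exact Finset.analyticAt_fun_prod _ fun i _ => h _ _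

lemma analyticAt_wpdet {y : Fin N → ℂ} (hy : ∀ i, y i ∉ L.lattice) :
    AnalyticAt ℂ (fun x => (wpMatrix L x).det) y :=
  analyticAt_det fun i j => analyticAt_entry j i (hy i)

lemma uvar_eq_cramer {y : Fin N → ℂ} (j : Fin N) :
    uvar L y j = ((wpMatrix L y).det)⁻¹ * ((wpMatrix L y).updateCol j (fun _ => 1)).det := by
  rw [uvar, Matrix.inv_def, Matrix.smul_mulVec, Pi.smul_apply, smul_eq_mul,
    Ring.inverse_eq_inv', ← Matrix.cramer_eq_adjugate_mulVec, Matrix.cramer_apply]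

lemma analyticAt_uvar {y : Fin N → ℂ} (hy : Reg L y) (j : Fin N) :
    AnalyticAt ℂ (fun x => uvar L x j) y := by
  simp only [uvar_eq_cramer]
  refine ((analyticAt_wpdet hy.1).inv hy.2).mul ?_
  apply analyticAt_det
  intro i k
  by_cases hk : k = j
  · subst hk; simp only [Matrix.updateCol_self]; exact analyticAt_const
  · simp only [Matrix.updateCol_ne hk]
    exact analyticAt_entry k i (hy.1 i)

lemma reg_eventually {y : Fin N → ℂ} (hy : Reg L y) : ∀ᶠ x in 𝓝 y, Reg L x := by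
  have h1 : ∀ᶠ x in 𝓝 y, ∀ i : Fin N, x i ∉ L.lattice := by
    rw [eventually_all]
    intro i
    have : ContinuousAt (fun x : Fin N → ℂ => x i) y := (continuous_apply i).continuousAt
    exact this.eventually ((isOpen_compl_lattice L).mem_nhds (hy.1 i))
  have h2 := (analyticAt_wpdet hy.1).continuousAt.eventually_ne hy.2
  filter_upwards [h1, h2] with x a b using ⟨a, b⟩

/-- `F` as a pair of polynomials. -/
noncomputable def Fp (L : PeriodPair) {N : ℕ} (y : Fin N → ℂ) : ℂ[X] × ℂ[X] :=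
  phi L.g₂ L.g₃ 0 + ∑ j : Fin N, (-uvar L y j) • phi L.g₂ L.g₃ (j + 1)

/-- `F(z;y) = 1 - ∑_j u_j wp^{(j-1)}(z)`. -/
noncomputable def Fz (L : PeriodPair) {N : ℕ} (z : ℂ) (y : Fin N → ℂ) : ℂ :=
  1 - ∑ j : Fin N, uvar L y j * iteratedDeriv (j : ℕ) ℘[L] z

lemma ev_Fp {y : Fin N → ℂ} {z : ℂ} (hz : z ∉ L.lattice) : ev L (Fp L y) z = Fz L z y := by
  rw [Fp, ev_add, ev_sum, ev_phi_zero, Fz, sub_eq_add_neg, ← Finset.sum_neg_distrib]
  congr 1
  refine Finset.sum_congr rfl fun j _ => ?_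
  rw [ev_smul, ev_phi_succ _ hz]
  ring

lemma combo_mem (c : Fin N → ℂ) :
    (∑ j : Fin N, c j • phi L.g₂ L.g₃ (j + 1)) ∈ Wsp (N + 1) := by
  refine sum_mem fun j _ => Submodule.smul_mem _ _ ?_
  exact Wsp_mono (by have := j.2; omega) (phi_mem L.g₂ L.g₃ (j + 1))

lemma Fp_mem (y : Fin N → ℂ) : Fp L y ∈ Wsp (N + 1) :=
  add_mem (Wsp_mono (by omega) (phi_mem L.g₂ L.g₃ 0)) (combo_mem _)

lemma ev_Fp_self {y : Fin N → ℂ} (hy : Reg L y) (i : Fin N) : ev L (Fp L y) (y i) = 0 := by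
  rw [ev_Fp (hy.1 i), Fz]
  have := wpMatrix_mul_uvar hy.2 i
  rw [← this, sub_eq_zero]
  refine Finset.sum_congr rfl fun j _ => by ring

/-- Uniqueness: an element of `W_{N+1}` vanishing at all `y_i` is a multiple of `F`. -/
lemma eq_smul_Fp {y : Fin N → ℂ} (hy : Reg L y) {T : ℂ[X] × ℂ[X]} (hT : T ∈ Wsp (N + 1))
    (h0 : ∀ i, ev L T (y i) = 0) : ∃ c : ℂ, T = c • Fp L y := by
  obtain ⟨c, hc⟩ := exists_coeffs L.g₂ L.g₃ (by omega) hT
  rw [Finset.sum_range_succ'] at hc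
  rw [Finset.sum_range (fun k => c (k + 1) • phi L.g₂ L.g₃ (k + 1))] at hc
  refine ⟨c 0, ?_⟩
  have hz : (wpMatrix L y).mulVec (fun j : Fin N => c (j + 1) + c 0 * uvar L y j) = 0 := by
    ext i
    have h1 := h0 i
    rw [hc, ev_add, ev_sum, ev_smul, ev_phi_zero] at h1
    simp only [ev_smul, ev_phi_succ _ (hy.1 i)] at h1
    have h2 := wpMatrix_mul_uvar hy.2 i
    simp only [Matrix.mulVec, dotProduct, wpMatrix, Matrix.of_apply, Pi.zero_apply, mul_add,
      Finset.sum_add_distrib]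
    have e1 : ∑ x : Fin N, iteratedDeriv (x : ℕ) ℘[L] (y i) * (c 0 * uvar L y x) = c 0 := by
      calc ∑ x : Fin N, iteratedDeriv (x : ℕ) ℘[L] (y i) * (c 0 * uvar L y x)
          = c 0 * ∑ x : Fin N, iteratedDeriv (x : ℕ) ℘[L] (y i) * uvar L y x := by
            rw [Finset.mul_sum]
            exact Finset.sum_congr rfl fun j _ => by ring
        _ = c 0 := by rw [h2, mul_one]
    have e2 : ∑ x : Fin N, iteratedDeriv (x : ℕ) ℘[L] (y i) * c (x + 1)
        = ∑ x : Fin N, c (x + 1) * iteratedDeriv (x : ℕ) ℘[L] (y i) :=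
      Finset.sum_congr rfl fun j _ => by ring
    rw [e1, e2]
    linear_combination h1
  have hz' := Matrix.eq_zero_of_mulVec_eq_zero hy.2 hz
  rw [hc, Fp, smul_add, add_comm, Finset.smul_sum]
  congr 1
  refine Finset.sum_congr rfl fun j _ => ?_
  have := congrFun hz' j
  simp only [Pi.zero_apply] at this
  rw [smul_smul]
  congr 1
  linear_combination this

end Pool.Agent.Lib.MP_0b1044_mp
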