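import Mathlib
import Pool.Agent.Lib.MP_0b1044_mp.UVar

/-!
Very generic points: an open dense set given by finitely many affine conditions.
-/

namespace Pool.Agent.Lib.MP_0b1044_mp

open PeriodPair Filter Topology Polynomial

variable {L : PeriodPair} {N : ℕ}

/-- integer vectors with entries in `{-2,...,2}` -/
noncomputable def coefs (N : ℕ) : Finset (Fin N → ℤ) := Fintype.piFinset fun _ => Finset.Icc (-2) 2

/-- very generic points relative to the finite set `C` of constants. -/
def Good (L : PeriodPair) (C : Finset ℂ) {N : ℕ} (y : Fin N → ℂ) : Prop :=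
  ∀ m ∈ coefs N, m ≠ 0 → ∀ c ∈ C, (∑ i, (m i : ℂ) * y i) + c ∉ L.lattice

lemma Good.apply {C : Finset ℂ} {y : Fin N → ℂ} (h : Good L C y) (m : Fin N → ℤ)
    (hm : ∀ i, -2 ≤ m i ∧ m i ≤ 2) (i₀ : Fin N) (hi₀ : m i₀ ≠ 0) {c : ℂ} (hc : c ∈ C) {w : ℂ}
    (hw : w = (∑ i, (m i : ℂ) * y i) + c) : w ∉ L.lattice := by
  rw [hw]
  refine h m ?_ (fun h0 => hi₀ (by rw [h0]; rfl)) c hc
  rw [coefs, Fintype.mem_piFinset]
  intro i
  rw [Finset.mem_Icc]
  exact hm i

lemma isOpen_good_aux (m : Fin N → ℤ) (c : ℂ) :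
    IsOpen {y : Fin N → ℂ | (∑ i, (m i : ℂ) * y i) + c ∉ L.lattice} := by
  have hc : Continuous fun y : Fin N → ℂ => (∑ i, (m i : ℂ) * y i) + c := by
    refine Continuous.add (continuous_finsetSum _ fun i _ => ?_) continuous_const
    exact continuous_const.mul (continuous_apply i)
  exact (isOpen_compl_lattice L).preimage hc

lemma dense_good_aux (m : Fin N → ℤ) (hm : m ≠ 0) (c : ℂ) :
    Dense {y : Fin N → ℂ | (∑ i, (m i : ℂ) * y i) + c ∉ L.lattice} := by
  obtain ⟨i₀, hi₀⟩ : ∃ i, m i ≠ 0 := by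
    by_contra hcon
    push Not at hcon
    exact hm (funext hcon)
  intro y
  rw [mem_closure_iff_nhds]
  intro s hs
  have hmc : (m i₀ : ℂ) ≠ 0 := by exact_mod_cast hi₀
  set g : ℂ → (Fin N → ℂ) := fun t => y + t • Pi.single i₀ 1 with hg
  have hgc : Continuous g := by
    refine continuous_const.add (continuous_id.smul continuous_const)
  have hg0 : g 0 = y := by simp [hg]
  have hval : ∀ t, (∑ i, (m i : ℂ) * g t i) + c = (m i₀ : ℂ) * t + ((∑ i, (m i : ℂ) * y i) + c) := by
    intro t
    simp only [hg, Pi.add_apply, Pi.smul_apply, smul_eq_mul, mul_add, Finset.sum_add_distrib]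
    have : ∑ x, (m x : ℂ) * (t * (Pi.single i₀ (1 : ℂ) : Fin N → ℂ) x) = m i₀ * t := by
      rw [Finset.sum_eq_single i₀]
      · simp
      · intro b _ hb; simp [Pi.single_eq_of_ne hb]
      · intro h; exact absurd (Finset.mem_univ _) h
    rw [this]; ring
  have hcount : {t : ℂ | (∑ i, (m i : ℂ) * g t i) + c ∈ L.lattice}.Countable := by
    have : {t : ℂ | (∑ i, (m i : ℂ) * g t i) + c ∈ L.lattice}
        = (fun t => (m i₀ : ℂ) * t + ((∑ i, (m i : ℂ) * y i) + c)) ⁻¹' (L.lattice : Set ℂ) := by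
      ext t; simp only [Set.mem_ofPred_eq, Set.mem_preimage, SetLike.mem_coe]; rw [hval]
    rw [this]
    refine (countable_lattice L).preimage ?_
    intro a b hab
    simpa [hmc] using hab
  have hd := hcount.dense_compl ℂ
  have hs' : g ⁻¹' s ∈ 𝓝 (0 : ℂ) := by
    apply hgc.continuousAt
    rw [hg0]; exact hs
  obtain ⟨t, ht1, ht2⟩ := mem_closure_iff_nhds.mp (hd 0) _ hs'
  exact ⟨g t, ht1, ht2⟩

lemma good_eq_iInter (C : Finset ℂ) : {y : Fin N → ℂ | Good L C y} =
    ⋂ (m : {m : Fin N → ℤ // m ∈ coefs N ∧ m ≠ 0}), ⋂ (c : C),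
      {y : Fin N → ℂ | (∑ i, (m.1 i : ℂ) * y i) + c ∉ L.lattice} := by
  ext y
  simp only [Good, Set.mem_ofPred_eq, Set.mem_iInter, Subtype.forall, and_imp]

lemma isOpen_good (C : Finset ℂ) : IsOpen {y : Fin N → ℂ | Good L C y} := by
  have : Finite {m : Fin N → ℤ // m ∈ coefs N ∧ m ≠ 0} :=
    Finite.of_injective (fun m => (⟨m.1, m.2.1⟩ : coefs N)) (by
      intro a b hab; exact Subtype.ext (by simpa using hab))
  rw [good_eq_iInter]
  exact isOpen_iInter_of_finite fun m => isOpen_iInter_of_finite fun c => isOpen_good_aux m.1 c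

lemma dense_good (C : Finset ℂ) : Dense {y : Fin N → ℂ | Good L C y} := by
  have : Finite {m : Fin N → ℤ // m ∈ coefs N ∧ m ≠ 0} :=
    Finite.of_injective (fun m => (⟨m.1, m.2.1⟩ : coefs N)) (by
      intro a b hab; exact Subtype.ext (by simpa using hab))
  rw [good_eq_iInter]
  refine dense_iInter_of_isOpen (fun m => isOpen_iInter_of_finite fun c => isOpen_good_aux m.1 c)
    fun m => ?_
  exact dense_iInter_of_isOpen (fun c => isOpen_good_aux m.1 c)
    fun c => dense_good_aux m.1 m.2.2 c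

/-- integer coefficients of `yhat y k`. -/
def mv {N : ℕ} (k : Fin (N + 1)) : Fin N → ℤ :=
  Fin.lastCases (motive := fun _ => Fin N → ℤ) (fun _ => -1) (fun i => Pi.single i 1) k

lemma mv_last : mv (Fin.last N) = fun _ => -1 := by simp [mv]

lemma mv_castSucc (i : Fin N) : mv (Fin.castSucc i) = Pi.single i 1 := by simp [mv]

@[simp] lemma yhat_last (y : Fin N → ℂ) : yhat y (Fin.last N) = -∑ i, y i := by simp [yhat]

@[simp] lemma yhat_castSucc (y : Fin N → ℂ) (i : Fin N) : yhat y (Fin.castSucc i) = y i := by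
  simp [yhat]

lemma yhat_eq (y : Fin N → ℂ) (k : Fin (N + 1)) : yhat y k = ∑ i, (mv k i : ℂ) * y i := by
  induction k using Fin.lastCases with
  | last => simp [mv_last]
  | cast i =>
    rw [mv_castSucc, yhat_castSucc, Finset.sum_eq_single i]
    · simp
    · intro b _ hb; simp [Pi.single_eq_of_ne hb]
    · intro h; exact absurd (Finset.mem_univ _) h

lemma mv_bound (k : Fin (N + 1)) (i : Fin N) : -1 ≤ mv k i ∧ mv k i ≤ 1 := by
  induction k using Fin.lastCases with
  | last => simp [mv_last]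
  | cast j =>
    rw [mv_castSucc]
    by_cases h : i = j
    · subst h; simp
    · simp [Pi.single_eq_of_ne h]

lemma mv_ne (k : Fin (N + 1)) (hN : 1 ≤ N) : ∃ i, mv k i ≠ 0 := by
  induction k using Fin.lastCases with
  | last => exact ⟨⟨0, hN⟩, by simp [mv_last]⟩
  | cast j => exact ⟨j, by simp [mv_castSucc]⟩

lemma mv_sub_ne {k l : Fin (N + 1)} (h : k ≠ l) : ∃ i, mv k i - mv l i ≠ 0 := by
  induction k using Fin.lastCases with
  | last =>
    induction l using Fin.lastCases with
    | last => exact absurd rfl h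
    | cast j => exact ⟨j, by simp [mv_last, mv_castSucc]⟩
  | cast i =>
    induction l using Fin.lastCases with
    | last => exact ⟨i, by simp [mv_last, mv_castSucc]⟩
    | cast j =>
      refine ⟨i, ?_⟩
      have hij : i ≠ j := fun hh => h (by rw [hh])
      simp [mv_castSucc, Pi.single_eq_of_ne hij]

lemma exists_ne_of_two_le (hN : 2 ≤ N) (i : Fin N) : ∃ j : Fin N, j ≠ i := by
  by_cases h : i = ⟨0, by omega⟩
  · exact ⟨⟨1, by omega⟩, by rw [h]; simp⟩
  · exact ⟨⟨0, by omega⟩, Ne.symm h⟩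

lemma mv_add_ne (hN : 2 ≤ N) {k l : Fin (N + 1)} (h : k ≠ l) : ∃ i, mv k i + mv l i ≠ 0 := by
  induction k using Fin.lastCases with
  | last =>
    induction l using Fin.lastCases with
    | last => exact absurd rfl h
    | cast j =>
      obtain ⟨i, hi⟩ := exists_ne_of_two_le hN j
      exact ⟨i, by simp [mv_last, mv_castSucc, Pi.single_eq_of_ne hi]⟩
  | cast i =>
    induction l using Fin.lastCases with
    | last =>
      obtain ⟨j, hj⟩ := exists_ne_of_two_le hN i
      exact ⟨j, by simp [mv_last, mv_castSucc, Pi.single_eq_of_ne hj]⟩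
    | cast j =>
      refine ⟨i, ?_⟩
      have hij : i ≠ j := fun hh => h (by rw [hh])
      simp [mv_castSucc, Pi.single_eq_of_ne hij]

section consequences

variable {C : Finset ℂ} {y : Fin N → ℂ}

lemma Good.yhat_notMem (h : Good L C y) (hC : (0 : ℂ) ∈ C) (hN : 1 ≤ N) (k : Fin (N + 1)) :
    yhat y k ∉ L.lattice := by
  obtain ⟨i₀, hi₀⟩ := mv_ne k hN
  refine h.apply (mv k) (fun i => ?_) i₀ hi₀ hC (by rw [yhat_eq, add_zero])
  have := mv_bound k i; omega

lemma Good.sub_notMem (h : Good L C y) (hC : (0 : ℂ) ∈ C) {k l : Fin (N + 1)} (hkl : k ≠ l) :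
    yhat y k - yhat y l ∉ L.lattice := by
  obtain ⟨i₀, hi₀⟩ := mv_sub_ne hkl
  refine h.apply (fun i => mv k i - mv l i) (fun i => ?_) i₀ hi₀ hC ?_
  · have := mv_bound k i; have := mv_bound l i; constructor <;> omega
  · rw [yhat_eq, yhat_eq, add_zero, ← Finset.sum_sub_distrib]
    refine Finset.sum_congr rfl fun i _ => by push_cast; ring

lemma Good.add_notMem (h : Good L C y) (hC : (0 : ℂ) ∈ C) (hN : 2 ≤ N) {k l : Fin (N + 1)}
    (hkl : k ≠ l) : yhat y k + yhat y l ∉ L.lattice := by
  obtain ⟨i₀, hi₀⟩ := mv_add_ne hN hkl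
  refine h.apply (fun i => mv k i + mv l i) (fun i => ?_) i₀ hi₀ hC ?_
  · have := mv_bound k i; have := mv_bound l i; constructor <;> omega
  · rw [yhat_eq, yhat_eq, add_zero, ← Finset.sum_add_distrib]
    refine Finset.sum_congr rfl fun i _ => by push_cast; ring

lemma Good.two_mul_notMem (h : Good L C y) (hC : (0 : ℂ) ∈ C) (i : Fin N) :
    2 * y i ∉ L.lattice := by
  refine h.apply (Pi.single i 2) (fun j => ?_) i (by simp) hC ?_
  · by_cases hj : j = i
    · subst hj; simp
    · simp [Pi.single_eq_of_ne hj]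
  · rw [add_zero, Finset.sum_eq_single i]
    · simp
    · intro b _ hb; simp [Pi.single_eq_of_ne hb]
    · intro h; exact absurd (Finset.mem_univ _) h

lemma Good.z_add_notMem (h : Good L C y) (hN : 1 ≤ N) {z : ℂ} (hz : z ∈ C) (k : Fin (N + 1)) :
    z + yhat y k ∉ L.lattice := by
  obtain ⟨i₀, hi₀⟩ := mv_ne k hN
  refine h.apply (mv k) (fun i => ?_) i₀ hi₀ hz (by rw [yhat_eq, add_comm])
  have := mv_bound k i; omega

lemma Good.z_sub_notMem (h : Good L C y) (hN : 1 ≤ N) {z : ℂ} (hz : z ∈ C) (k : Fin (N + 1)) :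
    z - yhat y k ∉ L.lattice := by
  obtain ⟨i₀, hi₀⟩ := mv_ne k hN
  refine h.apply (fun i => - mv k i) (fun i => ?_) i₀ (by simpa using hi₀) hz ?_
  · have := mv_bound k i; constructor <;> omega
  · rw [yhat_eq]
    have : ∑ i, ((-mv k i : ℤ) : ℂ) * y i = -∑ i, (mv k i : ℂ) * y i := by
      rw [← Finset.sum_neg_distrib]
      exact Finset.sum_congr rfl fun i _ => by push_cast; ring
    rw [this]; ring

/-- extension of `y` to a sequence. -/
noncomputable def yseq (y : Fin N → ℂ) (i : ℕ) : ℂ := if h : i < N then y ⟨i, h⟩ else 0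

lemma yseq_eq (y : Fin N → ℂ) {k : ℕ} (hk : k < N) :
    yseq y k = ∑ i : Fin N, (((if (i : ℕ) = k then 1 else 0 : ℤ)) : ℂ) * y i := by
  rw [yseq, dif_pos hk, Finset.sum_eq_single ⟨k, hk⟩]
  · simp
  · intro b _ hb
    have : (b : ℕ) ≠ k := fun h => hb (Fin.ext h)
    simp [this]
  · intro h; exact absurd (Finset.mem_univ _) h

lemma sum_yseq (y : Fin N → ℂ) {k : ℕ} (hk : k ≤ N) :
    ∑ i ∈ Finset.range k, yseq y i
      = ∑ i : Fin N, (((if (i : ℕ) < k then 1 else 0 : ℤ)) : ℂ) * y i := by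
  have h1 : ∑ i ∈ Finset.range k, yseq y i
      = ∑ i ∈ Finset.range N, if i < k then yseq y i else 0 := by
    rw [← Finset.sum_filter]
    congr 1
    ext i
    simp only [Finset.mem_range, Finset.mem_filter]
    omega
  rw [h1, Finset.sum_range]
  refine Finset.sum_congr rfl fun i _ => ?_
  by_cases h : (i : ℕ) < k
  · simp [h, yseq]
  · simp [h]

/-- Abel's theorem at very generic points: `F` vanishes at the last point too, and has a nonzero
leading coefficient. -/
lemma Good.abel (h : Good L C y) (hC : (0 : ℂ) ∈ C) (hN : 1 ≤ N) (hdet : (wpMatrix L y).det ≠ 0) :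
    (∀ k, ev L (Fp L y) (yhat y k) = 0) ∧ lc (N + 1) (Fp L y) ≠ 0 := by
  have hyi : ∀ i : Fin N, y i ∉ L.lattice := fun i => by
    have := h.yhat_notMem hC hN (Fin.castSucc i)
    rwa [yhat_castSucc] at this
  have hreg : Reg L y := ⟨hyi, hdet⟩
  obtain ⟨v, hv, hlc, hvy, hvs⟩ := exists_F (L := L) (yseq y) N hN
    (fun i hi => by rw [yseq, dif_pos hi]; exact hyi _)
    (fun k hk hkN => by
      refine h.apply (fun i => if (i : ℕ) < k then 1 else 0) (fun i => by split_ifs <;> omega)
        ⟨0, by omega⟩ (by simp; omega) hC ?_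
      rw [add_zero, sum_yseq y hkN])
    (fun k hk hkN => by
      refine h.apply (fun i => (if (i : ℕ) = k then 1 else 0) - (if (i : ℕ) < k then 1 else 0))
        (fun i => by split_ifs <;> omega) ⟨k, hkN⟩ (by simp) hC ?_
      rw [add_zero, sum_yseq y hkN.le, yseq_eq y hkN, ← Finset.sum_sub_distrib]
      refine Finset.sum_congr rfl fun i _ => by push_cast; ring)
    (fun k hk hkN => by
      refine h.apply (fun i => (if (i : ℕ) = k then 1 else 0) + 2 * (if (i : ℕ) < k then 1 else 0))
        (fun i => by split_ifs <;> omega) ⟨k, hkN⟩ (by simp) hC ?_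
      rw [add_zero, sum_yseq y hkN.le, yseq_eq y hkN, Finset.mul_sum, ← Finset.sum_add_distrib]
      refine Finset.sum_congr rfl fun i _ => by push_cast; ring)
    (fun k hk hkN i hi => by
      constructor
      · refine h.apply (fun j => (if (j : ℕ) = i then 1 else 0) + (if (j : ℕ) < k then 1 else 0))
          (fun i => by split_ifs <;> omega) ⟨i, by omega⟩ (by simp [hi]) hC ?_
        rw [add_zero, sum_yseq y hkN.le, yseq_eq y (by omega), ← Finset.sum_add_distrib]
        refine Finset.sum_congr rfl fun i _ => by push_cast; ring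
      · obtain ⟨j, hj, hji⟩ : ∃ j < k, j ≠ i := by
          by_cases h0 : i = 0
          · exact ⟨1, by omega, by omega⟩
          · exact ⟨0, by omega, by omega⟩
        refine h.apply (fun j => (if (j : ℕ) = i then 1 else 0) - (if (j : ℕ) < k then 1 else 0))
          (fun i => by split_ifs <;> omega) ⟨j, by omega⟩ (by simp [hj, hji]) hC ?_
        rw [add_zero, sum_yseq y hkN.le, yseq_eq y (by omega), ← Finset.sum_sub_distrib]
        refine Finset.sum_congr rfl fun i _ => by push_cast; ring)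
  have hvy' : ∀ i : Fin N, ev L v (y i) = 0 := by
    intro i
    have := hvy i i.2
    rwa [yseq, dif_pos i.2] at this
  obtain ⟨c, hc⟩ := eq_smul_Fp hreg hv hvy'
  have hc0 : c ≠ 0 := by
    intro h0
    rw [h0, zero_smul] at hc
    rw [hc, lc_zero] at hlc
    exact hlc rfl
  constructor
  · intro k
    induction k using Fin.lastCases with
    | last =>
      have hsum : ∑ i ∈ Finset.range N, yseq y i = ∑ i, y i := by
        rw [sum_yseq y le_rfl]
        exact Finset.sum_congr rfl fun i _ => by simp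
      rw [hc, ev_smul, hsum, ← yhat_last] at hvs
      exact (mul_eq_zero.mp hvs).resolve_left hc0
    | cast i =>
      rw [yhat_castSucc]; exact ev_Fp_self hreg i
  · rw [hc, lc_smul] at hlc
    exact right_ne_zero_of_mul hlc

end consequences

end Pool.Agent.Lib.MP_0b1044_mp
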