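import Mathlib
import Pool.Agent.Lib.MP_0b1044_mp.Good

/-!
First derivatives of `F(z;y)` in `z` and in `y`.
-/

namespace Pool.Agent.Lib.MP_0b1044_mp

open PeriodPair Filter Topology Polynomial

variable {L : PeriodPair} {N : ℕ}

lemma Dp_add (g2 g3 : ℂ) (v w : ℂ[X] × ℂ[X]) : Dp g2 g3 (v + w) = Dp g2 g3 v + Dp g2 g3 w := by
  ext1
  · simp only [Dp, Prod.fst_add, Prod.snd_add, derivative_add]; ring
  · simp only [Dp, Prod.fst_add, Prod.snd_add, derivative_add]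

lemma Dp_smul (g2 g3 c : ℂ) (v : ℂ[X] × ℂ[X]) : Dp g2 g3 (c • v) = c • Dp g2 g3 v := by
  ext1
  · simp only [Dp, Prod.smul_fst, Prod.smul_snd, smul_eq_C_mul, derivative_C_mul]; ring
  · simp only [Dp, Prod.smul_fst, Prod.smul_snd, derivative_smul]

lemma Dp_zero (g2 g3 : ℂ) : Dp g2 g3 0 = 0 := by simp [Dp]

lemma Dp_sum {ι : Type*} (s : Finset ι) (g2 g3 : ℂ) (f : ι → ℂ[X] × ℂ[X]) :
    Dp g2 g3 (∑ i ∈ s, f i) = ∑ i ∈ s, Dp g2 g3 (f i) := by
  classical
  induction s using Finset.induction_on with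
  | empty => simp [Dp_zero]
  | insert a s ha ih => rw [Finset.sum_insert ha, Finset.sum_insert ha, Dp_add, ih]

lemma Dp_phi_zero (g2 g3 : ℂ) : Dp g2 g3 (phi g2 g3 0) = 0 := by simp [Dp]

lemma Dp_phi_succ (g2 g3 : ℂ) (j : ℕ) : Dp g2 g3 (phi g2 g3 (j + 1)) = phi g2 g3 (j + 2) :=
  (phi_succ_succ g2 g3 j).symm

lemma Dp_mem (g2 g3 : ℂ) {n : ℕ} (hn : 1 ≤ n) {v : ℂ[X] × ℂ[X]} (hv : v ∈ Wsp n) :
    Dp g2 g3 v ∈ Wsp (n + 1) := by
  obtain ⟨c, hc⟩ := exists_coeffs g2 g3 hn hv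
  rw [hc, Dp_sum]
  refine sum_mem fun j hj => ?_
  rw [Dp_smul]
  refine Submodule.smul_mem _ _ ?_
  have hjn := Finset.mem_range.mp hj
  rcases Nat.eq_zero_or_pos j with h0 | h0
  · subst h0; rw [Dp_phi_zero]; exact zero_mem _
  · obtain ⟨k, rfl⟩ : ∃ k, j = k + 1 := ⟨j - 1, by omega⟩
    rw [Dp_phi_succ]
    exact Wsp_mono (by omega) (phi_mem g2 g3 (k + 2))

lemma lc_Dp (g2 g3 : ℂ) {n : ℕ} (hn : 1 ≤ n) {v : ℂ[X] × ℂ[X]} (hv : v ∈ Wsp n) :
    lc (n + 1) (Dp g2 g3 v) = -(n : ℂ) * lc n v := by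
  rw [mem_Wsp] at hv
  have hv1 := hv.1
  have hv2 := hv.2
  rw [degree_lt_iff_coeff_zero] at hv1 hv2
  obtain ⟨r, hr | hr⟩ := Nat.even_or_odd' n
  · have hne : ¬ Even (n + 1) := by rw [Nat.not_even_iff_odd]; exact ⟨r, by omega⟩
    rw [lc, if_neg hne, lc, if_pos ⟨r, by omega⟩]
    simp only [Dp]
    rw [coeff_derivative, show (n + 1 - 1) / 2 - 1 + 1 = r by omega, show n / 2 = r by omega]
    have : (((n + 1 - 1) / 2 - 1 : ℕ) : ℂ) + 1 = r := by
      have : (n + 1 - 1) / 2 - 1 + 1 = r := by omega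
      exact_mod_cast congrArg (Nat.cast (R := ℂ)) this
    rw [this, hr]
    push_cast
    ring
  · have hne : ¬ Even n := by rw [Nat.not_even_iff_odd]; exact ⟨r, by omega⟩
    rw [lc, if_pos ⟨r + 1, by omega⟩, lc, if_neg hne]
    simp only [Dp]
    rw [show (n + 1) / 2 = r + 1 by omega, show (n - 1) / 2 - 1 = r - 1 by omega]
    have e : derivative v.2 * (4 * X ^ 3 - C g2 * X - C g3) + v.2 * (6 * X ^ 2 - C (g2 / 2))
        = 4 * (derivative v.2 * X ^ 3) - C g2 * (derivative v.2 * X) - C g3 * derivative v.2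
          + (6 * (v.2 * X ^ 2) - C (g2 / 2) * v.2) := by ring
    rw [e]
    have z0 : v.2.coeff r = 0 := hv2 r (by omega)
    have z1 : v.2.coeff (r + 1) = 0 := hv2 _ (by omega)
    have z2 : v.2.coeff (r + 1 + 1) = 0 := hv2 _ (by omega)
    simp only [coeff_add, coeff_sub, coeff_C_mul, coeff_ofNat_mul, coeff_mul_X]
    rw [coeff_mul_X_pow', coeff_mul_X_pow', coeff_derivative, coeff_derivative,
      coeff_derivative, z1, z2]
    rcases Nat.eq_zero_or_pos r with h0 | h0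
    · subst h0
      rw [if_neg (by omega), if_neg (by omega)]
      simp only [zero_add] at z1
      rw [show (0 : ℕ) - 1 = 0 from rfl, z0]; ring
    · rw [if_pos (by omega : 2 ≤ r + 1), show r + 1 - 2 = r - 1 by omega]
      rcases Nat.lt_or_ge r 2 with h1 | h1
      · have hr1 : r = 1 := by omega
        subst hr1
        rw [if_neg (by omega), hr]
        push_cast
        ring
      · rw [if_pos (by omega), show r + 1 - 3 + 1 = r - 1 by omega]
        have : ((r + 1 - 3 : ℕ) : ℂ) + 1 = r - 1 := by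
          obtain ⟨t, rfl⟩ : ∃ t, r = t + 2 := ⟨r - 2, by omega⟩
          rw [show t + 2 + 1 - 3 = t by omega]
          push_cast
          ring
        rw [this, hr]
        push_cast
        ring

/-- the elements of `W_{n}` have vanishing `(n+1)`-st leading coefficient. -/
lemma lc_of_mem {n : ℕ} {v : ℂ[X] × ℂ[X]} (hv : v ∈ Wsp n) (hn : 1 ≤ n) : lc (n + 1) v = 0 := by
  rw [mem_Wsp] at hv
  have hv1 := hv.1
  have hv2 := hv.2
  rw [degree_lt_iff_coeff_zero] at hv1 hv2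
  rw [lc]
  split_ifs with he
  · obtain ⟨t, ht⟩ := he
    exact hv1 _ (by omega)
  · rw [Nat.not_even_iff_odd] at he
    obtain ⟨t, ht⟩ := he
    rw [hv2 _ (by omega), mul_zero]

lemma ev_Dp_Fp {y : Fin N → ℂ} {z : ℂ} (hz : z ∉ L.lattice) :
    ev L (Dp L.g₂ L.g₃ (Fp L y)) z
      = -∑ j : Fin N, uvar L y j * iteratedDeriv ((j : ℕ) + 1) ℘[L] z := by
  rw [Fp, Dp_add, Dp_phi_zero, zero_add, Dp_sum, ev_sum, ← Finset.sum_neg_distrib]
  refine Finset.sum_congr rfl fun j _ => ?_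
  rw [Dp_smul, Dp_phi_succ, ev_smul, ev_phi_succ _ hz]
  ring

lemma dd_entry (k : ℕ) (i : Fin N) {y v : Fin N → ℂ} (hy : y i ∉ L.lattice) :
    dd v (fun x : Fin N → ℂ => iteratedDeriv k ℘[L] (x i)) y
      = iteratedDeriv (k + 1) ℘[L] (y i) * v i := by
  apply dd_eq_of_hasDerivAt
  have h1 : HasDerivAt (iteratedDeriv k ℘[L]) (iteratedDeriv (k + 1) ℘[L] (y i)) (y i) := by
    rw [iteratedDeriv_succ]
    exact (analyticAt_iteratedDeriv_wp k hy).differentiableAt.hasDerivAt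
  have h2 : HasDerivAt (fun t : ℂ => (y + t • v) i) (v i) 0 := by
    simp only [Pi.add_apply, Pi.smul_apply, smul_eq_mul]
    simpa using ((hasDerivAt_id (0 : ℂ)).mul_const (v i)).const_add (y i)
  have h1' : HasDerivAt (iteratedDeriv k ℘[L]) (iteratedDeriv (k + 1) ℘[L] (y i))
      ((fun t : ℂ => (y + t • v) i) 0) := by simpa using h1
  exact h1'.comp (0 : ℂ) h2

lemma deriv_system {y : Fin N → ℂ} (hy : Reg L y) (v : Fin N → ℂ) (i : Fin N) :
    ∑ j : Fin N, dd v (fun x => uvar L x j) y * iteratedDeriv (j : ℕ) ℘[L] (y i)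
      = v i * ev L (Dp L.g₂ L.g₃ (Fp L y)) (y i) := by
  have h0 : dd v (fun x => ∑ j : Fin N, iteratedDeriv (j : ℕ) ℘[L] (x i) * uvar L x j) y = 0 := by
    have : (fun x => ∑ j : Fin N, iteratedDeriv (j : ℕ) ℘[L] (x i) * uvar L x j)
        =ᶠ[𝓝 y] fun _ => 1 := by
      filter_upwards [reg_eventually hy] with x hx
      exact wpMatrix_mul_uvar hx.2 i
    rw [dd_congr this, dd_const]
  rw [dd_sum] at h0
  · have h1 : ∀ j : Fin N, dd v (fun x => iteratedDeriv (j : ℕ) ℘[L] (x i) * uvar L x j) y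
        = iteratedDeriv ((j : ℕ) + 1) ℘[L] (y i) * v i * uvar L y j
          + iteratedDeriv (j : ℕ) ℘[L] (y i) * dd v (fun x => uvar L x j) y := by
      intro j
      rw [dd_mul (analyticAt_entry j i (hy.1 i)).differentiableAt
        (analyticAt_uvar hy j).differentiableAt, dd_entry j i (hy.1 i)]
    simp only [h1, Finset.sum_add_distrib] at h0
    rw [ev_Dp_Fp (hy.1 i), mul_neg, Finset.mul_sum, ← Finset.sum_neg_distrib]
    have e1 : ∑ j : Fin N, iteratedDeriv ((j : ℕ) + 1) ℘[L] (y i) * v i * uvar L y j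
        = -∑ j : Fin N, -(v i * (uvar L y j * iteratedDeriv ((j : ℕ) + 1) ℘[L] (y i))) := by
      rw [Finset.sum_neg_distrib, neg_neg]
      exact Finset.sum_congr rfl fun j _ => by ring
    have e2 : ∑ j : Fin N, iteratedDeriv (j : ℕ) ℘[L] (y i) * dd v (fun x => uvar L x j) y
        = ∑ j : Fin N, dd v (fun x => uvar L x j) y * iteratedDeriv (j : ℕ) ℘[L] (y i) :=
      Finset.sum_congr rfl fun j _ => by ring
    rw [e1, e2] at h0
    linear_combination h0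
  · intro j _
    exact ((analyticAt_entry j i (hy.1 i)).mul (analyticAt_uvar hy j)).differentiableAt

/-- very generic and regular. -/
def GR (L : PeriodPair) (C : Finset ℂ) {N : ℕ} (y : Fin N → ℂ) : Prop :=
  Good L C y ∧ (wpMatrix L y).det ≠ 0

section

variable {C : Finset ℂ} {y : Fin N → ℂ}

lemma GR.reg (h : GR L C y) (hC : (0 : ℂ) ∈ C) (hN : 1 ≤ N) : Reg L y := by
  refine ⟨fun i => ?_, h.2⟩
  have := h.1.yhat_notMem hC hN (Fin.castSucc i)
  rwa [yhat_castSucc] at this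

lemma GR.eventually (h : GR L C y) (hC : (0 : ℂ) ∈ C) (hN : 1 ≤ N) : ∀ᶠ x in 𝓝 y, GR L C x := by
  filter_upwards [(isOpen_good C).mem_nhds h.1, reg_eventually (h.reg hC hN)] with x a b
  exact ⟨a, b.2⟩

/-- `z` is compatible with `y`. -/
def Compat (L : PeriodPair) {N : ℕ} (y : Fin N → ℂ) (z : ℂ) : Prop :=
  z ∉ L.lattice ∧ ∀ k, ℘[L] z ≠ ℘[L] (yhat y k)

lemma GR.compat (h : GR L C y) (hC : (0 : ℂ) ∈ C) (hN : 1 ≤ N) {z : ℂ} (hz : z ∈ C)
    (hz' : z ∉ L.lattice) : Compat L y z :=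
  ⟨hz', fun k => wp_ne hz' (h.1.yhat_notMem hC hN k) (h.1.z_sub_notMem hN hz k)
    (h.1.z_add_notMem hN hz k)⟩

lemma GR.wp_ne (h : GR L C y) (hC : (0 : ℂ) ∈ C) (hN : 2 ≤ N) {k l : Fin (N + 1)} (hkl : k ≠ l) :
    ℘[L] (yhat y k) ≠ ℘[L] (yhat y l) :=
  Pool.Agent.Lib.MP_0b1044_mp.wp_ne (h.1.yhat_notMem hC (by omega) k)
    (h.1.yhat_notMem hC (by omega) l) (h.1.sub_notMem hC hkl) (h.1.add_notMem hC hN hkl)

/-- the products `F R(.,yhat k)`. -/
lemma GR.exists_w (h : GR L C y) (hC : (0 : ℂ) ∈ C) (hN : 2 ≤ N) :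
    ∃ w : Fin (N + 1) → ℂ[X] × ℂ[X], (∀ k, w k ∈ Wsp (N + 2)) ∧
      (∀ k, lc (N + 2) (w k) = -lc (N + 1) (Fp L y)) ∧
      (∀ k z, z ∉ L.lattice → ℘[L] z ≠ ℘[L] (yhat y k) →
        ev L (w k) z = ev L (Fp L y) z * R L z (yhat y k)) ∧
      (∀ (k : Fin (N + 1)) (i : Fin N), ev L (w k) (y i)
        = if k = Fin.castSucc i then ev L (Dp L.g₂ L.g₃ (Fp L y)) (y i) else 0) := by
  have hab := h.1.abel hC (by omega) h.2
  have hreg := h.reg hC (by omega)
  have hex : ∀ k : Fin (N + 1), ∃ w ∈ Wsp (N + 1 + 1), lc (N + 1 + 1) w = - lc (N + 1) (Fp L y) ∧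
      (∀ z, z ∉ L.lattice → ℘[L] z ≠ ℘[L] (yhat y k) →
        ev L w z = ev L (Fp L y) z * R L z (yhat y k)) ∧
      ev L w (yhat y k) = ev L (Dp L.g₂ L.g₃ (Fp L y)) (yhat y k) := fun k =>
    exists_mul_R (by omega) (Fp_mem y) (h.1.yhat_notMem hC (by omega) k) (hab.1 k)
  choose w hw1 hw2 hw3 hw4 using hex
  refine ⟨w, hw1, hw2, hw3, fun k i => ?_⟩
  split_ifs with hki
  · have := hw4 k
    rw [hki, yhat_castSucc] at this
    rw [hki]
    exact this
  · have hne := h.wp_ne hC hN (Ne.symm hki)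
    rw [yhat_castSucc] at hne
    rw [hw3 k (y i) (hreg.1 i) hne, ev_Fp_self hreg i, zero_mul]

/-- the `z`-derivative of `F`. -/
lemma GR.deriv_z (h : GR L C y) (hC : (0 : ℂ) ∈ C) (hN : 2 ≤ N) :
    ∃ c₀ : ℂ, ∀ z, Compat L y z → ev L (Dp L.g₂ L.g₃ (Fp L y)) z
      = Fz L z y * ((∑ k, R L z (yhat y k)) + c₀) := by
  obtain ⟨w, hw1, hw2, hw3, hw4⟩ := h.exists_w hC hN
  have hreg := h.reg hC (by omega)
  set T : ℂ[X] × ℂ[X] := Dp L.g₂ L.g₃ (Fp L y) + (-1 : ℂ) • ∑ k, w k with hT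
  have hT1 : T ∈ Wsp (N + 1 + 1) :=
    add_mem (Dp_mem _ _ (by omega) (Fp_mem y)) (Submodule.smul_mem _ _ (sum_mem fun k _ => hw1 k))
  have hT2 : lc (N + 1 + 1) T = 0 := by
    rw [hT, lc_add, lc_smul, lc_sum, lc_Dp _ _ (by omega) (Fp_mem y)]
    have : ∑ i, lc (N + 1 + 1) (w i) = -((N : ℂ) + 1) * lc (N + 1) (Fp L y) := by
      rw [Finset.sum_congr rfl (fun i _ => hw2 i)]
      simp
      ring
    rw [this]; push_cast; ring
  have hT3 := mem_Wsp_of_lc (by omega) hT1 hT2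
  obtain ⟨c, hc⟩ := eq_smul_Fp hreg hT3 (by
    intro i
    rw [hT, ev_add, ev_smul, ev_sum]
    simp only [hw4]
    rw [Finset.sum_ite_eq' Finset.univ (Fin.castSucc i)]
    simp)
  refine ⟨c, fun z hz => ?_⟩
  have h1 : ev L T z = c * ev L (Fp L y) z := by rw [hc, ev_smul]
  rw [hT, ev_add, ev_smul, ev_sum, Finset.sum_congr rfl (fun k _ => hw3 k z hz.1 (hz.2 k)),
    ← Finset.mul_sum, ev_Fp hz.1] at h1
  linear_combination h1

/-- the directional `y`-derivative of `F`. -/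
lemma GR.deriv_y (h : GR L C y) (hC : (0 : ℂ) ∈ C) (hN : 2 ≤ N) (v : Fin N → ℂ) :
    ∃ ε : ℂ, ∀ z, Compat L y z → dd v (Fz L z) y
      = Fz L z y * (ε - ∑ k, yhat v k * R L z (yhat y k)) := by
  obtain ⟨w, hw1, hw2, hw3, hw4⟩ := h.exists_w hC hN
  have hreg := h.reg hC (by omega)
  set T : ℂ[X] × ℂ[X] := (∑ k, yhat v k • w k)
    + ∑ j : Fin N, (-dd v (fun x => uvar L x j) y) • phi L.g₂ L.g₃ (j + 1) with hT
  have hT1 : T ∈ Wsp (N + 1 + 1) :=
    add_mem (sum_mem fun k _ => Submodule.smul_mem _ _ (hw1 k))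
      (Wsp_mono (by omega) (combo_mem _))
  have hvsum : ∑ k, yhat v k = 0 := by
    rw [Fin.sum_univ_castSucc]; simp
  have hT2 : lc (N + 1 + 1) T = 0 := by
    rw [hT, lc_add, lc_sum, lc_of_mem (combo_mem _) (by omega), add_zero]
    simp only [lc_smul, hw2]
    rw [← Finset.sum_mul, hvsum, zero_mul]
  have hT3 := mem_Wsp_of_lc (by omega) hT1 hT2
  obtain ⟨c, hc⟩ := eq_smul_Fp hreg hT3 (by
    intro i
    rw [hT, ev_add, ev_sum, ev_sum]
    simp only [ev_smul, hw4, mul_ite, mul_zero]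
    rw [Finset.sum_ite_eq' Finset.univ (Fin.castSucc i)]
    simp only [Finset.mem_univ, if_true, yhat_castSucc, ev_phi_succ _ (hreg.1 i)]
    have := deriv_system hreg v i
    rw [← this, ← Finset.sum_add_distrib]
    refine Finset.sum_eq_zero fun j _ => by ring)
  refine ⟨c, fun z hz => ?_⟩
  have h1 : ev L T z = c * ev L (Fp L y) z := by rw [hc, ev_smul]
  have h2 : dd v (Fz L z) y
      = ∑ j : Fin N, -dd v (fun x => uvar L x j) y * iteratedDeriv (j : ℕ) ℘[L] z := by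
    have hd : ∀ j : Fin N, DifferentiableAt ℂ (fun x => uvar L x j * iteratedDeriv (j : ℕ) ℘[L] z) y :=
      fun j => (analyticAt_uvar hreg j).differentiableAt.mul (differentiableAt_const _)
    have e : Fz L z = fun x : Fin N → ℂ => (1 : ℂ) - ∑ j : Fin N,
        uvar L x j * iteratedDeriv (j : ℕ) ℘[L] z := rfl
    rw [e, dd_sub (differentiableAt_const _) (DifferentiableAt.fun_sum fun j _ => hd j), dd_const,
      dd_sum _ (fun j _ => hd j), zero_sub, ← Finset.sum_neg_distrib]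
    refine Finset.sum_congr rfl fun j _ => ?_
    rw [dd_mul (analyticAt_uvar hreg j).differentiableAt (differentiableAt_const _), dd_const]
    ring
  rw [hT, ev_add, ev_sum, ev_sum] at h1
  simp only [ev_smul, ev_phi_succ _ hz.1] at h1
  rw [Finset.sum_congr rfl (fun k _ => by rw [hw3 k z hz.1 (hz.2 k)]), ← h2, ev_Fp hz.1] at h1
  have e3 : ∑ x, yhat v x * (Fz L z y * R L z (yhat y x))
      = Fz L z y * ∑ k, yhat v k * R L z (yhat y k) := by
    rw [Finset.mul_sum]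
    exact Finset.sum_congr rfl fun k _ => by ring
  rw [e3] at h1
  linear_combination h1

end

end Pool.Agent.Lib.MP_0b1044_mp
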