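import Mathlib
import Pool.Agent.Lib.MP_0b1044_mp.Deriv

/-!
The function `eps v y`, its analyticity, and derivatives of `R(z,yhat_k)`, `R(yhat_k,yhat_l)`.
-/

namespace Pool.Agent.Lib.MP_0b1044_mp

open PeriodPair Filter Topology Polynomial

variable {L : PeriodPair} {N : ℕ}

lemma yhat_add_smul (y v : Fin N → ℂ) (t : ℂ) (k : Fin (N + 1)) :
    yhat (y + t • v) k = yhat y k + t * yhat v k := by
  induction k using Fin.lastCases with
  | last =>
    simp only [yhat_last, Pi.add_apply, Pi.smul_apply, smul_eq_mul, Finset.sum_add_distrib,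
      ← Finset.mul_sum]
    ring
  | cast i => simp

lemma yhat_sum (c : Fin N → ℂ) (k : Fin (N + 1)) :
    yhat c k = ∑ i, c i * yhat (Pi.single i 1 : Fin N → ℂ) k := by
  induction k using Fin.lastCases with
  | last => simp
  | cast j =>
    simp only [yhat_castSucc]
    rw [Finset.sum_eq_single j]
    · simp
    · intro b _ hb; simp [Pi.single_eq_of_ne (Ne.symm hb)]
    · intro h; exact absurd (Finset.mem_univ _) h

lemma sum_yhat (v : Fin N → ℂ) : ∑ k, yhat v k = 0 := by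
  rw [Fin.sum_univ_castSucc]; simp

lemma analyticAt_yhat (k : Fin (N + 1)) (y : Fin N → ℂ) :
    AnalyticAt ℂ (fun x : Fin N → ℂ => yhat x k) y := by
  have : (fun x : Fin N → ℂ => yhat x k) = fun x => ∑ i, (mv k i : ℂ) * x i := by
    ext x; exact yhat_eq x k
  rw [this]
  refine Finset.analyticAt_fun_sum _ fun i _ => analyticAt_const.mul ?_
  exact (ContinuousLinearMap.proj (R := ℂ) (φ := fun _ : Fin N => ℂ) i).analyticAt y

lemma analyticAt_wp {z : ℂ} (hz : z ∉ L.lattice) : AnalyticAt ℂ ℘[L] z :=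
  L.analyticOnNhd_weierstrassP z hz

lemma analyticAt_wp' {z : ℂ} (hz : z ∉ L.lattice) : AnalyticAt ℂ ℘'[L] z :=
  L.analyticOnNhd_derivWeierstrassP z hz

lemma analyticAt_R {f g : (Fin N → ℂ) → ℂ} {y : Fin N → ℂ} (hf : AnalyticAt ℂ f y)
    (hg : AnalyticAt ℂ g y) (hf' : f y ∉ L.lattice) (hg' : g y ∉ L.lattice)
    (hne : ℘[L] (f y) ≠ ℘[L] (g y)) : AnalyticAt ℂ (fun x => R L (f x) (g x)) y := by
  have a1 : AnalyticAt ℂ (fun x => ℘[L] (f x)) y := (analyticAt_wp hf').comp_of_eq hf rfl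
  have a2 : AnalyticAt ℂ (fun x => ℘[L] (g x)) y := (analyticAt_wp hg').comp_of_eq hg rfl
  have a3 : AnalyticAt ℂ (fun x => ℘'[L] (f x)) y := (analyticAt_wp' hf').comp_of_eq hf rfl
  have a4 : AnalyticAt ℂ (fun x => ℘'[L] (g x)) y := (analyticAt_wp' hg').comp_of_eq hg rfl
  unfold R
  refine (a3.add a4).fun_div ((analyticAt_const).mul (a1.sub a2)) ?_
  have : ℘[L] (f y) - ℘[L] (g y) ≠ 0 := sub_ne_zero.mpr hne
  simpa using this

/-- joint derivative of `R` along a line. -/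
lemma hasDerivAt_R_line {a b α β : ℂ} (ha : a ∉ L.lattice) (hb : b ∉ L.lattice)
    (h : ℘[L] a ≠ ℘[L] b) :
    HasDerivAt (fun t : ℂ => R L (a + t * α) (b + t * β))
      (α * (-(R L a b) ^ 2 + 2 * ℘[L] a + ℘[L] b) + β * ((R L a b) ^ 2 - ℘[L] a - 2 * ℘[L] b)) 0 := by
  have d1 : 2 * (℘[L] (a + 0 * α) - ℘[L] (b + 0 * β)) ≠ 0 := by
    simpa using sub_ne_zero.mpr h
  have e1 := L.derivWeierstrassP_sq a ha
  have e2 := L.derivWeierstrassP_sq b hb
  have la : HasDerivAt (fun t : ℂ => a + t * α) α 0 := by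
    simpa using ((hasDerivAt_id (0 : ℂ)).mul_const α).const_add a
  have lb : HasDerivAt (fun t : ℂ => b + t * β) β 0 := by
    simpa using ((hasDerivAt_id (0 : ℂ)).mul_const β).const_add b
  have ha' : a + 0 * α ∉ L.lattice := by simpa using ha
  have hb' : b + 0 * β ∉ L.lattice := by simpa using hb
  have a1 := (hasDerivAt_wp ha').comp (0 : ℂ) la
  have a2 := (hasDerivAt_wp hb').comp (0 : ℂ) lb
  have a3 := (hasDerivAt_wp' ha').comp (0 : ℂ) la
  have a4 := (hasDerivAt_wp' hb').comp (0 : ℂ) lb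
  have := (a3.fun_add a4).fun_div ((a1.fun_sub a2).const_mul 2) d1
  simp only [R]
  convert! this using 1
  simp only [Function.comp, zero_mul, add_zero]
  have d2 : ℘[L] a - ℘[L] b ≠ 0 := sub_ne_zero.mpr h
  generalize ℘[L] a = x1 at *
  generalize ℘[L] b = x2 at *
  generalize ℘'[L] a = y1 at *
  generalize ℘'[L] b = y2 at *
  field_simp
  linear_combination (α + β) * (e1 - e2)

section

variable {C : Finset ℂ} {y : Fin N → ℂ}

lemma dd_R_right {z : ℂ} (hz : Compat L y z) {k : Fin (N + 1)} (hk : yhat y k ∉ L.lattice)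
    (v : Fin N → ℂ) :
    dd v (fun x => R L z (yhat x k)) y
      = yhat v k * (R L z (yhat y k) ^ 2 - ℘[L] z - 2 * ℘[L] (yhat y k)) := by
  apply dd_eq_of_hasDerivAt
  have := hasDerivAt_R_line (α := 0) (β := yhat v k) hz.1 hk (hz.2 k)
  simp only [mul_zero, add_zero, zero_mul, zero_add] at this
  simp only [yhat_add_smul]
  exact this

lemma dd_R_both {k l : Fin (N + 1)} (hk : yhat y k ∉ L.lattice) (hl : yhat y l ∉ L.lattice)
    (hne : ℘[L] (yhat y k) ≠ ℘[L] (yhat y l)) (v : Fin N → ℂ) :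
    dd v (fun x => R L (yhat x k) (yhat x l)) y
      = yhat v k * (-(R L (yhat y k) (yhat y l)) ^ 2 + 2 * ℘[L] (yhat y k) + ℘[L] (yhat y l))
        + yhat v l * ((R L (yhat y k) (yhat y l)) ^ 2 - ℘[L] (yhat y k)
          - 2 * ℘[L] (yhat y l)) := by
  apply dd_eq_of_hasDerivAt
  simp only [yhat_add_smul]
  exact hasDerivAt_R_line (α := yhat v k) (β := yhat v l) hk hl hne

lemma compat_eventually {z : ℂ} (hz : Compat L y z) (hy : ∀ k, yhat y k ∉ L.lattice) :
    ∀ᶠ x in 𝓝 y, Compat L x z := by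
  have : ∀ᶠ x in 𝓝 y, ∀ k, ℘[L] z ≠ ℘[L] (yhat x k) := by
    rw [eventually_all]
    intro k
    have hc : ContinuousAt (fun x : Fin N → ℂ => ℘[L] (yhat x k)) y :=
      ((analyticAt_wp (hy k)).comp_of_eq (analyticAt_yhat k y) rfl).continuousAt
    filter_upwards [hc.eventually_ne (hz.2 k).symm] with x hx using hx.symm
  filter_upwards [this] with x hx using ⟨hz.1, hx⟩

/-- a nonzero polynomial does not vanish at `wp z` for `z` close to `0`. -/
lemma eventually_eval_ne_zero {p : ℂ[X]} (hp : p ≠ 0) :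
    ∀ᶠ z in 𝓝[≠] (0 : ℂ), p.eval (℘[L] z) ≠ 0 := by
  have hinv : Tendsto (fun t => (℘[L] t)⁻¹) (𝓝[≠] 0) (𝓝 0) := by
    have h1 := tendsto_sq_mul_wp (L := L)
    have h2 : Tendsto (fun z : ℂ => z ^ 2) (𝓝[≠] 0) (𝓝 0) := by
      have : ContinuousAt (fun z : ℂ => z ^ 2) 0 := by fun_prop
      have := this.tendsto
      simp only [ne_eq, OfNat.ofNat_ne_zero, not_false_eq_true, zero_pow] at this
      exact this.mono_left nhdsWithin_le_nhds
    have h3 := h2.mul (h1.inv₀ one_ne_zero)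
    simp only [inv_one, mul_one] at h3
    refine h3.congr' ?_
    filter_upwards [self_mem_nhdsWithin] with t ht
    have : t ≠ 0 := ht
    rw [mul_inv]
    field_simp
  have hne : ∀ᶠ t in 𝓝[≠] (0 : ℂ), ℘[L] t ≠ 0 := by
    have := (tendsto_sq_mul_wp (L := L)).eventually_ne one_ne_zero
    filter_upwards [this] with t ht h0
    rw [h0] at ht; simp at ht
  have hcob : Tendsto ℘[L] (𝓝[≠] 0) (Bornology.cobounded ℂ) := by
    rw [← inv_inv (℘[L])]
    refine tendsto_inv₀_nhdsNE_zero.comp ?_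
    rw [tendsto_nhdsWithin_iff]
    refine ⟨hinv, ?_⟩
    filter_upwards [hne] with t ht
    simpa using ht
  have hfin : (p.rootSet ℂ).Finite := p.rootSet_finite ℂ
  have hb : (p.rootSet ℂ)ᶜ ∈ Bornology.cobounded ℂ := hfin.isBounded
  filter_upwards [hcob hb] with z hz h0
  apply hz
  rw [mem_rootSet]
  exact ⟨hp, by simpa [aeval_def, eval₂_eq_eval_map] using h0⟩

/-- Nonzero pairs do not vanish identically on compatible points. -/
lemma exists_compat_ne_zero (y : Fin N → ℂ) {v : ℂ[X] × ℂ[X]} (hv : v ≠ 0) :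
    ∃ z, Compat L y z ∧ ev L v z ≠ 0 := by
  by_contra hcon
  push Not at hcon
  have hcomp : ∀ᶠ z in 𝓝[≠] (0 : ℂ), Compat L y z := by
    have h1 : ∀ᶠ z in 𝓝[≠] (0 : ℂ), ∀ k, ℘[L] z ≠ ℘[L] (yhat y k) := by
      rw [eventually_all]
      intro k
      have := eventually_eval_ne_zero (L := L) (X_sub_C_ne_zero (℘[L] (yhat y k)))
      filter_upwards [this] with z hz h0
      rw [eval_sub, eval_X, eval_C, h0, sub_self] at hz
      exact hz rfl
    filter_upwards [h1, eventually_notMem_lattice (L := L)] with z a b using ⟨b, a⟩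
  have hcomp_neg : ∀ z, Compat L y z → Compat L y (-z) := by
    intro z hz
    refine ⟨by rw [neg_mem_iff]; exact hz.1, fun k => ?_⟩
    rw [L.weierstrassP_neg]; exact hz.2 k
  have hwp' : ∀ᶠ z in 𝓝[≠] (0 : ℂ), ℘'[L] z ≠ 0 := by
    have := (tendsto_cube_mul_wp' (L := L)).eventually_ne (show (-2 : ℂ) ≠ 0 by norm_num)
    filter_upwards [this] with t ht h0
    rw [h0] at ht; simp at ht
  have key : ∀ᶠ z in 𝓝[≠] (0 : ℂ), v.1.eval (℘[L] z) = 0 ∧ v.2.eval (℘[L] z) = 0 := by
    filter_upwards [hcomp, hwp'] with z hz hz'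
    have h1 := hcon z hz
    have h2 := hcon (-z) (hcomp_neg z hz)
    simp only [ev, L.weierstrassP_neg, L.derivWeierstrassP_neg] at h1 h2
    have h3 : v.1.eval (℘[L] z) = 0 := by linear_combination (h1 + h2) / 2
    refine ⟨h3, ?_⟩
    have h4 : v.2.eval (℘[L] z) * ℘'[L] z = 0 := by linear_combination (h1 - h2) / 2
    exact (mul_eq_zero.mp h4).resolve_right hz'
  have hp : v.1 = 0 := by
    by_contra hp
    obtain ⟨z, hz1, hz2⟩ := (key.and (eventually_eval_ne_zero (L := L) hp)).exists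
    exact hz2 hz1.1
  have hq : v.2 = 0 := by
    by_contra hq
    obtain ⟨z, hz1, hz2⟩ := (key.and (eventually_eval_ne_zero (L := L) hq)).exists
    exact hz2 hz1.2
  exact hv (Prod.ext hp hq)

lemma GR.Fp_ne_zero (h : GR L C y) (hC : (0 : ℂ) ∈ C) (hN : 1 ≤ N) : Fp L y ≠ 0 := by
  intro h0
  have := (h.1.abel hC hN h.2).2
  rw [h0, lc_zero] at this
  exact this rfl

open Classical in
variable (L) in
/-- the constants `eps v y` in `D_v F(z) = F(z) (eps - ∑ vhat_k R(z,yhat_k))`. -/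
noncomputable def eps (v y : Fin N → ℂ) : ℂ :=
  if h : ∃ ε : ℂ, ∀ z, Compat L y z → dd v (Fz L z) y
      = Fz L z y * (ε - ∑ k, yhat v k * R L z (yhat y k)) then h.choose else 0

lemma GR.eps_spec (h : GR L C y) (hC : (0 : ℂ) ∈ C) (hN : 2 ≤ N) (v : Fin N → ℂ) {z : ℂ}
    (hz : Compat L y z) :
    dd v (Fz L z) y = Fz L z y * (eps L v y - ∑ k, yhat v k * R L z (yhat y k)) := by
  have hex := h.deriv_y hC hN v
  rw [eps, dif_pos hex]
  exact hex.choose_spec z hz

lemma analyticAt_Fz (hy : Reg L y) (z : ℂ) : AnalyticAt ℂ (Fz L z) y := by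
  unfold Fz
  refine analyticAt_const.sub (Finset.analyticAt_fun_sum _ fun j _ => ?_)
  exact (analyticAt_uvar hy j).mul analyticAt_const

lemma GR.analyticAt_R_right (h : GR L C y) (hC : (0 : ℂ) ∈ C) (hN : 2 ≤ N) {z : ℂ}
    (hz : Compat L y z) (k : Fin (N + 1)) :
    AnalyticAt ℂ (fun x => R L z (yhat x k)) y :=
  analyticAt_R analyticAt_const (analyticAt_yhat k y) hz.1 (h.1.yhat_notMem hC (by omega) k)
    (hz.2 k)

lemma GR.analyticAt_R_both (h : GR L C y) (hC : (0 : ℂ) ∈ C) (hN : 2 ≤ N) (k l : Fin (N + 1)) :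
    AnalyticAt ℂ (fun x => R L (yhat x k) (yhat x l)) y := by
  by_cases hkl : k = l
  · subst hkl
    simp only [R_self]
    exact analyticAt_const
  · exact analyticAt_R (analyticAt_yhat k y) (analyticAt_yhat l y)
      (h.1.yhat_notMem hC (by omega) k) (h.1.yhat_notMem hC (by omega) l) (h.wp_ne hC hN hkl)

lemma GR.analyticAt_eps (h : GR L C y) (hC : (0 : ℂ) ∈ C) (hN : 2 ≤ N) (v : Fin N → ℂ) :
    AnalyticAt ℂ (eps L v) y := by
  have hreg := h.reg hC (by omega)
  obtain ⟨z, hz, hz0⟩ := exists_compat_ne_zero (L := L) y (h.Fp_ne_zero hC (by omega))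
  rw [ev_Fp hz.1] at hz0
  have hF := analyticAt_Fz hreg z
  have h1 : AnalyticAt ℂ (fun x => dd v (Fz L z) x / Fz L z x
      + ∑ k, yhat v k * R L z (yhat x k)) y := by
    refine ((analyticAt_dd hF).fun_div hF hz0).add
      (Finset.analyticAt_fun_sum _ fun k _ => analyticAt_const.mul ?_)
    exact h.analyticAt_R_right hC hN hz k
  refine h1.congr ?_
  filter_upwards [h.eventually hC (by omega),
    compat_eventually hz (fun k => h.1.yhat_notMem hC (by omega) k),
    hF.continuousAt.eventually_ne hz0] with x hx1 hx2 hx3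
  rw [hx1.eps_spec hC hN v hx2]
  field_simp
  ring

lemma GR.eps_linear (h : GR L C y) (hC : (0 : ℂ) ∈ C) (hN : 2 ≤ N) (v : Fin N → ℂ) :
    eps L v y = ∑ i, v i * eps L (Pi.single i 1) y := by
  have hreg := h.reg hC (by omega)
  obtain ⟨z, hz, hz0⟩ := exists_compat_ne_zero (L := L) y (h.Fp_ne_zero hC (by omega))
  rw [ev_Fp hz.1] at hz0
  have h1 := h.eps_spec hC hN v hz
  rw [dd_eq_sum_single (analyticAt_Fz hreg z).differentiableAt] at h1
  simp only [h.eps_spec hC hN _ hz] at h1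
  have h2 : ∑ k, yhat v k * R L z (yhat y k)
      = ∑ i, v i * ∑ k, yhat (Pi.single i 1 : Fin N → ℂ) k * R L z (yhat y k) := by
    simp only [Finset.mul_sum]
    rw [Finset.sum_comm]
    refine Finset.sum_congr rfl fun k _ => ?_
    rw [yhat_sum v k, Finset.sum_mul]
    exact Finset.sum_congr rfl fun i _ => by ring
  have h3 : ∑ x, v x * (Fz L z y * (eps L (Pi.single x 1) y
        - ∑ k, yhat (Pi.single x 1 : Fin N → ℂ) k * R L z (yhat y k)))
      = Fz L z y * ((∑ i, v i * eps L (Pi.single i 1) y)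
        - ∑ i, v i * ∑ k, yhat (Pi.single i 1 : Fin N → ℂ) k * R L z (yhat y k)) := by
    rw [← Finset.sum_sub_distrib, Finset.mul_sum]
    exact Finset.sum_congr rfl fun i _ => by ring
  rw [h3, ← h2] at h1
  have h4 := mul_left_cancel₀ hz0 h1
  linear_combination -h4

end

end Pool.Agent.Lib.MP_0b1044_mp
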