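import Mathlib
import Pool.Agent.Lib.MP_0b1044_mp.Eps

/-!
Logarithmic derivative of the Jacobian.
-/

namespace Pool.Agent.Lib.MP_0b1044_mp

open PeriodPair Filter Topology Polynomial

variable {L : PeriodPair} {N : ℕ}

/-- derivative of a determinant. -/
lemma hasDerivAt_det {m : ℕ} {A : ℂ → Matrix (Fin m) (Fin m) ℂ} {A' : Matrix (Fin m) (Fin m) ℂ}
    {t : ℂ} (h : ∀ i j, HasDerivAt (fun s => A s i j) (A' i j) t) :
    HasDerivAt (fun s => (A s).det) (∑ j, ∑ i, (A t).adjugate j i * A' i j) t := by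
  have h1 : HasDerivAt (fun s => ∑ σ : Equiv.Perm (Fin m), ((Equiv.Perm.sign σ : ℤ) : ℂ)
      * ∏ i, A s (σ i) i)
      (∑ σ : Equiv.Perm (Fin m), ((Equiv.Perm.sign σ : ℤ) : ℂ) *
        ∑ j, (∏ i ∈ Finset.univ.erase j, A t (σ i) i) • A' (σ j) j) t := by
    refine HasDerivAt.fun_sum fun σ _ => ?_
    refine HasDerivAt.const_mul _ ?_
    exact HasDerivAt.fun_finsetProd fun i _ => h (σ i) i
  have e1 : (fun s => (A s).det) = fun s => ∑ σ : Equiv.Perm (Fin m),
      ((Equiv.Perm.sign σ : ℤ) : ℂ) * ∏ i, A s (σ i) i := by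
    ext s; rw [Matrix.det_apply']
  rw [e1]
  convert! h1 using 1
  have e2 : ∀ j, ∑ i, (A t).adjugate j i * A' i j = ((A t).updateCol j (fun i => A' i j)).det := by
    intro j
    rw [← Matrix.cramer_apply, Matrix.cramer_eq_adjugate_mulVec]
    rfl
  simp only [e2, Matrix.det_apply']
  rw [Finset.sum_comm]
  refine Finset.sum_congr rfl fun σ _ => ?_
  rw [Finset.mul_sum]
  refine Finset.sum_congr rfl fun j _ => ?_
  congr 1
  rw [← Finset.mul_prod_erase Finset.univ _ (Finset.mem_univ j)]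
  rw [Matrix.updateCol_self, smul_eq_mul, mul_comm]
  congr 1
  refine Finset.prod_congr rfl fun i hi => ?_
  rw [Matrix.updateCol_ne (Finset.ne_of_mem_erase hi)]

/-- the Jacobian matrix. -/
noncomputable def jacM (L : PeriodPair) {N : ℕ} (y : Fin N → ℂ) : Matrix (Fin N) (Fin N) ℂ :=
  Matrix.of fun i j : Fin N => pd j (fun x => uvar L x i) y

lemma pd_eq_dd (i : Fin N) : (pd i : ((Fin N → ℂ) → ℂ) → (Fin N → ℂ) → ℂ) = dd (Pi.single i 1) := rfl

section

variable {C : Finset ℂ} {y : Fin N → ℂ}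

lemma wp_mul_jacM (hy : Reg L y) : wpMatrix L y * jacM L y
    = Matrix.diagonal fun l => ev L (Dp L.g₂ L.g₃ (Fp L y)) (y l) := by
  ext l j
  rw [Matrix.mul_apply, Matrix.diagonal_apply]
  have := deriv_system hy (Pi.single j 1) l
  simp only [wpMatrix, jacM, Matrix.of_apply, pd_eq_dd]
  have e : ∑ x : Fin N, iteratedDeriv (x : ℕ) ℘[L] (y l) * dd (Pi.single j 1) (fun z => uvar L z x) y
      = ∑ x : Fin N, dd (Pi.single j 1) (fun z => uvar L z x) y
        * iteratedDeriv (x : ℕ) ℘[L] (y l) := Finset.sum_congr rfl fun _ _ => mul_comm _ _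
  rw [e, this]
  by_cases hlj : l = j
  · subst hlj; simp
  · simp [hlj]

lemma Fderiv_ne_zero (hy : Reg L y) (hj : jac L y ≠ 0) (l : Fin N) :
    ev L (Dp L.g₂ L.g₃ (Fp L y)) (y l) ≠ 0 := by
  have h1 := congrArg Matrix.det (wp_mul_jacM hy)
  rw [Matrix.det_mul, Matrix.det_diagonal] at h1
  have h2 : (wpMatrix L y).det * (jacM L y).det ≠ 0 := mul_ne_zero hy.2 hj
  rw [h1] at h2
  exact (Finset.prod_ne_zero_iff.mp h2) l (Finset.mem_univ l)

lemma adjugate_jacM (hy : Reg L y) (hj : jac L y ≠ 0) (j i : Fin N) :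
    (jacM L y).adjugate j i
      = jac L y * (iteratedDeriv (i : ℕ) ℘[L] (y j) / ev L (Dp L.g₂ L.g₃ (Fp L y)) (y j)) := by
  have hF := Fderiv_ne_zero hy hj
  set d : Fin N → ℂ := fun l => ev L (Dp L.g₂ L.g₃ (Fp L y)) (y l) with hd
  have h1 : (Matrix.diagonal (fun l => (d l)⁻¹) * wpMatrix L y) * jacM L y = 1 := by
    rw [Matrix.mul_assoc, wp_mul_jacM hy, Matrix.diagonal_mul_diagonal]
    rw [← Matrix.diagonal_one]
    congr 1
    ext l
    exact inv_mul_cancel₀ (hF l)
  have h2 : (jacM L y).adjugate = (jacM L y).det •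
      (Matrix.diagonal (fun l => (d l)⁻¹) * wpMatrix L y) := by
    have h3 := Matrix.mul_adjugate (jacM L y)
    calc (jacM L y).adjugate
        = ((Matrix.diagonal (fun l => (d l)⁻¹) * wpMatrix L y) * jacM L y)
          * (jacM L y).adjugate := by rw [h1, Matrix.one_mul]
      _ = (Matrix.diagonal (fun l => (d l)⁻¹) * wpMatrix L y)
          * (jacM L y * (jacM L y).adjugate) := by rw [Matrix.mul_assoc]
      _ = _ := by rw [h3, Matrix.mul_smul, Matrix.mul_one]
  rw [h2, Matrix.smul_apply, Matrix.diagonal_mul, smul_eq_mul]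
  simp only [wpMatrix, Matrix.of_apply]
  rw [div_eq_inv_mul]
  rfl

lemma analyticAt_jacM (hy : Reg L y) (i j : Fin N) : AnalyticAt ℂ (fun x => jacM L x i j) y := by
  simp only [jacM, Matrix.of_apply, pd_eq_dd]
  exact analyticAt_dd (analyticAt_uvar hy i)

lemma analyticAt_jac (hy : Reg L y) : AnalyticAt ℂ (jac L) y :=
  analyticAt_det (A := fun x => jacM L x) (analyticAt_jacM hy)

/-- derivative of the Jacobian determinant in terms of second derivatives of `F`. -/
lemma dd_jac (hy : Reg L y) (hj : jac L y ≠ 0) (v : Fin N → ℂ) :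
    dd v (jac L) y = jac L y * ∑ j, (∑ i : Fin N, dd v (dd (Pi.single j 1) (fun x => uvar L x i)) y
      * iteratedDeriv (i : ℕ) ℘[L] (y j)) / ev L (Dp L.g₂ L.g₃ (Fp L y)) (y j) := by
  have h1 : HasDerivAt (fun t : ℂ => (jacM L (y + t • v)).det)
      (∑ j, ∑ i, (jacM L (y + (0 : ℂ) • v)).adjugate j i
        * dd v (fun x => jacM L x i j) y) 0 := by
    apply hasDerivAt_det (A := fun t => jacM L (y + t • v))
      (A' := Matrix.of fun i j => dd v (fun x => jacM L x i j) y)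
    intro i j
    exact hasDerivAt_line (analyticAt_jacM hy i j).differentiableAt
  have h2 : dd v (jac L) y = ∑ j, ∑ i, (jacM L (y + (0 : ℂ) • v)).adjugate j i
        * dd v (fun x => jacM L x i j) y := dd_eq_of_hasDerivAt h1
  rw [h2, zero_smul, add_zero, Finset.mul_sum]
  refine Finset.sum_congr rfl fun j _ => ?_
  rw [Finset.sum_div, Finset.mul_sum]
  refine Finset.sum_congr rfl fun i _ => ?_
  rw [adjugate_jacM hy hj]
  have : (fun x => jacM L x i j) = dd (Pi.single j 1) (fun x => uvar L x i) := rfl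
  rw [this]
  ring

/-- the limit `(z-a) R(z,a) → 1`. -/
lemma tendsto_sub_mul_R {a : ℂ} (ha : a ∉ L.lattice) (h2a : 2 * a ∉ L.lattice) :
    Tendsto (fun z => (z - a) * R L z a) (𝓝[≠] a) (𝓝 1) := by
  have hne := wp'_ne_zero ha h2a
  have h1 : Tendsto (fun z => (z - a)⁻¹ • (℘[L] z - ℘[L] a)) (𝓝[≠] a) (𝓝 (℘'[L] a)) :=
    (hasDerivAt_iff_tendsto_slope.mp (hasDerivAt_wp ha))
  have h2 : Tendsto ℘'[L] (𝓝[≠] a) (𝓝 (℘'[L] a)) :=
    (hasDerivAt_wp' ha).continuousAt.tendsto.mono_left nhdsWithin_le_nhds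
  have h3 : Tendsto (fun z => (℘'[L] z + ℘'[L] a) / (2 * ((z - a)⁻¹ • (℘[L] z - ℘[L] a))))
      (𝓝[≠] a) (𝓝 ((℘'[L] a + ℘'[L] a) / (2 * ℘'[L] a))) :=
    (h2.add_const _).div (h1.const_mul 2) (mul_ne_zero two_ne_zero hne)
  have e : (℘'[L] a + ℘'[L] a) / (2 * ℘'[L] a) = 1 := by field_simp; ring
  rw [e] at h3
  refine h3.congr' ?_
  filter_upwards [self_mem_nhdsWithin] with z hz
  have hz' : z - a ≠ 0 := sub_ne_zero.mpr hz
  rw [R, smul_eq_mul]
  by_cases h0 : ℘[L] z - ℘[L] a = 0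
  · rw [h0]; simp
  · field_simp

lemma compat_near (h : GR L C y) (hC : (0 : ℂ) ∈ C) (hN : 2 ≤ N) (j : Fin N) :
    ∀ᶠ z in 𝓝[≠] (y j), Compat L y z := by
  have hreg := h.reg hC (by omega)
  have h2 := h.1.two_mul_notMem hC j
  have hne := wp'_ne_zero (hreg.1 j) h2
  have e1 : ∀ᶠ z in 𝓝[≠] (y j), z ∉ L.lattice :=
    mem_nhdsWithin_of_mem_nhds ((isOpen_compl_lattice L).mem_nhds (hreg.1 j))
  have e2 : ∀ᶠ z in 𝓝[≠] (y j), ∀ k, ℘[L] z ≠ ℘[L] (yhat y k) := by
    rw [eventually_all]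
    intro k
    by_cases hk : k = Fin.castSucc j
    · rw [hk, yhat_castSucc]
      exact (hasDerivAt_wp (hreg.1 j)).eventually_ne hne
    · have := h.wp_ne hC hN (Ne.symm hk)
      rw [yhat_castSucc] at this
      exact mem_nhdsWithin_of_mem_nhds
        ((hasDerivAt_wp (hreg.1 j)).continuousAt.eventually_ne this)
  filter_upwards [e1, e2] with z a b using ⟨a, b⟩

lemma dd_dd_Fz (hy : Reg L y) (v w : Fin N → ℂ) (z : ℂ) :
    dd v (dd w (Fz L z)) y = -∑ i : Fin N, dd v (dd w (fun x => uvar L x i)) y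
      * iteratedDeriv (i : ℕ) ℘[L] z := by
  have h1 : ∀ x, Reg L x → dd w (Fz L z) x = -∑ i : Fin N, dd w (fun x => uvar L x i) x
      * iteratedDeriv (i : ℕ) ℘[L] z := by
    intro x hx
    have hd : ∀ j : Fin N, DifferentiableAt ℂ (fun x => uvar L x j * iteratedDeriv (j : ℕ) ℘[L] z) x :=
      fun j => (analyticAt_uvar hx j).differentiableAt.mul (differentiableAt_const _)
    have e : Fz L z = fun x : Fin N → ℂ => (1 : ℂ) - ∑ j : Fin N,
        uvar L x j * iteratedDeriv (j : ℕ) ℘[L] z := rfl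
    rw [e, dd_sub (differentiableAt_const _) (DifferentiableAt.fun_sum fun j _ => hd j), dd_const,
      dd_sum _ (fun j _ => hd j), zero_sub]
    congr 1
    refine Finset.sum_congr rfl fun j _ => ?_
    rw [dd_mul (analyticAt_uvar hx j).differentiableAt (differentiableAt_const _), dd_const]
    ring
  have h2 : dd w (Fz L z) =ᶠ[𝓝 y] fun x => (-1 : ℂ) * ∑ i : Fin N, dd w (fun x => uvar L x i) x
      * iteratedDeriv (i : ℕ) ℘[L] z := by
    filter_upwards [reg_eventually hy] with x hx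
    rw [h1 x hx]; ring
  have hd : ∀ j : Fin N, DifferentiableAt ℂ (fun x => dd w (fun x => uvar L x j) x
      * iteratedDeriv (j : ℕ) ℘[L] z) y :=
    fun j => (analyticAt_dd (analyticAt_uvar hy j)).differentiableAt.mul (differentiableAt_const _)
  rw [dd_congr h2, dd_const_mul _ (DifferentiableAt.fun_sum fun j _ => hd j),
    dd_sum _ (fun j _ => hd j), neg_one_mul]
  congr 1
  refine Finset.sum_congr rfl fun j _ => ?_
  rw [dd_mul (analyticAt_dd (analyticAt_uvar hy j)).differentiableAt (differentiableAt_const _),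
    dd_const]
  ring

/-- second derivative of `F` at a compatible point. -/
lemma GR.dd_dd (h : GR L C y) (hC : (0 : ℂ) ∈ C) (hN : 2 ≤ N) (v w : Fin N → ℂ) {z : ℂ}
    (hz : Compat L y z) :
    dd v (dd w (Fz L z)) y = Fz L z y *
      ((eps L v y - ∑ k, yhat v k * R L z (yhat y k))
        * (eps L w y - ∑ k, yhat w k * R L z (yhat y k))
      + (dd v (eps L w) y - ∑ k, yhat w k * (yhat v k *
        (R L z (yhat y k) ^ 2 - ℘[L] z - 2 * ℘[L] (yhat y k))))) := by
  have hreg := h.reg hC (by omega)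
  have hyn : ∀ k, yhat y k ∉ L.lattice := fun k => h.1.yhat_notMem hC (by omega) k
  have h1 : dd w (Fz L z) =ᶠ[𝓝 y] fun x => Fz L z x *
      (eps L w x - ∑ k, yhat w k * R L z (yhat x k)) := by
    filter_upwards [h.eventually hC (by omega), compat_eventually hz hyn] with x hx1 hx2
    exact hx1.eps_spec hC hN w hx2
  have hR : ∀ k, DifferentiableAt ℂ (fun x => R L z (yhat x k)) y := fun k =>
    (h.analyticAt_R_right hC hN hz k).differentiableAt
  have hsum : DifferentiableAt ℂ (fun x => ∑ k, yhat w k * R L z (yhat x k)) y :=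
    DifferentiableAt.fun_sum fun k _ => (hR k).const_mul _
  have heps := (h.analyticAt_eps hC hN w).differentiableAt
  rw [dd_congr h1, dd_mul (analyticAt_Fz hreg z).differentiableAt (heps.fun_sub hsum),
    h.eps_spec hC hN v hz, dd_sub heps hsum, dd_sum _ (fun k _ => (hR k).const_mul _)]
  have h2 : ∀ k, dd v (fun x => yhat w k * R L z (yhat x k)) y
      = yhat w k * (yhat v k * (R L z (yhat y k) ^ 2 - ℘[L] z - 2 * ℘[L] (yhat y k))) := by
    intro k
    rw [dd_const_mul _ (hR k), dd_R_right hz (hyn k)]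
  simp only [h2]
  ring

lemma yhat_single_self (j : Fin N) :
    yhat (Pi.single j 1 : Fin N → ℂ) (Fin.castSucc j) = 1 := by simp

/-- value of `D_v ∂_j F` at `z = y_j`. -/
lemma GR.dd_dd_at (h : GR L C y) (hC : (0 : ℂ) ∈ C) (hN : 2 ≤ N) (v : Fin N → ℂ) (j : Fin N) :
    dd v (dd (Pi.single j 1) (Fz L (y j))) y = - ev L (Dp L.g₂ L.g₃ (Fp L y)) (y j) *
      ((eps L v y - ∑ k, yhat v k * R L (y j) (yhat y k))
        + v j * (eps L (Pi.single j 1) y
          - ∑ k, yhat (Pi.single j 1 : Fin N → ℂ) k * R L (y j) (yhat y k))) := by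
  have hreg := h.reg hC (by omega)
  have hyn : ∀ k, yhat y k ∉ L.lattice := fun k => h.1.yhat_notMem hC (by omega) k
  set e : Fin N → ℂ := Pi.single j 1 with he
  set j' := Fin.castSucc j with hj'
  -- LHS is a continuous function of z
  have hcont : Tendsto (fun z => dd v (dd e (Fz L z)) y) (𝓝[≠] (y j))
      (𝓝 (dd v (dd e (Fz L (y j))) y)) := by
    have : ContinuousAt (fun z => dd v (dd e (Fz L z)) y) (y j) := by
      simp only [dd_dd_Fz hreg]
      refine ContinuousAt.neg (tendsto_finsetSum _ fun i _ => ?_)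
      exact (continuousAt_const).mul (analyticAt_iteratedDeriv_wp i (hreg.1 j)).continuousAt
    exact this.tendsto.mono_left nhdsWithin_le_nhds
  -- F(z)/(z-y_j)
  have hF : Tendsto (fun z => (z - y j)⁻¹ * Fz L z y) (𝓝[≠] (y j))
      (𝓝 (ev L (Dp L.g₂ L.g₃ (Fp L y)) (y j))) := by
    have h1 := hasDerivAt_iff_tendsto_slope.mp (hasDerivAt_ev (L := L) (Fp L y) (hreg.1 j))
    refine h1.congr' ?_
    filter_upwards [mem_nhdsWithin_of_mem_nhds ((isOpen_compl_lattice L).mem_nhds (hreg.1 j))]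
      with z hz
    rw [slope_def_field, ev_Fp_self hreg j, sub_zero, ev_Fp hz, div_eq_inv_mul]
  -- continuity of the regular parts
  have hRc : ∀ k, k ≠ j' → Tendsto (fun z => R L z (yhat y k)) (𝓝[≠] (y j))
      (𝓝 (R L (y j) (yhat y k))) := by
    intro k hk
    have hne := h.wp_ne hC hN (Ne.symm hk)
    rw [hj', yhat_castSucc] at hne
    exact (hasDerivAt_R_left (hreg.1 j) (hyn k) hne).continuousAt.tendsto.mono_left
      nhdsWithin_le_nhds
  have hx : Tendsto (fun z => ℘[L] z) (𝓝[≠] (y j)) (𝓝 (℘[L] (y j))) :=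
    (hasDerivAt_wp (hreg.1 j)).continuousAt.tendsto.mono_left nhdsWithin_le_nhds
  have hzj : Tendsto (fun z => z - y j) (𝓝[≠] (y j)) (𝓝 0) := by
    have : ContinuousAt (fun z => z - y j) (y j) := by fun_prop
    have := this.tendsto
    rw [sub_self] at this
    exact this.mono_left nhdsWithin_le_nhds
  have hone := tendsto_sub_mul_R (hreg.1 j) (h.1.two_mul_notMem hC j)
  -- a(z), b(z), r(z)
  have hsplit : ∀ (c : Fin (N + 1) → ℂ) (z : ℂ), ∑ k, c k * R L z (yhat y k)
      = c j' * R L z (y j) + ∑ k ∈ Finset.univ.erase j', c k * R L z (yhat y k) := by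
    intro c z
    rw [← Finset.add_sum_erase Finset.univ _ (Finset.mem_univ j'), hj', yhat_castSucc]
  have hsumlim : ∀ (c : Fin (N + 1) → ℂ),
      Tendsto (fun z => ∑ k ∈ Finset.univ.erase j', c k * R L z (yhat y k)) (𝓝[≠] (y j))
      (𝓝 (∑ k, c k * R L (y j) (yhat y k))) := by
    intro c
    rw [hsplit c (y j), R_self, mul_zero, zero_add]
    refine tendsto_finsetSum _ fun k hk => ?_
    exact (hRc k (Finset.ne_of_mem_erase hk)).const_mul _
  have ha : Tendsto (fun z => eps L v y - ∑ k ∈ Finset.univ.erase j', yhat v k * R L z (yhat y k))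
      (𝓝[≠] (y j)) (𝓝 (eps L v y - ∑ k, yhat v k * R L (y j) (yhat y k))) :=
    (hsumlim _).const_sub _
  have hb : Tendsto (fun z => eps L e y - ∑ k ∈ Finset.univ.erase j', yhat e k * R L z (yhat y k))
      (𝓝[≠] (y j)) (𝓝 (eps L e y - ∑ k, yhat e k * R L (y j) (yhat y k))) :=
    (hsumlim _).const_sub _
  have hr : Tendsto (fun z => dd v (eps L e) y + v j * (℘[L] z + 2 * ℘[L] (y j))
      - ∑ k ∈ Finset.univ.erase j', yhat e k * (yhat v k *
        (R L z (yhat y k) ^ 2 - ℘[L] z - 2 * ℘[L] (yhat y k)))) (𝓝[≠] (y j))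
      (𝓝 (dd v (eps L e) y + v j * (℘[L] (y j) + 2 * ℘[L] (y j))
      - ∑ k ∈ Finset.univ.erase j', yhat e k * (yhat v k *
        (R L (y j) (yhat y k) ^ 2 - ℘[L] (y j) - 2 * ℘[L] (yhat y k))))) := by
    refine ((tendsto_const_nhds).add ((hx.add_const _).const_mul _)).sub
      (tendsto_finsetSum _ fun k hk => ?_)
    refine ((((hRc k (Finset.ne_of_mem_erase hk)).pow 2).sub hx).sub_const _).const_mul _
      |>.const_mul _
  have hlim := hF.mul (((hzj.mul (ha.mul hb)).sub (hone.mul (ha.add (hb.const_mul (v j))))).add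
    (hzj.mul hr))
  have hval := tendsto_nhds_unique hcont (hlim.congr' ?_)
  · rw [hval]; ring
  · filter_upwards [compat_near h hC hN j, self_mem_nhdsWithin] with z hz hzne
    have hz' : z - y j ≠ 0 := sub_ne_zero.mpr hzne
    rw [h.dd_dd hC hN v e hz, hsplit (yhat v) z, hsplit (yhat e) z]
    have hsp2 : ∑ k, yhat e k * (yhat v k * (R L z (yhat y k) ^ 2 - ℘[L] z - 2 * ℘[L] (yhat y k)))
        = yhat e j' * (yhat v j' * (R L z (y j) ^ 2 - ℘[L] z - 2 * ℘[L] (y j)))
          + ∑ k ∈ Finset.univ.erase j', yhat e k * (yhat v k *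
            (R L z (yhat y k) ^ 2 - ℘[L] z - 2 * ℘[L] (yhat y k))) := by
      rw [← Finset.add_sum_erase Finset.univ _ (Finset.mem_univ j'), hj', yhat_castSucc y]
    have he1 : yhat e j' = 1 := yhat_single_self j
    have hv1 : yhat v j' = v j := by rw [hj', yhat_castSucc]
    rw [hsp2, he1, hv1]
    field_simp
    ring

/-- the sum of the `R(yhat_k,.)`. -/
noncomputable def om (L : PeriodPair) {N : ℕ} (y : Fin N → ℂ) (k : Fin (N + 1)) : ℂ :=
  ∑ l, R L (yhat y k) (yhat y l)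

/-- logarithmic derivative of the Jacobian. -/
theorem GR.dd_log_jac (h : GR L C y) (hC : (0 : ℂ) ∈ C) (hN : 2 ≤ N) {G : (Fin N → ℂ) → ℂ}
    (hG : AnalyticAt ℂ G y) (hGj : ∀ᶠ x in 𝓝 y, Complex.exp (G x) = jac L x) (v : Fin N → ℂ) :
    dd v G y = (N + 1) * eps L v y + ∑ k, yhat v k * om L y k := by
  have hreg := h.reg hC (by omega)
  have hj : jac L y ≠ 0 := by rw [← hGj.self_of_nhds]; exact Complex.exp_ne_zero _
  have h1 : dd v (jac L) y = jac L y * dd v G y := by
    rw [← dd_congr (v := v) hGj, dd_cexp hG.differentiableAt, hGj.self_of_nhds]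
  rw [dd_jac hreg hj v] at h1
  have h2 := mul_left_cancel₀ hj h1
  rw [← h2]
  have h3 : ∀ j : Fin N, (∑ i : Fin N, dd v (dd (Pi.single j 1) (fun x => uvar L x i)) y
      * iteratedDeriv (i : ℕ) ℘[L] (y j)) / ev L (Dp L.g₂ L.g₃ (Fp L y)) (y j)
      = (eps L v y - ∑ k, yhat v k * R L (y j) (yhat y k))
        + v j * (eps L (Pi.single j 1) y
          - ∑ k, yhat (Pi.single j 1 : Fin N → ℂ) k * R L (y j) (yhat y k)) := by
    intro j
    have hF := Fderiv_ne_zero hreg hj j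
    have e1 := h.dd_dd_at hC hN v j
    rw [dd_dd_Fz hreg] at e1
    rw [div_eq_iff hF]
    linear_combination -e1
  rw [Finset.sum_congr rfl (fun j _ => h3 j), Finset.sum_add_distrib]
  have h4 : ∀ j : Fin N, ∑ k, yhat (Pi.single j 1 : Fin N → ℂ) k * R L (y j) (yhat y k)
      = - R L (y j) (yhat y (Fin.last N)) := by
    intro j
    rw [Fin.sum_univ_castSucc]
    simp only [yhat_castSucc, yhat_last]
    rw [Finset.sum_eq_single j]
    · simp
    · intro b _ hb; simp [Pi.single_eq_of_ne hb]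
    · intro h; exact absurd (Finset.mem_univ _) h
  simp only [h4, sub_neg_eq_add, Finset.sum_sub_distrib, Finset.sum_add_distrib,
    mul_add]
  rw [← h.eps_linear hC hN v]
  simp only [Finset.sum_const, Finset.card_univ, Fintype.card_fin, nsmul_eq_mul]
  -- remaining: - ∑_j ∑_k v̂_k R(y_j, ŷ_k) + ∑_j v_j R(y_j, ŷ_n) = ∑_k v̂_k ω_k
  have h5 : ∑ k, yhat v k * om L y k
      = - ∑ j : Fin N, ∑ k, yhat v k * R L (y j) (yhat y k)
        + ∑ k, yhat v k * R L (yhat y k) (yhat y (Fin.last N)) := by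
    rw [Finset.sum_comm, ← Finset.sum_neg_distrib, ← Finset.sum_add_distrib]
    refine Finset.sum_congr rfl fun k _ => ?_
    rw [om, Fin.sum_univ_castSucc, mul_add, Finset.mul_sum, ← Finset.sum_neg_distrib]
    congr 1
    refine Finset.sum_congr rfl fun j _ => ?_
    rw [yhat_castSucc, R_antisymm (y j) (yhat y k)]
    ring
  have h6 : ∑ k, yhat v k * R L (yhat y k) (yhat y (Fin.last N))
      = ∑ j : Fin N, v j * R L (y j) (yhat y (Fin.last N)) := by
    rw [Fin.sum_univ_castSucc]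
    simp only [yhat_castSucc, R_self, mul_zero, add_zero]
  rw [h5, h6]
  ring

end

end Pool.Agent.Lib.MP_0b1044_mp
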