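import Mathlib

/-!
Pure algebra: sums over antisymmetric families satisfying the three-term identity.
-/

namespace Pool.Agent.Lib.MP_0b1044_mp

variable {ι : Type*} [Fintype ι] [DecidableEq ι]

omit [DecidableEq ι] in
lemma sum_antisymm (ρ : ι → ι → ℂ) (hρ : ∀ k l, ρ l k = -ρ k l) : ∑ k, ∑ l, ρ k l = 0 := by
  have h1 : ∑ k, ∑ l, ρ k l = ∑ k, ∑ l, ρ l k := Finset.sum_comm
  have h2 : ∑ k, ∑ l, ρ l k = -∑ k, ∑ l, ρ k l := by
    rw [← Finset.sum_neg_distrib]
    refine Finset.sum_congr rfl fun k _ => ?_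
    rw [← Finset.sum_neg_distrib]
    exact Finset.sum_congr rfl fun l _ => hρ k l
  rw [h2] at h1
  linear_combination h1 / 2

/-- sum of a function of pairs over off-diagonal pairs -/
lemma sum_offdiag (f : ι → ι → ℂ) :
    ∑ k, ∑ l, (if k = l then 0 else f k l) = ∑ k, ∑ l, f k l - ∑ k, f k k := by
  rw [← Finset.sum_sub_distrib]
  refine Finset.sum_congr rfl fun k _ => ?_
  rw [eq_sub_iff_add_eq]
  have : f k k = ∑ l, if k = l then f k l else 0 := by simp
  rw [this, ← Finset.sum_add_distrib]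
  refine Finset.sum_congr rfl fun l _ => ?_
  split_ifs <;> simp

/-- `∑_k ω_k r_k`. -/
lemma sum_om_r (ρ : ι → ι → ℂ) (hρ : ∀ k l, ρ l k = -ρ k l) (X r : ι → ℂ) (x : ℂ)
    (h3 : ∀ k l, k ≠ l → ρ k l * (r k - r l) = r k * r l - (x + X k + X l)) :
    2 * ∑ k, (∑ l, ρ k l) * r k = (∑ k, r k) ^ 2 - ∑ k, r k ^ 2
      - (Fintype.card ι : ℂ) * ((Fintype.card ι : ℂ) - 1) * x
      - 2 * ((Fintype.card ι : ℂ) - 1) * ∑ k, X k := by
  have e1 : 2 * ∑ k, (∑ l, ρ k l) * r k = ∑ k, ∑ l, ρ k l * (r k - r l) := by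
    have a1 : ∑ k, (∑ l, ρ k l) * r k = ∑ k, ∑ l, ρ k l * r k :=
      Finset.sum_congr rfl fun k _ => by rw [Finset.sum_mul]
    have a2 : ∑ k, ∑ l, ρ k l * r k = ∑ k, ∑ l, -(ρ k l * r l) := by
      rw [Finset.sum_comm]
      refine Finset.sum_congr rfl fun k _ => Finset.sum_congr rfl fun l _ => ?_
      rw [hρ k l]; ring
    calc 2 * ∑ k, (∑ l, ρ k l) * r k = ∑ k, ∑ l, ρ k l * r k + ∑ k, ∑ l, ρ k l * r k := by
          rw [a1]; ring
      _ = ∑ k, ∑ l, ρ k l * r k + ∑ k, ∑ l, -(ρ k l * r l) := by rw [← a2]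
      _ = ∑ k, ∑ l, ρ k l * (r k - r l) := by
          rw [← Finset.sum_add_distrib]
          refine Finset.sum_congr rfl fun k _ => ?_
          rw [← Finset.sum_add_distrib]
          exact Finset.sum_congr rfl fun l _ => by ring
  have e2 : ∑ k, ∑ l, ρ k l * (r k - r l)
      = ∑ k, ∑ l, (if k = l then 0 else (r k * r l - (x + X k + X l))) := by
    refine Finset.sum_congr rfl fun k _ => Finset.sum_congr rfl fun l _ => ?_
    split_ifs with h
    · subst h; ring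
    · exact h3 k l h
  rw [e1, e2, sum_offdiag]
  simp only [Finset.sum_sub_distrib, Finset.sum_add_distrib, Finset.sum_const, Finset.card_univ,
    nsmul_eq_mul, ← Finset.mul_sum, ← Finset.sum_mul]
  have e3 : ∑ i, r i * r i = ∑ k, r k ^ 2 := Finset.sum_congr rfl fun k _ => by ring
  rw [e3]
  ring

/-- `∑_k ω_k^2`. -/
lemma sum_om_sq (ρ : ι → ι → ℂ) (hρ : ∀ k l, ρ l k = -ρ k l) (X : ι → ℂ)
    (h3 : ∀ k l m, k ≠ l → l ≠ m → k ≠ m →
      ρ k l * ρ l m + ρ l m * ρ m k + ρ m k * ρ k l = -(X k + X l + X m)) :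
    ∑ k, (∑ l, ρ k l) ^ 2 = ∑ k, ∑ l, ρ k l ^ 2
      + ((Fintype.card ι : ℂ) - 1) * ((Fintype.card ι : ℂ) - 2) * ∑ k, X k := by
  have hdiag : ∀ k, ρ k k = 0 := by
    intro k
    have := hρ k k
    linear_combination this / 2
  have hT : ∀ k l m, ρ k l * ρ k m + ρ l k * ρ l m + ρ m k * ρ m l
      = ((X k + X l + X m) - (if k = l then (X k + X l + X m) else 0)
          - (if k = m then (X k + X l + X m) else 0) - (if l = m then (X k + X l + X m) else 0)
          + (if k = l then (if k = m then 2 * (X k + X l + X m) else 0) else 0))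
        + (if k = l then ρ k m ^ 2 else 0) + (if k = m then ρ k l ^ 2 else 0)
        + (if l = m then ρ k l ^ 2 else 0) := by
    intro k l m
    by_cases h1 : k = l
    · subst h1
      by_cases h2 : k = m
      · subst h2
        simp [hdiag]; ring
      · simp only [if_true, if_neg h2, hdiag, hρ k m]
        ring
    · by_cases h2 : k = m
      · subst h2
        have h4 : l ≠ k := fun h => h1 h.symm
        simp only [if_true, if_neg h1, if_neg h4, hdiag, hρ k l]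
        ring
      · by_cases h4 : l = m
        · subst h4
          simp only [if_true, if_neg h1, hdiag]
          rw [hρ k l]
          ring
        · simp only [if_neg h1, if_neg h2, if_neg h4]
          have := h3 k l m h1 h4 h2
          rw [hρ k m] at this
          rw [hρ k l, hρ k m, hρ l m]
          linear_combination -this
  have hsum : ∑ k, ∑ l, ∑ m, (ρ k l * ρ k m + ρ l k * ρ l m + ρ m k * ρ m l)
      = 3 * ∑ k, (∑ l, ρ k l) ^ 2 := by
    have a1 : ∑ k, ∑ l, ∑ m, ρ k l * ρ k m = ∑ k, (∑ l, ρ k l) ^ 2 := by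
      refine Finset.sum_congr rfl fun k _ => ?_
      rw [sq, Finset.sum_mul_sum]
    have a2 : ∑ k, ∑ l, ∑ m, ρ l k * ρ l m = ∑ k, (∑ l, ρ k l) ^ 2 := by
      rw [Finset.sum_comm]
      exact a1
    have a3 : ∑ k, ∑ l, ∑ m, ρ m k * ρ m l = ∑ k, (∑ l, ρ k l) ^ 2 := by
      have : ∑ k, ∑ l, ∑ m, ρ m k * ρ m l = ∑ m, ∑ k, ∑ l, ρ m k * ρ m l := by
        rw [Finset.sum_congr rfl (fun k _ => Finset.sum_comm), Finset.sum_comm]
      rw [this]
      exact a1
    simp only [Finset.sum_add_distrib]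
    rw [a1, a2, a3]
    ring
  simp only [hT] at hsum
  simp only [Finset.sum_add_distrib, Finset.sum_sub_distrib, Finset.sum_const, Finset.card_univ,
    nsmul_eq_mul, ← Finset.mul_sum, Finset.sum_ite_eq, Finset.mem_univ, if_true] at hsum
  have b1 : ∑ x : ι, ∑ x_1 : ι, ∑ x_2 : ι, (if x = x_1 then X x + X x_1 + X x_2 else 0)
      = 3 * (Fintype.card ι : ℂ) * ∑ k, X k := by
    have : ∀ x x_1 : ι, ∑ x_2 : ι, (if x = x_1 then X x + X x_1 + X x_2 else 0)
        = if x = x_1 then ∑ x_2, (X x + X x_1 + X x_2) else 0 := by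
      intro x x1; split_ifs <;> simp
    simp only [this, Finset.sum_ite_eq, Finset.mem_univ, if_true, Finset.sum_add_distrib,
      Finset.sum_const, Finset.card_univ, nsmul_eq_mul, ← Finset.mul_sum]
    ring
  have b4 : ∑ x : ι, ∑ x_1 : ι, ∑ x_2 : ι, (if x = x_1 then
      (if x = x_2 then 2 * (X x + X x_1 + X x_2) else 0) else 0) = 6 * ∑ k, X k := by
    have : ∀ x x_1 : ι, ∑ x_2 : ι, (if x = x_1 then
        (if x = x_2 then 2 * (X x + X x_1 + X x_2) else 0) else 0)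
        = if x = x_1 then 2 * (X x + X x_1 + X x) else 0 := by
      intro x x1; split_ifs <;> simp
    simp only [this, Finset.sum_ite_eq, Finset.mem_univ, if_true]
    rw [Finset.mul_sum]
    exact Finset.sum_congr rfl fun k _ => by ring
  have b5 : ∑ x : ι, ∑ x_1 : ι, ∑ x_2 : ι, (if x = x_1 then ρ x x_2 ^ 2 else 0)
      = ∑ k, ∑ l, ρ k l ^ 2 := by
    have : ∀ x x_1 : ι, ∑ x_2 : ι, (if x = x_1 then ρ x x_2 ^ 2 else 0)
        = if x = x_1 then ∑ x_2, ρ x x_2 ^ 2 else 0 := by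
      intro x x1; split_ifs <;> simp
    simp only [this, Finset.sum_ite_eq, Finset.mem_univ, if_true]
  rw [b1, b4, b5] at hsum
  linear_combination (-1 / 3) * hsum

/-- `∑_k D_k ω_k`. -/
lemma sum_D_om (ρ : ι → ι → ℂ) (hρ0 : ∀ k, ρ k k = 0) (X : ι → ℂ) (c : ℂ) :
    ∑ k, ∑ l, (if k = l then 0 else
      ((1 - c) * (-(ρ k l) ^ 2 + 2 * X k + X l) + (-c) * ((ρ k l) ^ 2 - X k - 2 * X l)))
      = - ∑ k, ∑ l, ρ k l ^ 2 + 3 * ((Fintype.card ι : ℂ) - 1) * ∑ k, X k := by
  rw [sum_offdiag]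
  simp only [mul_sub, mul_add, Finset.sum_sub_distrib, Finset.sum_add_distrib, Finset.sum_const,
    Finset.card_univ, nsmul_eq_mul, ← Finset.mul_sum, hρ0, Finset.sum_neg_distrib]
  simp only [ne_eq, OfNat.ofNat_ne_zero, not_false_eq_true, zero_pow, neg_zero, mul_zero]
  ring

/-- the potential. -/
lemma sum_pot (ρ : ι → ι → ℂ) (hρ0 : ∀ k, ρ k k = 0) (X : ι → ℂ) :
    ∑ k, ∑ l, (if k = l then 0 else (ρ k l ^ 2 - X k - X l))
      = ∑ k, ∑ l, ρ k l ^ 2 - 2 * ((Fintype.card ι : ℂ) - 1) * ∑ k, X k := by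
  rw [sum_offdiag]
  simp only [Finset.sum_sub_distrib, Finset.sum_const,
    Finset.card_univ, nsmul_eq_mul, ← Finset.mul_sum, hρ0]
  simp only [ne_eq, OfNat.ofNat_ne_zero, not_false_eq_true, zero_pow]
  ring

end Pool.Agent.Lib.MP_0b1044_mp
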