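import Mathlib
import Pool.Agent.Lib.MP_0b1044_mp.JacDeriv
import Pool.Agent.Lib.MP_0b1044_mp.Sums

/-!
The core identities at very generic points.
-/

namespace Pool.Agent.Lib.MP_0b1044_mp

open PeriodPair Filter Topology Polynomial

variable {L : PeriodPair} {N : ℕ}

/-- the direction of the centred derivative `D_k`. -/
noncomputable def dirv {N : ℕ} (k : Fin (N + 1)) : Fin N → ℂ :=
  fun l => (if Fin.castSucc l = k then 1 else 0) - 1 / ((N : ℂ) + 1)

lemma N1_ne : ((N : ℂ) + 1) ≠ 0 := by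
  have : ((N + 1 : ℕ) : ℂ) ≠ 0 := by rw [Nat.cast_ne_zero]; omega
  simpa using this

lemma yhat_dirv (k l : Fin (N + 1)) :
    yhat (dirv k : Fin N → ℂ) l = (if l = k then 1 else 0) - 1 / ((N : ℂ) + 1) := by
  have hN := N1_ne (N := N)
  induction l using Fin.lastCases with
  | last =>
    rw [yhat_last]
    simp only [dirv, Finset.sum_sub_distrib, Finset.sum_const, Finset.card_univ, Fintype.card_fin,
      nsmul_eq_mul]
    induction k using Fin.lastCases with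
    | last =>
      have : ∑ x : Fin N, (if Fin.castSucc x = Fin.last N then (1 : ℂ) else 0) = 0 :=
        Finset.sum_eq_zero fun i _ => by rw [if_neg (Fin.castSucc_ne_last i)]
      rw [this, if_pos rfl]
      field_simp
      ring
    | cast j =>
      have : ∑ x : Fin N, (if Fin.castSucc x = Fin.castSucc j then (1 : ℂ) else 0) = 1 := by
        simp
      rw [this, if_neg (Ne.symm (Fin.castSucc_ne_last j))]
      field_simp
      ring
  | cast i => simp [dirv]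

/-- `∑_l η_{kl} f_l = f_k - (1/n) ∑ f`. -/
lemma sum_dirv_mul (k : Fin (N + 1)) (f : Fin (N + 1) → ℂ) :
    ∑ l, yhat (dirv k : Fin N → ℂ) l * f l = f k - 1 / ((N : ℂ) + 1) * ∑ l, f l := by
  simp only [yhat_dirv, sub_mul, Finset.sum_sub_distrib, ← Finset.mul_sum, ite_mul, one_mul,
    zero_mul, Finset.sum_ite_eq', Finset.mem_univ, if_true]

lemma sum_sum_dirv_sq (f : Fin (N + 1) → ℂ) :
    ∑ k, ∑ l, yhat (dirv k : Fin N → ℂ) l * (yhat (dirv k : Fin N → ℂ) l * f l)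
      = (1 - 1 / ((N : ℂ) + 1)) * ∑ l, f l := by
  have hN := N1_ne (N := N)
  have h1 : ∀ k : Fin (N + 1), ∑ l, yhat (dirv k : Fin N → ℂ) l * (yhat (dirv k : Fin N → ℂ) l * f l)
      = f k - 2 / ((N : ℂ) + 1) * f k + (1 / ((N : ℂ) + 1)) ^ 2 * ∑ l, f l := by
    intro k
    rw [sum_dirv_mul k (fun l => yhat (dirv k : Fin N → ℂ) l * f l), sum_dirv_mul k f, yhat_dirv,
      if_pos rfl]
    ring
  simp only [h1, Finset.sum_add_distrib, Finset.sum_sub_distrib, ← Finset.mul_sum,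
    Finset.sum_const, Finset.card_univ, Fintype.card_fin, nsmul_eq_mul]
  push_cast
  field_simp
  ring

section

variable {C : Finset ℂ} {y : Fin N → ℂ}

lemma GR.sum_om (y : Fin N → ℂ) : ∑ k, om L y k = 0 :=
  sum_antisymm (fun k l => R L (yhat y k) (yhat y l)) (fun _ _ => R_antisymm _ _)

/-- the second `z`-derivative. -/
lemma GR.deriv2_z (h : GR L C y) (hC : (0 : ℂ) ∈ C) (hN : 2 ≤ N) {c₀ : ℂ}
    (hc : ∀ z, Compat L y z → ev L (Dp L.g₂ L.g₃ (Fp L y)) z
      = Fz L z y * ((∑ k, R L z (yhat y k)) + c₀)) {z : ℂ} (hz : Compat L y z) :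
    ev L (Dp L.g₂ L.g₃ (Dp L.g₂ L.g₃ (Fp L y))) z
      = ev L (Dp L.g₂ L.g₃ (Fp L y)) z * ((∑ k, R L z (yhat y k)) + c₀)
        + Fz L z y * (-(∑ k, R L z (yhat y k) ^ 2) + 2 * ((N : ℂ) + 1) * ℘[L] z
          + ∑ k, ℘[L] (yhat y k)) := by
  have hyn : ∀ k, yhat y k ∉ L.lattice := fun k => h.1.yhat_notMem hC (by omega) k
  have h1 := hasDerivAt_ev (L := L) (Dp L.g₂ L.g₃ (Fp L y)) hz.1
  have h2 : HasDerivAt (fun w => ev L (Fp L y) w * ((∑ k, R L w (yhat y k)) + c₀))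
      (ev L (Dp L.g₂ L.g₃ (Fp L y)) z * ((∑ k, R L z (yhat y k)) + c₀)
        + ev L (Fp L y) z * ∑ k, (-(R L z (yhat y k)) ^ 2 + 2 * ℘[L] z + ℘[L] (yhat y k))) z := by
    refine (hasDerivAt_ev (Fp L y) hz.1).fun_mul (HasDerivAt.add_const c₀
      (HasDerivAt.fun_sum fun k _ => ?_))
    exact hasDerivAt_R_left hz.1 (hyn k) (hz.2 k)
  have h3 : ev L (Dp L.g₂ L.g₃ (Fp L y)) =ᶠ[𝓝 z]
      (fun w => ev L (Fp L y) w * ((∑ k, R L w (yhat y k)) + c₀)) := by
    have e1 : ∀ᶠ w in 𝓝 z, w ∉ L.lattice := (isOpen_compl_lattice L).mem_nhds hz.1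
    have e2 : ∀ᶠ w in 𝓝 z, ∀ k, ℘[L] w ≠ ℘[L] (yhat y k) := by
      rw [eventually_all]
      intro k
      exact (hasDerivAt_wp hz.1).continuousAt.eventually_ne (hz.2 k)
    filter_upwards [e1, e2] with w hw1 hw2
    rw [hc w ⟨hw1, hw2⟩, ev_Fp hw1]
  have h4 := h1.unique (h2.congr_of_eventuallyEq h3)
  rw [h4, ev_Fp hz.1]
  congr 2
  simp only [Finset.sum_add_distrib, Finset.sum_neg_distrib, Finset.sum_const, Finset.card_univ,
    Fintype.card_fin, nsmul_eq_mul]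
  push_cast
  ring

lemma GR.dirv_eps_sum (h : GR L C y) (hC : (0 : ℂ) ∈ C) (hN : 2 ≤ N) :
    ∑ k, eps L (dirv k) y = 0 := by
  have h1 : ∀ k, eps L (dirv k) y = ∑ i, (dirv k : Fin N → ℂ) i * eps L (Pi.single i 1) y :=
    fun k => h.eps_linear hC hN _
  simp only [h1]
  rw [Finset.sum_comm]
  refine Finset.sum_eq_zero fun i _ => ?_
  rw [← Finset.sum_mul]
  have : ∑ k, (dirv k : Fin N → ℂ) i = 0 := by
    simp only [dirv, Finset.sum_sub_distrib, Finset.sum_ite_eq, Finset.mem_univ, if_true,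
      Finset.sum_const, Finset.card_univ, Fintype.card_fin, nsmul_eq_mul]
    have := N1_ne (N := N)
    push_cast
    field_simp
    ring
  rw [this, zero_mul]

lemma GR.D_F (h : GR L C y) (hC : (0 : ℂ) ∈ C) (hN : 2 ≤ N) {z : ℂ} (hz : Compat L y z)
    (k : Fin (N + 1)) :
    dd (dirv k) (Fz L z) y = Fz L z y * (eps L (dirv k) y - R L z (yhat y k)
      + 1 / ((N : ℂ) + 1) * ∑ l, R L z (yhat y l)) := by
  rw [h.eps_spec hC hN _ hz, sum_dirv_mul]
  ring

lemma GR.D_D_F (h : GR L C y) (hC : (0 : ℂ) ∈ C) (hN : 2 ≤ N) {z : ℂ} (hz : Compat L y z)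
    (k : Fin (N + 1)) :
    dd (dirv k) (dd (dirv k) (Fz L z)) y = Fz L z y * ((eps L (dirv k) y - R L z (yhat y k)
      + 1 / ((N : ℂ) + 1) * ∑ l, R L z (yhat y l)) ^ 2
      + (dd (dirv k) (eps L (dirv k)) y - ∑ l, yhat (dirv k : Fin N → ℂ) l *
        (yhat (dirv k : Fin N → ℂ) l *
          (R L z (yhat y l) ^ 2 - ℘[L] z - 2 * ℘[L] (yhat y l))))) := by
  rw [h.dd_dd hC hN _ _ hz, sum_dirv_mul k (fun l => R L z (yhat y l))]
  ring

lemma three_z (h : GR L C y) (hC : (0 : ℂ) ∈ C) (hN : 2 ≤ N) {z : ℂ} (hz : Compat L y z)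
    (k l : Fin (N + 1)) (hkl : k ≠ l) :
    R L (yhat y k) (yhat y l) * (R L z (yhat y k) - R L z (yhat y l))
      = R L z (yhat y k) * R L z (yhat y l)
        - (℘[L] z + ℘[L] (yhat y k) + ℘[L] (yhat y l)) := by
  have := R_three hz.1 (h.1.yhat_notMem hC (by omega) k) (h.1.yhat_notMem hC (by omega) l)
    (hz.2 k) (h.wp_ne hC hN hkl) (hz.2 l).symm
  rw [R_antisymm z (yhat y l)] at this
  linear_combination this

lemma three_y (h : GR L C y) (hC : (0 : ℂ) ∈ C) (hN : 2 ≤ N)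
    (k l m : Fin (N + 1)) (hkl : k ≠ l) (hlm : l ≠ m) (hkm : k ≠ m) :
    R L (yhat y k) (yhat y l) * R L (yhat y l) (yhat y m)
      + R L (yhat y l) (yhat y m) * R L (yhat y m) (yhat y k)
      + R L (yhat y m) (yhat y k) * R L (yhat y k) (yhat y l)
      = -(℘[L] (yhat y k) + ℘[L] (yhat y l) + ℘[L] (yhat y m)) :=
  R_three (h.1.yhat_notMem hC (by omega) k) (h.1.yhat_notMem hC (by omega) l)
    (h.1.yhat_notMem hC (by omega) m) (h.wp_ne hC hN hkl) (h.wp_ne hC hN hlm)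
    (h.wp_ne hC hN hkm.symm)

lemma sum_R_R (h : GR L C y) (hC : (0 : ℂ) ∈ C) (hN : 2 ≤ N) {z w : ℂ} (hz : Compat L y z)
    (hw : Compat L y w) (hzw : ℘[L] z ≠ ℘[L] w) :
    ∑ k, R L z (yhat y k) * R L w (yhat y k)
      = -(R L z w) * ((∑ k, R L z (yhat y k)) - ∑ k, R L w (yhat y k))
        + ((N : ℂ) + 1) * (℘[L] z + ℘[L] w) + ∑ k, ℘[L] (yhat y k) := by
  have h1 : ∀ k, R L z (yhat y k) * R L w (yhat y k)
      = -(R L z w) * (R L z (yhat y k) - R L w (yhat y k)) + (℘[L] z + ℘[L] w)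
        + ℘[L] (yhat y k) := by
    intro k
    have := R_three hz.1 hw.1 (h.1.yhat_notMem hC (by omega) k) hzw (hw.2 k) (hz.2 k).symm
    rw [R_antisymm z (yhat y k)] at this
    linear_combination -this
  simp only [h1, Finset.sum_add_distrib, ← Finset.mul_sum, Finset.sum_sub_distrib,
    Finset.sum_const, Finset.card_univ, Fintype.card_fin, nsmul_eq_mul]
  push_cast
  ring

/-- `D_k G = n eps_k + ω_k`. -/
lemma GR.D_G (h : GR L C y) (hC : (0 : ℂ) ∈ C) (hN : 2 ≤ N) {G : (Fin N → ℂ) → ℂ}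
    (hG : AnalyticAt ℂ G y) (hGj : ∀ᶠ x in 𝓝 y, Complex.exp (G x) = jac L x)
    (k : Fin (N + 1)) :
    dd (dirv k) G y = ((N : ℂ) + 1) * eps L (dirv k) y + om L y k := by
  rw [h.dd_log_jac hC hN hG hGj, sum_dirv_mul k (om L y), GR.sum_om, mul_zero, sub_zero]

/-- `D_k D_k G`. -/
lemma GR.D_D_G (h : GR L C y) (hC : (0 : ℂ) ∈ C) (hN : 2 ≤ N) {G : (Fin N → ℂ) → ℂ}
    (hG : AnalyticAt ℂ G y) (hGj : ∀ᶠ x in 𝓝 y, Complex.exp (G x) = jac L x)
    (k : Fin (N + 1)) :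
    dd (dirv k) (dd (dirv k) G) y = ((N : ℂ) + 1) * dd (dirv k) (eps L (dirv k)) y
      + ∑ l, (if k = l then 0 else ((1 - 1 / ((N : ℂ) + 1)) *
          (-(R L (yhat y k) (yhat y l)) ^ 2 + 2 * ℘[L] (yhat y k) + ℘[L] (yhat y l))
        + (-(1 / ((N : ℂ) + 1))) * ((R L (yhat y k) (yhat y l)) ^ 2 - ℘[L] (yhat y k)
          - 2 * ℘[L] (yhat y l)))) := by
  have hyn : ∀ k, yhat y k ∉ L.lattice := fun k => h.1.yhat_notMem hC (by omega) k
  have h1 : dd (dirv k) G =ᶠ[𝓝 y] fun x => ((N : ℂ) + 1) * eps L (dirv k) x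
      + ∑ l, R L (yhat x k) (yhat x l) := by
    have hGe : ∀ᶠ x in 𝓝 y, ∀ᶠ x' in 𝓝 x, Complex.exp (G x') = jac L x' :=
      hGj.eventually_nhds
    filter_upwards [h.eventually hC (by omega), hG.eventually_analyticAt, hGe] with x hx1 hx2 hx3
    exact hx1.D_G hC hN hx2 hx3 k
  have hR : ∀ l, DifferentiableAt ℂ (fun x => R L (yhat x k) (yhat x l)) y := fun l =>
    (h.analyticAt_R_both hC hN k l).differentiableAt
  have heps := (h.analyticAt_eps hC hN (dirv k)).differentiableAt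
  rw [dd_congr h1, dd_add (heps.const_mul _) (DifferentiableAt.fun_sum fun l _ => hR l),
    dd_const_mul _ heps, dd_sum _ (fun l _ => hR l)]
  congr 1
  refine Finset.sum_congr rfl fun l _ => ?_
  by_cases hkl : k = l
  · subst hkl
    simp only [R_self, if_true]
    exact dd_const 0
  · rw [if_neg hkl, dd_R_both (hyn k) (hyn l) (h.wp_ne hC hN hkl), yhat_dirv, yhat_dirv,
      if_pos rfl, if_neg (Ne.symm hkl), zero_sub]

/-- The core identities. -/
theorem GR.core (h : GR L C y) (hC : (0 : ℂ) ∈ C) (hN : 2 ≤ N) {G : (Fin N → ℂ) → ℂ}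
    (hG : AnalyticAt ℂ G y) (hGj : ∀ᶠ x in 𝓝 y, Complex.exp (G x) = jac L x) (β : ℂ) :
    ∃ (α : ℂ → ℂ) (κ₂ : ℂ),
      (∀ z w, Compat L y z → Compat L y w → ℘[L] z ≠ ℘[L] w →
        ∑ k, dd (dirv k) (Fz L z) y * dd (dirv k) (Fz L w) y
          = -(R L z w) * (ev L (Dp L.g₂ L.g₃ (Fp L y)) z * Fz L w y
              - Fz L z y * ev L (Dp L.g₂ L.g₃ (Fp L y)) w)
            - 1 / ((N : ℂ) + 1) * ev L (Dp L.g₂ L.g₃ (Fp L y)) z
              * ev L (Dp L.g₂ L.g₃ (Fp L y)) w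
            + α z * Fz L w y + Fz L z y * α w) ∧
      (∀ z, Compat L y z →
        ∑ k, dd (dirv k) (Fz L z) y * dd (dirv k) (Fz L z) y
          = ev L (Dp L.g₂ L.g₃ (Fp L y)) z ^ 2
            - Fz L z y * ev L (Dp L.g₂ L.g₃ (Dp L.g₂ L.g₃ (Fp L y))) z
            - 1 / ((N : ℂ) + 1) * ev L (Dp L.g₂ L.g₃ (Fp L y)) z ^ 2
            + 2 * α z * Fz L z y) ∧
      (∀ z, Compat L y z →
        ∑ k, dd (dirv k) (dd (dirv k) (Fz L z)) y
          + 2 * β * ∑ k, dd (dirv k) G y * dd (dirv k) (Fz L z) y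
          = (1 + ((N : ℂ) + 1) * β) * (-(1 / ((N : ℂ) + 1))
              * ev L (Dp L.g₂ L.g₃ (Dp L.g₂ L.g₃ (Fp L y))) z
              - (N : ℂ) * ℘[L] z * Fz L z y + 2 * α z) + κ₂ * Fz L z y) ∧
      (β ^ 2 * ∑ k, dd (dirv k) G y ^ 2 + β * ∑ k, dd (dirv k) (dd (dirv k) G) y
        - β * (β - 1) * ∑ i : Fin (N + 1), ∑ j : Fin (N + 1),
          (if i = j then 0 else ℘[L] (yhat y i - yhat y j))
        = ((N : ℂ) + 1) * β * κ₂) := by
  have hN1 := N1_ne (N := N)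
  have hyn : ∀ k, yhat y k ∉ L.lattice := fun k => h.1.yhat_notMem hC (by omega) k
  obtain ⟨c₀, hc⟩ := h.deriv_z hC hN
  set ε : Fin (N + 1) → ℂ := fun k => eps L (dirv k) y with hε
  set X : Fin (N + 1) → ℂ := fun k => ℘[L] (yhat y k) with hX
  set n : ℂ := (N : ℂ) + 1 with hn
  set De : ℂ := ∑ k : Fin (N + 1), dd (dirv k) (eps L (dirv k)) y with hDe
  have heps0 : ∑ k, ε k = 0 := h.dirv_eps_sum hC hN
  set α : ℂ → ℂ := fun z => Fz L z y * (c₀ / n * ((∑ k, R L z (yhat y k)) + c₀) + n * ℘[L] z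
    + (1 / 2) * (∑ k, X k - c₀ ^ 2 / n + ∑ k, ε k ^ 2) - ∑ k, ε k * R L z (yhat y k)) with hα
  set κ₂ : ℂ := De + 2 * β * (∑ k, om L y k * ε k) + (1 + n * β) * (1 - 1 / n) * (∑ k, X k)
    + n * β * ∑ k, ε k ^ 2 with hκ₂
  refine ⟨α, κ₂, ?_, ?_, ?_, ?_⟩
  · -- (S)
    intro z w hz hw hzw
    have e1 : ∀ k, dd (dirv k) (Fz L z) y * dd (dirv k) (Fz L w) y
        = Fz L z y * Fz L w y * (ε k ^ 2 - ε k * R L z (yhat y k) - ε k * R L w (yhat y k)
          + R L z (yhat y k) * R L w (yhat y k)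
          + (1 / n * ∑ l, R L z (yhat y l) + 1 / n * ∑ l, R L w (yhat y l)) * ε k
          - (1 / n * ∑ l, R L w (yhat y l)) * R L z (yhat y k)
          - (1 / n * ∑ l, R L z (yhat y l)) * R L w (yhat y k)
          + (1 / n * ∑ l, R L z (yhat y l)) * (1 / n * ∑ l, R L w (yhat y l))) := by
      intro k
      rw [h.D_F hC hN hz k, h.D_F hC hN hw k]
      ring
    rw [Finset.sum_congr rfl (fun k _ => e1 k), ← Finset.mul_sum]
    simp only [Finset.sum_add_distrib, Finset.sum_sub_distrib, ← Finset.mul_sum,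
      Finset.sum_const, Finset.card_univ, Fintype.card_fin, nsmul_eq_mul]
    rw [sum_R_R h hC hN hz hw hzw, heps0, hc z hz, hc w hw]
    have hcast : ((N + 1 : ℕ) : ℂ) = n := by rw [hn]; push_cast; ring
    rw [hcast, hα]
    simp only
    generalize ∑ k, R L z (yhat y k) = s1
    generalize ∑ k, R L w (yhat y k) = s2
    generalize ∑ k, ε k * R L z (yhat y k) = t1
    generalize ∑ k, ε k * R L w (yhat y k) = t2
    generalize ∑ k, ε k ^ 2 = q
    have hX' : ∑ k, ℘[L] (yhat y k) = ∑ k, X k := rfl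
    rw [hX']
    generalize ∑ k, X k = xs
    field_simp
    ring
  · -- (S')
    intro z hz
    have e1 : ∀ k, dd (dirv k) (Fz L z) y * dd (dirv k) (Fz L z) y
        = Fz L z y ^ 2 * (ε k ^ 2 - 2 * (ε k * R L z (yhat y k))
          + R L z (yhat y k) ^ 2
          + (2 * (1 / n * ∑ l, R L z (yhat y l))) * ε k
          - (2 * (1 / n * ∑ l, R L z (yhat y l))) * R L z (yhat y k)
          + (1 / n * ∑ l, R L z (yhat y l)) ^ 2) := by
      intro k
      rw [h.D_F hC hN hz k]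
      ring
    rw [Finset.sum_congr rfl (fun k _ => e1 k), ← Finset.mul_sum]
    simp only [Finset.sum_add_distrib, Finset.sum_sub_distrib, ← Finset.mul_sum,
      Finset.sum_const, Finset.card_univ, Fintype.card_fin, nsmul_eq_mul]
    rw [h.deriv2_z hC hN hc hz, hc z hz, heps0]
    have hcast : ((N + 1 : ℕ) : ℂ) = n := by rw [hn]; push_cast; ring
    rw [hcast, ← hn, hα]
    simp only
    have hX' : ∑ k, ℘[L] (yhat y k) = ∑ k, X k := rfl
    rw [hX']
    generalize ∑ k, R L z (yhat y k) = s1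
    generalize ∑ k, ε k * R L z (yhat y k) = t1
    generalize ∑ k, ε k ^ 2 = q
    generalize ∑ k, R L z (yhat y k) ^ 2 = r2
    generalize ∑ k, X k = xs
    field_simp
    ring
  · -- (B)
    intro z hz
    have e1 : ∀ k, dd (dirv k) (dd (dirv k) (Fz L z)) y
        = Fz L z y * ((ε k ^ 2 - 2 * (ε k * R L z (yhat y k))
          + R L z (yhat y k) ^ 2
          + (2 * (1 / n * ∑ l, R L z (yhat y l))) * ε k
          - (2 * (1 / n * ∑ l, R L z (yhat y l))) * R L z (yhat y k)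
          + (1 / n * ∑ l, R L z (yhat y l)) ^ 2)
          + (dd (dirv k) (eps L (dirv k)) y - ∑ l, yhat (dirv k : Fin N → ℂ) l *
          (yhat (dirv k : Fin N → ℂ) l *
            (R L z (yhat y l) ^ 2 - ℘[L] z - 2 * ℘[L] (yhat y l))))) := by
      intro k
      rw [h.D_D_F hC hN hz k]
      ring
    have e2 : ∀ k, dd (dirv k) G y * dd (dirv k) (Fz L z) y
        = Fz L z y * (n * ε k ^ 2 - n * (ε k * R L z (yhat y k))
          + om L y k * ε k - om L y k * R L z (yhat y k)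
          + (1 / n * ∑ l, R L z (yhat y l)) * n * ε k
          + (1 / n * ∑ l, R L z (yhat y l)) * om L y k) := by
      intro k
      rw [h.D_G hC hN hG hGj k, h.D_F hC hN hz k]
      ring
    rw [Finset.sum_congr rfl (fun k _ => e1 k), Finset.sum_congr rfl (fun k _ => e2 k),
      ← Finset.mul_sum, ← Finset.mul_sum]
    simp only [Finset.sum_add_distrib, Finset.sum_sub_distrib, ← Finset.mul_sum]
    rw [sum_sum_dirv_sq (N := N) (fun l => R L z (yhat y l) ^ 2 - ℘[L] z - 2 * ℘[L] (yhat y l))]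
    simp only [Finset.sum_sub_distrib, ← Finset.mul_sum,
      Finset.sum_const, Finset.card_univ, Fintype.card_fin, nsmul_eq_mul]
    have hom := sum_om_r (fun k l => R L (yhat y k) (yhat y l)) (fun _ _ => R_antisymm _ _) X
      (fun k => R L z (yhat y k)) (℘[L] z) (three_z h hC hN hz)
    have hom' : ∑ k, om L y k * R L z (yhat y k)
        = (1 / 2) * ((∑ k, R L z (yhat y k)) ^ 2 - ∑ k, R L z (yhat y k) ^ 2
          - n * (n - 1) * ℘[L] z - 2 * (n - 1) * ∑ k, X k) := by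
      have hcard : ((Fintype.card (Fin (N + 1)) : ℕ) : ℂ) = n := by
        rw [hn, Fintype.card_fin]; push_cast; ring
      rw [hcard] at hom
      have : ∑ k, om L y k * R L z (yhat y k)
        = ∑ k, (∑ l, R L (yhat y k) (yhat y l)) * R L z (yhat y k) := rfl
      rw [this]
      linear_combination (1 / 2) * hom
    rw [hom', GR.sum_om, heps0, h.deriv2_z hC hN hc hz, hc z hz]
    have hcast : ((N + 1 : ℕ) : ℂ) = n := by rw [hn]; push_cast; ring
    have hNn : (N : ℂ) = n - 1 := by rw [hn]; ring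
    rw [hcast, ← hn, hα, hκ₂, ← hDe]
    simp only
    have hX' : ∑ k, ℘[L] (yhat y k) = ∑ k, X k := rfl
    rw [hX', hNn]
    generalize ∑ k, R L z (yhat y k) = s1
    generalize ∑ k, ε k * R L z (yhat y k) = t1
    generalize ∑ k, ε k ^ 2 = q
    generalize ∑ k, R L z (yhat y k) ^ 2 = r2
    generalize ∑ k, X k = xs
    generalize ∑ k, om L y k * ε k = oe
    field_simp
    ring
  · -- (Z)
    have e1 : ∀ k, dd (dirv k) G y ^ 2 = n ^ 2 * ε k ^ 2 + 2 * n * (om L y k * ε k)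
        + om L y k ^ 2 := by
      intro k
      rw [h.D_G hC hN hG hGj k]
      ring
    rw [Finset.sum_congr rfl (fun k _ => e1 k),
      Finset.sum_congr rfl (fun k _ => h.D_D_G hC hN hG hGj k)]
    simp only [Finset.sum_add_distrib, ← Finset.mul_sum]
    have hcard : ((Fintype.card (Fin (N + 1)) : ℕ) : ℂ) = n := by
      rw [hn, Fintype.card_fin]; push_cast; ring
    have a1 := sum_om_sq (fun k l => R L (yhat y k) (yhat y l)) (fun _ _ => R_antisymm _ _) X
      (three_y h hC hN)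
    have a2 := sum_D_om (fun k l => R L (yhat y k) (yhat y l)) (fun _ => R_self _) X
      (1 / ((N : ℂ) + 1))
    have a3 := sum_pot (fun k l => R L (yhat y k) (yhat y l)) (fun _ => R_self _) X
    rw [hcard] at a1 a2 a3
    have a1' : ∑ k, om L y k ^ 2 = ∑ k, (∑ l, R L (yhat y k) (yhat y l)) ^ 2 := rfl
    have a3' : ∑ i : Fin (N + 1), ∑ j : Fin (N + 1),
        (if i = j then 0 else ℘[L] (yhat y i - yhat y j))
        = ∑ k, ∑ l, (if k = l then 0 else (R L (yhat y k) (yhat y l) ^ 2 - X k - X l)) := by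
      refine Finset.sum_congr rfl fun k _ => Finset.sum_congr rfl fun l _ => ?_
      split_ifs with hkl
      · rfl
      · rw [R_sq (hyn k) (hyn l) (h.1.sub_notMem hC hkl) (h.1.add_notMem hC hN hkl)]
        ring
    rw [a1', a1, a3', a3]
    have a2' : ∑ x : Fin (N + 1), ∑ l : Fin (N + 1), (if x = l then 0 else ((1 - 1 / n) *
          (-(R L (yhat y x) (yhat y l)) ^ 2 + 2 * ℘[L] (yhat y x) + ℘[L] (yhat y l))
        + (-(1 / n)) * ((R L (yhat y x) (yhat y l)) ^ 2 - ℘[L] (yhat y x)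
          - 2 * ℘[L] (yhat y l))))
        = -∑ k, ∑ l, R L (yhat y k) (yhat y l) ^ 2 + 3 * (n - 1) * ∑ k, X k := a2
    rw [a2', hκ₂, ← hDe]
    generalize ∑ k, ε k ^ 2 = q
    generalize ∑ k, X k = xs
    generalize ∑ k, om L y k * ε k = oe
    generalize ∑ k, ∑ l, R L (yhat y k) (yhat y l) ^ 2 = w2
    field_simp
    ring

end

end Pool.Agent.Lib.MP_0b1044_mp
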