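import Mathlib

/-!
Representability of expressions in the jets of a homogeneous function by anti-commutators:
pure algebra.
-/

namespace Pool.Agent.Lib.MP_0b1044_mp

/-- jets of a function homogeneous of degree `κ`. -/
structure Data (n : ℕ) (κ : ℂ) where
  a : Fin n → ℂ
  h1 : Fin n → ℂ
  h2 : Fin n → Fin n → ℂ
  f0 : ℂ
  sym : ∀ i j, h2 i j = h2 j i
  euler1 : ∑ j, a j * h1 j = κ * f0
  euler2 : ∀ i, ∑ j, a j * h2 j i = (κ - 1) * h1 i

variable {n : ℕ} {κ : ℂ}

/-- the value of `{E_ij, E_kl}` on the jet. -/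
noncomputable def AC (d : Data n κ) (i j k l : Fin n) : ℂ :=
  d.a i * ((if j = k then d.h1 l else 0) + d.a k * d.h2 j l)
    + d.a k * ((if l = i then d.h1 j else 0) + d.a i * d.h2 l j)

/-- `Φ` is a linear combination of the `AC i j k l` -/
def IsRep (κ : ℂ) (Φ : Data n κ → ℂ) : Prop :=
  ∃ c : Fin n → Fin n → Fin n → Fin n → ℂ, ∀ d : Data n κ,
    Φ d = ∑ i, ∑ j, ∑ k, ∑ l, c i j k l * AC d i j k l

lemma IsRep.zero : IsRep κ (fun _ : Data n κ => 0) := ⟨fun _ _ _ _ => 0, fun d => by simp⟩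

lemma IsRep.add {Φ Ψ : Data n κ → ℂ} (h1 : IsRep κ Φ) (h2 : IsRep κ Ψ) :
    IsRep κ (fun d => Φ d + Ψ d) := by
  obtain ⟨c, hc⟩ := h1
  obtain ⟨c', hc'⟩ := h2
  refine ⟨fun i j k l => c i j k l + c' i j k l, fun d => ?_⟩
  simp only [hc, hc', add_mul, Finset.sum_add_distrib]

lemma IsRep.const_mul {Φ : Data n κ → ℂ} (t : ℂ) (h : IsRep κ Φ) :
    IsRep κ (fun d => t * Φ d) := by
  obtain ⟨c, hc⟩ := h
  refine ⟨fun i j k l => t * c i j k l, fun d => ?_⟩
  simp only [hc, Finset.mul_sum, mul_assoc]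

lemma IsRep.sum {ι : Type*} (s : Finset ι) {Φ : ι → Data n κ → ℂ} (h : ∀ i ∈ s, IsRep κ (Φ i)) :
    IsRep κ (fun d => ∑ i ∈ s, Φ i d) := by
  classical
  induction s using Finset.induction_on with
  | empty => simpa using IsRep.zero
  | insert a s ha ih =>
    have h1 := h a (Finset.mem_insert_self a s)
    have h2 := ih fun i hi => h i (Finset.mem_insert_of_mem hi)
    have := h1.add h2
    simpa only [Finset.sum_insert ha] using this

lemma IsRep.congr {Φ Ψ : Data n κ → ℂ} (h : IsRep κ Φ) (he : ∀ d, Ψ d = Φ d) : IsRep κ Ψ := by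
  obtain ⟨c, hc⟩ := h
  exact ⟨c, fun d => by rw [he, hc]⟩

/-- a single anti-commutator. -/
lemma IsRep.AC (i j k l : Fin n) : IsRep κ (fun d : Data n κ => AC d i j k l) := by
  classical
  refine ⟨fun i' j' k' l' => if i' = i ∧ j' = j ∧ k' = k ∧ l' = l then 1 else 0, fun d => ?_⟩
  rw [Finset.sum_eq_single i, Finset.sum_eq_single j, Finset.sum_eq_single k,
    Finset.sum_eq_single l]
  · simp
  · intro b _ hb; simp [hb]
  · intro h; exact absurd (Finset.mem_univ _) h
  · intro b _ hb; simp [hb]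
  · intro h; exact absurd (Finset.mem_univ _) h
  · intro b _ hb; simp [hb]
  · intro h; exact absurd (Finset.mem_univ _) h
  · intro b _ hb; simp [hb]
  · intro h; exact absurd (Finset.mem_univ _) h

/-- linear terms. -/
lemma IsRep.lin (hκ : κ ≠ 0 ∨ 3 ≤ n) (k j : Fin n) :
    IsRep κ (fun d : Data n κ => d.a k * d.h1 j) := by
  by_cases h0 : κ = 0
  · have hn : 3 ≤ n := by
      rcases hκ with h | h
      · exact absurd h0 h
      · exact h
    subst h0
    have h1 : IsRep 0 (fun d : Data n 0 => ∑ i, Pool.Agent.Lib.MP_0b1044_mp.AC d k i i j) :=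
      IsRep.sum _ fun i _ => IsRep.AC k i i j
    refine (h1.const_mul (1 / ((n : ℂ) - 2))).congr fun d => ?_
    have hn2 : (n : ℂ) - 2 ≠ 0 := by
      have : ((n - 2 : ℕ) : ℂ) ≠ 0 := by rw [Nat.cast_ne_zero]; omega
      rw [Nat.cast_sub (by omega)] at this
      simpa using this
    have e1 : ∑ i, Pool.Agent.Lib.MP_0b1044_mp.AC d k i i j
        = ∑ i, (d.a k * d.h1 j + d.a k * (d.a i * d.h2 i j) + (if j = k then d.a i * d.h1 i else 0)
          + d.a k * (d.a i * d.h2 i j)) := by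
      refine Finset.sum_congr rfl fun i _ => ?_
      simp only [Pool.Agent.Lib.MP_0b1044_mp.AC, if_true]
      rw [d.sym j i]
      split_ifs <;> ring
    rw [e1]
    simp only [Finset.sum_add_distrib, ← Finset.mul_sum, Finset.sum_const, Finset.card_univ,
      Fintype.card_fin, nsmul_eq_mul, d.euler2 j]
    have e2 : ∑ x, (if j = k then d.a x * d.h1 x else 0) = 0 := by
      split_ifs
      · rw [d.euler1]; ring
      · simp
    rw [e2]
    field_simp
    ring
  · have h1 : IsRep κ (fun d : Data n κ => ∑ i, Pool.Agent.Lib.MP_0b1044_mp.AC d i i k j) :=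
      IsRep.sum _ fun i _ => IsRep.AC i i k j
    refine (h1.const_mul (1 / (2 * κ))).congr fun d => ?_
    have e1 : ∑ i, Pool.Agent.Lib.MP_0b1044_mp.AC d i i k j
        = ∑ i, ((if i = k then d.a i * d.h1 j else 0) + d.a k * (d.a i * d.h2 i j)
          + (if j = i then d.a k * d.h1 i else 0) + d.a k * (d.a i * d.h2 i j)) := by
      refine Finset.sum_congr rfl fun i _ => ?_
      simp only [Pool.Agent.Lib.MP_0b1044_mp.AC]
      rw [d.sym j i]
      split_ifs <;> ring
    rw [e1]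
    simp only [Finset.sum_add_distrib, ← Finset.mul_sum, Finset.sum_ite_eq, Finset.sum_ite_eq',
      Finset.mem_univ, if_true, d.euler2 j]
    field_simp
    ring

/-- quadratic terms. -/
lemma IsRep.quad (hκ : κ ≠ 0 ∨ 3 ≤ n) (i j k l : Fin n) :
    IsRep κ (fun d : Data n κ => d.a k * d.a l * d.h2 i j) := by
  have h1 := (IsRep.AC (κ := κ) k i l j).const_mul (1 / 2)
  have h2 := (IsRep.lin hκ k j).const_mul (if i = l then (-1 / 2) else 0)
  have h3 := (IsRep.lin hκ l i).const_mul (if j = k then (-1 / 2) else 0)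
  refine ((h1.add h2).add h3).congr fun d => ?_
  simp only [Pool.Agent.Lib.MP_0b1044_mp.AC]
  rw [d.sym j i]
  split_ifs <;> ring

lemma IsRep.lin' (hκ : κ ≠ 0 ∨ 3 ≤ n) (u s : Fin n → ℂ) :
    IsRep κ (fun d : Data n κ => (∑ k, u k * d.a k) * ∑ j, s j * d.h1 j) := by
  have : IsRep κ (fun d : Data n κ => ∑ k, ∑ j, (u k * s j) * (d.a k * d.h1 j)) :=
    IsRep.sum _ fun k _ => IsRep.sum _ fun j _ => (IsRep.lin hκ k j).const_mul _
  refine this.congr fun d => ?_
  rw [Finset.sum_mul_sum]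
  exact Finset.sum_congr rfl fun k _ => Finset.sum_congr rfl fun j _ => by ring

lemma IsRep.quad' (hκ : κ ≠ 0 ∨ 3 ≤ n) (u w : Fin n → ℂ) (s : Fin n → Fin n → ℂ) :
    IsRep κ (fun d : Data n κ => (∑ k, u k * d.a k) * (∑ l, w l * d.a l)
      * ∑ i, ∑ j, s i j * d.h2 i j) := by
  have : IsRep κ (fun d : Data n κ => ∑ k, ∑ l, ∑ i, ∑ j, (u k * w l * s i j)
      * (d.a k * d.a l * d.h2 i j)) :=
    IsRep.sum _ fun k _ => IsRep.sum _ fun l _ => IsRep.sum _ fun i _ => IsRep.sum _ fun j _ =>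
      (IsRep.quad hκ i j k l).const_mul _
  refine this.congr fun d => ?_
  rw [Finset.sum_mul_sum, Finset.sum_mul]
  refine Finset.sum_congr rfl fun k _ => ?_
  rw [Finset.sum_mul]
  refine Finset.sum_congr rfl fun l _ => ?_
  rw [Finset.mul_sum]
  refine Finset.sum_congr rfl fun i _ => ?_
  rw [Finset.mul_sum]
  exact Finset.sum_congr rfl fun j _ => by ring

end Pool.Agent.Lib.MP_0b1044_mp
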