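import Mathlib
import Pool.Agent.Lib.MP_0b1044_mp.Rep

/-!
Linear algebra: passage to interpolation coordinates and Euler's identity.
-/

namespace Pool.Agent.Lib.MP_0b1044_mp

open Matrix

variable {n : ℕ} {κ : ℂ}

/-- parameters of the final operator. -/
structure Par (n : ℕ) where
  Q : Matrix (Fin n) (Fin n) ℂ
  Q1 : Matrix (Fin n) (Fin n) ℂ
  Q2 : Matrix (Fin n) (Fin n) ℂ
  Qi : Matrix (Fin n) (Fin n) ℂ
  hQ : Qi * Q = 1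
  Rm : Fin n → Fin n → ℂ
  P : Fin n → ℂ
  ν : ℂ

variable (P : Par n)

/-- `M_{pq}` -/
noncomputable def Mpq (a : Fin n → ℂ) (p q : Fin n) : ℂ :=
  if p = q then (P.Q1 *ᵥ a) p * (P.Q1 *ᵥ a) p - (P.Q *ᵥ a) p * (P.Q2 *ᵥ a) p
      - 1 / P.ν * ((P.Q1 *ᵥ a) p * (P.Q1 *ᵥ a) p)
  else -(P.Rm p q) * ((P.Q1 *ᵥ a) p * (P.Q *ᵥ a) q - (P.Q *ᵥ a) p * (P.Q1 *ᵥ a) q)
      - 1 / P.ν * ((P.Q1 *ᵥ a) p * (P.Q1 *ᵥ a) q)

/-- `N_p` -/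
noncomputable def Np (a : Fin n → ℂ) (p : Fin n) : ℂ :=
  -(1 / P.ν) * (P.Q2 *ᵥ a) p - (P.ν - 1) * P.P p * (P.Q *ᵥ a) p

/-- the final expression. -/
noncomputable def Efin (d : Data n κ) : ℂ :=
  (∑ p, ∑ q, (P.Qiᵀ * Matrix.of d.h2 * P.Qi) p q * Mpq P d.a p q)
    + (1 - κ) * ∑ p, (P.Qiᵀ *ᵥ d.h1) p * Np P d.a p

lemma conj_apply (h2 : Fin n → Fin n → ℂ) (p q : Fin n) :
    (P.Qiᵀ * Matrix.of h2 * P.Qi) p q = ∑ i, ∑ j, P.Qi i p * P.Qi j q * h2 i j := by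
  simp only [Matrix.mul_apply, Matrix.transpose_apply, Matrix.of_apply, Finset.sum_mul]
  rw [Finset.sum_comm]
  exact Finset.sum_congr rfl fun i _ => Finset.sum_congr rfl fun j _ => by ring

lemma rep_quadM (hκ : κ ≠ 0 ∨ 3 ≤ n) (A B : Matrix (Fin n) (Fin n) ℂ) (p q r s : Fin n) :
    IsRep κ (fun d : Data n κ => (P.Qiᵀ * Matrix.of d.h2 * P.Qi) p q
      * ((A *ᵥ d.a) r * (B *ᵥ d.a) s)) := by
  refine (IsRep.quad' hκ (fun k => A r k) (fun l => B s l)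
    (fun i j => P.Qi i p * P.Qi j q)).congr fun d => ?_
  rw [conj_apply]
  simp only [Matrix.mulVec, dotProduct]
  ring

lemma rep_linM (hκ : κ ≠ 0 ∨ 3 ≤ n) (A : Matrix (Fin n) (Fin n) ℂ) (p r : Fin n) :
    IsRep κ (fun d : Data n κ => (P.Qiᵀ *ᵥ d.h1) p * (A *ᵥ d.a) r) := by
  refine (IsRep.lin' hκ (fun k => A r k) (fun j => P.Qi j p)).congr fun d => ?_
  simp only [Matrix.transpose_apply, Matrix.mulVec, dotProduct]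
  ring

lemma Efin_rep (hκ : κ ≠ 0 ∨ 3 ≤ n) : IsRep κ (Efin P : Data n κ → ℂ) := by
  have h1 : ∀ p q, IsRep κ (fun d : Data n κ =>
      (P.Qiᵀ * Matrix.of d.h2 * P.Qi) p q * Mpq P d.a p q) := by
    intro p q
    by_cases hpq : p = q
    · refine (((rep_quadM P hκ P.Q1 P.Q1 p q p p).const_mul (1 - 1 / P.ν)).add
        ((rep_quadM P hκ P.Q P.Q2 p q p p).const_mul (-1))).congr fun d => ?_
      rw [Mpq, if_pos hpq]; ring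
    · refine ((((rep_quadM P hκ P.Q1 P.Q p q p q).const_mul (-(P.Rm p q))).add
        ((rep_quadM P hκ P.Q P.Q1 p q p q).const_mul (P.Rm p q))).add
        ((rep_quadM P hκ P.Q1 P.Q1 p q p q).const_mul (-(1 / P.ν)))).congr fun d => ?_
      rw [Mpq, if_neg hpq]; ring
  have h2 : ∀ p, IsRep κ (fun d : Data n κ => (P.Qiᵀ *ᵥ d.h1) p * Np P d.a p) := by
    intro p
    refine (((rep_linM P hκ P.Q2 p p).const_mul (-(1 / P.ν))).add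
      ((rep_linM P hκ P.Q p p).const_mul (-((P.ν - 1) * P.P p)))).congr fun d => ?_
    rw [Np]; ring
  refine ((IsRep.sum Finset.univ fun p _ => IsRep.sum Finset.univ fun q _ => h1 p q).add
    ((IsRep.sum Finset.univ fun p _ => h2 p).const_mul (1 - κ))).congr fun d => ?_
  rfl

lemma sum_sum_mul_eq_trace (A B : Matrix (Fin n) (Fin n) ℂ) :
    ∑ p, ∑ q, A p q * B p q = trace (Aᵀ * B) := by
  simp only [trace, diag_apply, Matrix.mul_apply, transpose_apply]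
  rw [Finset.sum_comm]

lemma Efin_eq (d : Data n κ) (S : Matrix (Fin n) (Fin n) ℂ) (B α : Fin n → ℂ) (κ₂ Z : ℂ)
    (hS : ∀ p q, (P.Q * S * P.Qᵀ) p q = Mpq P d.a p q + α p * (P.Q *ᵥ d.a) q
      + (P.Q *ᵥ d.a) p * α q)
    (hB : ∀ p, (P.Q *ᵥ B) p = (1 - κ) * (Np P d.a p + 2 * α p) + κ₂ * (P.Q *ᵥ d.a) p)
    (hZ : Z = -κ * κ₂) :
    (∑ i, ∑ j, d.h2 i j * S i j) + (∑ i, d.h1 i * B i) + d.f0 * Z = Efin P d := by
  have hQ' : P.Q * P.Qi = 1 := mul_eq_one_comm.mp P.hQ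
  have hQt : P.Qᵀ * P.Qiᵀ = 1 := by rw [← transpose_mul, P.hQ, transpose_one]
  have hQt' : P.Qiᵀ * P.Qᵀ = 1 := by rw [← transpose_mul, hQ', transpose_one]
  set h2 : Matrix (Fin n) (Fin n) ℂ := Matrix.of d.h2 with hh2
  -- quadratic part
  have e1 : ∑ i, ∑ j, d.h2 i j * S i j
      = ∑ p, ∑ q, (P.Qiᵀ * h2 * P.Qi) p q * (P.Q * S * P.Qᵀ) p q := by
    have : ∑ i, ∑ j, d.h2 i j * S i j = ∑ i, ∑ j, h2 i j * S i j := rfl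
    rw [this, sum_sum_mul_eq_trace, sum_sum_mul_eq_trace]
    have e : (P.Qiᵀ * h2 * P.Qi)ᵀ * (P.Q * S * P.Qᵀ) = P.Qiᵀ * (h2ᵀ * S) * P.Qᵀ := by
      rw [transpose_mul, transpose_mul, transpose_transpose]
      calc P.Qiᵀ * (h2ᵀ * P.Qi) * (P.Q * S * P.Qᵀ)
          = P.Qiᵀ * (h2ᵀ * ((P.Qi * P.Q) * S)) * P.Qᵀ := by simp only [Matrix.mul_assoc]
        _ = _ := by rw [P.hQ, Matrix.one_mul]
    rw [e, trace_mul_comm (P.Qiᵀ * (h2ᵀ * S)) P.Qᵀ, ← Matrix.mul_assoc, hQt, Matrix.one_mul]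
  -- linear part
  have e2 : ∑ i, d.h1 i * B i = ∑ p, (P.Qiᵀ *ᵥ d.h1) p * (P.Q *ᵥ B) p := by
    have : ∑ p, (P.Qiᵀ *ᵥ d.h1) p * (P.Q *ᵥ B) p = (P.Qiᵀ *ᵥ d.h1) ⬝ᵥ (P.Q *ᵥ B) := rfl
    rw [this, dotProduct_mulVec, mulVec_transpose, vecMul_vecMul, P.hQ, vecMul_one]
    rfl
  -- Euler
  have e3 : ∑ p, (P.Qiᵀ *ᵥ d.h1) p * (P.Q *ᵥ d.a) p = κ * d.f0 := by
    have : ∑ p, (P.Qiᵀ *ᵥ d.h1) p * (P.Q *ᵥ d.a) p = (P.Qiᵀ *ᵥ d.h1) ⬝ᵥ (P.Q *ᵥ d.a) := rfl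
    rw [this, dotProduct_mulVec, mulVec_transpose, vecMul_vecMul, P.hQ, vecMul_one,
      dotProduct_comm]
    exact d.euler1
  have hsym : h2ᵀ = h2 := by
    ext i j; exact d.sym j i
  have ha : h2 *ᵥ d.a = (κ - 1) • d.h1 := by
    ext i
    rw [Pi.smul_apply, smul_eq_mul, ← d.euler2 i]
    simp only [mulVec, dotProduct, hh2, of_apply]
    exact Finset.sum_congr rfl fun j _ => by rw [d.sym i j, mul_comm]
  have e4 : ∀ p, ∑ q, (P.Qiᵀ * h2 * P.Qi) p q * (P.Q *ᵥ d.a) q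
      = (κ - 1) * (P.Qiᵀ *ᵥ d.h1) p := by
    intro p
    have : ∑ q, (P.Qiᵀ * h2 * P.Qi) p q * (P.Q *ᵥ d.a) q
        = ((P.Qiᵀ * h2 * P.Qi) *ᵥ (P.Q *ᵥ d.a)) p := rfl
    rw [this, mulVec_mulVec, Matrix.mul_assoc, P.hQ, Matrix.mul_one, ← mulVec_mulVec, ha,
      mulVec_smul]
    rfl
  have hHsym : ∀ p q, (P.Qiᵀ * h2 * P.Qi) p q = (P.Qiᵀ * h2 * P.Qi) q p := by
    intro p q
    have : (P.Qiᵀ * h2 * P.Qi)ᵀ = P.Qiᵀ * h2 * P.Qi := by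
      rw [transpose_mul, transpose_mul, transpose_transpose, hsym, Matrix.mul_assoc]
    rw [← this, transpose_apply, this]
  rw [e1, e2, Efin]
  simp only [hS, hB, mul_add, Finset.sum_add_distrib]
  have e5 : ∑ p, ∑ q, (P.Qiᵀ * h2 * P.Qi) p q * (α p * (P.Q *ᵥ d.a) q)
      = (κ - 1) * ∑ p, (P.Qiᵀ *ᵥ d.h1) p * α p := by
    rw [Finset.mul_sum]
    refine Finset.sum_congr rfl fun p _ => ?_
    calc ∑ q, (P.Qiᵀ * h2 * P.Qi) p q * (α p * (P.Q *ᵥ d.a) q)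
        = α p * ∑ q, (P.Qiᵀ * h2 * P.Qi) p q * (P.Q *ᵥ d.a) q := by
          rw [Finset.mul_sum]
          exact Finset.sum_congr rfl fun q _ => by ring
      _ = _ := by rw [e4 p]; ring
  have e6 : ∑ p, ∑ q, (P.Qiᵀ * h2 * P.Qi) p q * ((P.Q *ᵥ d.a) p * α q)
      = (κ - 1) * ∑ p, (P.Qiᵀ *ᵥ d.h1) p * α p := by
    rw [Finset.sum_comm, ← e5]
    refine Finset.sum_congr rfl fun p _ => Finset.sum_congr rfl fun q _ => ?_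
    rw [hHsym q p]; ring
  rw [e5, e6]
  have e7 : ∑ p, (P.Qiᵀ *ᵥ d.h1) p * ((1 - κ) * Np P d.a p)
      = (1 - κ) * ∑ p, (P.Qiᵀ *ᵥ d.h1) p * Np P d.a p := by
    rw [Finset.mul_sum]; exact Finset.sum_congr rfl fun p _ => by ring
  have e8 : ∑ p, (P.Qiᵀ *ᵥ d.h1) p * ((1 - κ) * (2 * α p))
      = 2 * (1 - κ) * ∑ p, (P.Qiᵀ *ᵥ d.h1) p * α p := by
    rw [Finset.mul_sum]; exact Finset.sum_congr rfl fun p _ => by ring
  have e9 : ∑ p, (P.Qiᵀ *ᵥ d.h1) p * (κ₂ * (P.Q *ᵥ d.a) p) = κ₂ * (κ * d.f0) := by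
    rw [← e3, Finset.mul_sum]; exact Finset.sum_congr rfl fun p _ => by ring
  rw [e7, e8, e9, hZ]
  ring

end Pool.Agent.Lib.MP_0b1044_mp
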