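import Mathlib
import Pool.Agent.Lib.MP_0b1044_mp.Eps
import Pool.Agent.Lib.MP_0b1044_mp.Lin

/-!
Interpolation points.
-/

namespace Pool.Agent.Lib.MP_0b1044_mp

open PeriodPair Filter Topology Polynomial

variable {L : PeriodPair} {N : ℕ}

/-- Nonzero pairs do not vanish identically off a finite set of values of `wp`. -/
lemma exists_point (s : Finset ℂ) {v : ℂ[X] × ℂ[X]} (hv : v ≠ 0) :
    ∃ z, z ∉ L.lattice ∧ (∀ x ∈ s, ℘[L] z ≠ x) ∧ ev L v z ≠ 0 := by
  by_contra hcon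
  push Not at hcon
  have hcomp : ∀ᶠ z in 𝓝[≠] (0 : ℂ), z ∉ L.lattice ∧ ∀ x ∈ s, ℘[L] z ≠ x := by
    have h1 : ∀ᶠ z in 𝓝[≠] (0 : ℂ), ∀ x ∈ s, ℘[L] z ≠ x := by
      rw [eventually_all_finset]
      intro k _
      have := eventually_eval_ne_zero (L := L) (X_sub_C_ne_zero k)
      filter_upwards [this] with z hz h0
      rw [eval_sub, eval_X, eval_C, h0, sub_self] at hz
      exact hz rfl
    filter_upwards [h1, eventually_notMem_lattice (L := L)] with z a b using ⟨b, a⟩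
  have hcomp_neg : ∀ z, (z ∉ L.lattice ∧ ∀ x ∈ s, ℘[L] z ≠ x) →
      (-z ∉ L.lattice ∧ ∀ x ∈ s, ℘[L] (-z) ≠ x) := by
    intro z hz
    refine ⟨by rw [neg_mem_iff]; exact hz.1, fun k hk => ?_⟩
    rw [L.weierstrassP_neg]; exact hz.2 k hk
  have hwp' : ∀ᶠ z in 𝓝[≠] (0 : ℂ), ℘'[L] z ≠ 0 := by
    have := (tendsto_cube_mul_wp' (L := L)).eventually_ne (show (-2 : ℂ) ≠ 0 by norm_num)
    filter_upwards [this] with t ht h0
    rw [h0] at ht; simp at ht
  have key : ∀ᶠ z in 𝓝[≠] (0 : ℂ), v.1.eval (℘[L] z) = 0 ∧ v.2.eval (℘[L] z) = 0 := by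
    filter_upwards [hcomp, hwp'] with z hz hz'
    have h1 := hcon z hz.1 hz.2
    have h2 := hcon (-z) (hcomp_neg z hz).1 (hcomp_neg z hz).2
    simp only [ev, L.weierstrassP_neg, L.derivWeierstrassP_neg] at h1 h2
    have h3 : v.1.eval (℘[L] z) = 0 := by linear_combination (h1 + h2) / 2
    refine ⟨h3, ?_⟩
    have h4 : v.2.eval (℘[L] z) * ℘'[L] z = 0 := by linear_combination (h1 - h2) / 2
    exact (mul_eq_zero.mp h4).resolve_right hz'
  have hp : v.1 = 0 := by
    by_contra hp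
    obtain ⟨z, hz1, hz2⟩ := (key.and (eventually_eval_ne_zero (L := L) hp)).exists
    exact hz2 hz1.1
  have hq : v.2 = 0 := by
    by_contra hq
    obtain ⟨z, hz1, hz2⟩ := (key.and (eventually_eval_ne_zero (L := L) hq)).exists
    exact hz2 hz1.2
  exact hv (Prod.ext hp hq)

/-- The generalised Vandermonde matrix. -/
noncomputable def vdm (L : PeriodPair) (n : ℕ) (z : Fin n → ℂ) : Matrix (Fin n) (Fin n) ℂ :=
  Matrix.of fun p i => ev L (phi L.g₂ L.g₃ i) (z p)

/-- the phi's are linearly independent: a combination with nonzero last coefficient. -/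
lemma combo_ne_zero (g2 g3 : ℂ) (n : ℕ) (c : Fin (n + 1) → ℂ) (hc : c (Fin.last n) ≠ 0) :
    ∑ j, c j • phi g2 g3 j ≠ 0 := by
  intro h0
  rw [Fin.sum_univ_castSucc] at h0
  rcases Nat.eq_zero_or_pos n with hn | hn
  · subst hn
    simp only [Finset.univ_eq_empty, Finset.sum_empty, zero_add] at h0
    have : (c (Fin.last 0) • phi g2 g3 (Fin.last 0 : Fin 1)).1.coeff 0 = 0 := by rw [h0]; simp
    simp [phi_zero] at this
    exact hc (by simpa using this)
  · have h1 : ∑ i : Fin n, c (Fin.castSucc i) • phi g2 g3 (Fin.castSucc i : Fin (n + 1))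
        ∈ Wsp n := by
      refine sum_mem fun j _ => Submodule.smul_mem _ _ ?_
      exact Wsp_mono (by simp) (phi_mem g2 g3 j)
    have h2 := lc_of_mem (n := n) h1 hn
    have h3 : lc (n + 1) (∑ i : Fin n, c (Fin.castSucc i) • phi g2 g3 (Fin.castSucc i : Fin (n + 1))
        + c (Fin.last n) • phi g2 g3 (Fin.last n : Fin (n + 1))) = 0 := by rw [h0, lc_zero]
    rw [lc_add, h2, lc_smul, zero_add, Fin.val_last] at h3
    exact (mul_ne_zero hc (lc_phi_ne_zero g2 g3 hn)) h3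

lemma exists_interp (L : PeriodPair) (n : ℕ) : ∃ z : Fin n → ℂ, (∀ p, z p ∉ L.lattice) ∧
    (∀ p q, p ≠ q → ℘[L] (z p) ≠ ℘[L] (z q)) ∧ (vdm L n z).det ≠ 0 := by
  induction n with
  | zero => exact ⟨Fin.elim0, fun p => p.elim0, fun p => p.elim0, by simp⟩
  | succ n ih =>
    obtain ⟨z, hz1, hz2, hz3⟩ := ih
    set c : Fin (n + 1) → ℂ := fun j => (-1) ^ ((Fin.last n : Fin (n + 1)) + j : ℕ)
      * (Matrix.of fun p i => ev L (phi L.g₂ L.g₃ (j.succAbove i : Fin (n + 1))) (z p)).det with hc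
    have hcl : c (Fin.last n) ≠ 0 := by
      rw [hc]
      refine mul_ne_zero (pow_ne_zero _ (by norm_num)) ?_
      convert hz3 using 2
      ext p i
      simp [vdm, Fin.succAbove_last]
    obtain ⟨w, hw1, hw2, hw3⟩ := exists_point (L := L) (Finset.univ.image fun p => ℘[L] (z p))
      (combo_ne_zero L.g₂ L.g₃ n c hcl)
    refine ⟨Fin.snoc z w, ?_, ?_, ?_⟩
    · intro p
      induction p using Fin.lastCases with
      | last => simpa using hw1
      | cast i => simpa using hz1 i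
    · have hw2' : ∀ p, ℘[L] w ≠ ℘[L] (z p) := fun p =>
        hw2 _ (Finset.mem_image_of_mem _ (Finset.mem_univ p))
      intro p q hpq
      induction p using Fin.lastCases with
      | last =>
        induction q using Fin.lastCases with
        | last => exact absurd rfl hpq
        | cast j => simpa using hw2' j
      | cast i =>
        induction q using Fin.lastCases with
        | last => simpa using (hw2' i).symm
        | cast j =>
          simp only [Fin.snoc_castSucc]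
          exact hz2 i j fun h => hpq (by rw [h])
    · rw [Matrix.det_succ_row _ (Fin.last n)]
      have : ∑ j : Fin (n + 1), (-1) ^ ((Fin.last n : Fin (n + 1)) + j : ℕ)
          * vdm L (n + 1) (Fin.snoc z w) (Fin.last n) j
          * ((vdm L (n + 1) (Fin.snoc z w)).submatrix (Fin.last n).succAbove j.succAbove).det
          = ev L (∑ j, c j • phi L.g₂ L.g₃ j) w := by
        rw [ev_sum]
        refine Finset.sum_congr rfl fun j _ => ?_
        rw [ev_smul, hc]
        have e1 : (vdm L (n + 1) (Fin.snoc z w)).submatrix (Fin.last n).succAbove j.succAbove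
            = Matrix.of fun p i => ev L (phi L.g₂ L.g₃ (j.succAbove i : Fin (n + 1))) (z p) := by
          ext p i
          simp [vdm, Fin.succAbove_last]
        rw [e1]
        simp only [vdm, Matrix.of_apply, Fin.snoc_last]
        ring
      rw [this]
      exact hw3

/-- The parameters attached to interpolation points. -/
noncomputable def parOf (L : PeriodPair) (N : ℕ) (z : Fin (N + 1) → ℂ)
    (hz : (vdm L (N + 1) z).det ≠ 0) : Par (N + 1) where
  Q := vdm L (N + 1) z * Matrix.diagonal (Fin.cons 1 fun _ => -1)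
  Q1 := Matrix.of fun p => Fin.cons 0 fun j : Fin N => -iteratedDeriv (j + 1) ℘[L] (z p)
  Q2 := Matrix.of fun p => Fin.cons 0 fun j : Fin N => -iteratedDeriv (j + 2) ℘[L] (z p)
  Qi := (vdm L (N + 1) z * Matrix.diagonal (Fin.cons 1 fun _ => -1))⁻¹
  hQ := by
    apply Matrix.nonsing_inv_mul
    rw [isUnit_iff_ne_zero, Matrix.det_mul, Matrix.det_diagonal]
    refine mul_ne_zero hz (Finset.prod_ne_zero_iff.mpr fun i _ => ?_)
    refine Fin.cases ?_ (fun j => ?_) i <;> simp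
  Rm := fun p q => R L (z p) (z q)
  P := fun p => ℘[L] (z p)
  ν := (N : ℂ) + 1

section

variable {z : Fin (N + 1) → ℂ} {hz : (vdm L (N + 1) z).det ≠ 0}

lemma parOf_Q (hz1 : ∀ p, z p ∉ L.lattice) (p : Fin (N + 1)) (a : Fin (N + 1) → ℂ) :
    ((parOf L N z hz).Q.mulVec a) p
      = a 0 + ∑ j : Fin N, (-iteratedDeriv j ℘[L] (z p)) * a j.succ := by
  have : ((parOf L N z hz).Q.mulVec a) p
      = ∑ i, (vdm L (N + 1) z * Matrix.diagonal (Fin.cons 1 fun _ => -1) :
        Matrix (Fin (N + 1)) (Fin (N + 1)) ℂ) p i * a i := rfl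
  rw [this, Fin.sum_univ_succ]
  simp only [Matrix.mul_diagonal, Fin.cons_zero, Fin.cons_succ, vdm, Matrix.of_apply,
    Fin.val_zero, Fin.val_succ, ev_phi_zero, ev_phi_succ _ (hz1 p)]
  simp

lemma parOf_Q1 (p : Fin (N + 1)) (a : Fin (N + 1) → ℂ) :
    ((parOf L N z hz).Q1.mulVec a) p
      = ∑ j : Fin N, (-iteratedDeriv (j + 1) ℘[L] (z p)) * a j.succ := by
  have : ((parOf L N z hz).Q1.mulVec a) p
      = ∑ i, (Fin.cons 0 fun j : Fin N => -iteratedDeriv (j + 1) ℘[L] (z p) :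
        Fin (N + 1) → ℂ) i * a i := rfl
  rw [this, Fin.sum_univ_succ]
  simp

lemma parOf_Q2 (p : Fin (N + 1)) (a : Fin (N + 1) → ℂ) :
    ((parOf L N z hz).Q2.mulVec a) p
      = ∑ j : Fin N, (-iteratedDeriv (j + 2) ℘[L] (z p)) * a j.succ := by
  have : ((parOf L N z hz).Q2.mulVec a) p
      = ∑ i, (Fin.cons 0 fun j : Fin N => -iteratedDeriv (j + 2) ℘[L] (z p) :
        Fin (N + 1) → ℂ) i * a i := rfl
  rw [this, Fin.sum_univ_succ]
  simp

end

lemma ev_Dp_Fp_eq {y : Fin N → ℂ} {z : ℂ} (hz : z ∉ L.lattice) :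
    ev L (Dp L.g₂ L.g₃ (Fp L y)) z
      = ∑ j : Fin N, (-iteratedDeriv (j + 1) ℘[L] z) * uvar L y j := by
  rw [Fp, Dp_add, Dp_phi_zero, zero_add, Dp_sum, ev_sum]
  refine Finset.sum_congr rfl fun j _ => ?_
  rw [Dp_smul, Dp_phi_succ, ev_smul, ev_phi_succ _ hz]
  ring

lemma ev_Dp_Dp_Fp_eq {y : Fin N → ℂ} {z : ℂ} (hz : z ∉ L.lattice) :
    ev L (Dp L.g₂ L.g₃ (Dp L.g₂ L.g₃ (Fp L y))) z
      = ∑ j : Fin N, (-iteratedDeriv (j + 2) ℘[L] z) * uvar L y j := by
  rw [Fp, Dp_add, Dp_phi_zero, zero_add, Dp_sum, Dp_sum, ev_sum]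
  refine Finset.sum_congr rfl fun j _ => ?_
  rw [Dp_smul, Dp_phi_succ, Dp_smul, show (j : ℕ) + 2 = (j + 1) + 1 by ring, Dp_phi_succ, ev_smul,
    ev_phi_succ _ hz]
  ring

end Pool.Agent.Lib.MP_0b1044_mp
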