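import Mathlib
import Pool.Agent.Lib.MP_0b1044_mp.Interp
import Pool.Agent.Lib.MP_0b1044_mp.JacDeriv

/-!
The jet of a function of `u`, homogenised.
-/

namespace Pool.Agent.Lib.MP_0b1044_mp

open Filter Topology

variable {N : ℕ}

/-- homogeneous coordinates. -/
noncomputable def hom {N : ℕ} (u : Fin N → ℂ) : Fin (N + 1) → ℂ := Fin.cons 1 u

/-- lowering operators. -/
noncomputable def low {N : ℕ} (κ : ℂ) (f : (Fin N → ℂ) → ℂ) (u : Fin N → ℂ) : Fin (N + 1) → ℂ :=
  Fin.cons (-(∑ k, u k * pd k f u) + κ * f u) (fun k => pd k f u)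

@[simp] lemma hom_zero (u : Fin N → ℂ) : hom u 0 = 1 := rfl
@[simp] lemma hom_succ (u : Fin N → ℂ) (j : Fin N) : hom u j.succ = u j := rfl
@[simp] lemma low_zero (κ : ℂ) (f : (Fin N → ℂ) → ℂ) (u : Fin N → ℂ) :
    low κ f u 0 = -(∑ k, u k * pd k f u) + κ * f u := rfl
@[simp] lemma low_succ (κ : ℂ) (f : (Fin N → ℂ) → ℂ) (u : Fin N → ℂ) (j : Fin N) :
    low κ f u j.succ = pd j f u := rfl

lemma Eop_eq (κ : ℂ) (i j : Fin (N + 1)) (f : (Fin N → ℂ) → ℂ) :
    Eop κ i j f = fun u => hom u i * low κ f u j := rfl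

variable {κ : ℂ} {f g : (Fin N → ℂ) → ℂ} {u : Fin N → ℂ}

lemma analyticAt_coord (k : Fin N) : AnalyticAt ℂ (fun x : Fin N → ℂ => x k) u :=
  (ContinuousLinearMap.proj (R := ℂ) (φ := fun _ : Fin N => ℂ) k).analyticAt u

lemma analyticAt_hom (i : Fin (N + 1)) : AnalyticAt ℂ (fun x : Fin N → ℂ => hom x i) u := by
  refine Fin.cases ?_ (fun j => ?_) i
  · simp only [hom_zero]; exact analyticAt_const
  · simp only [hom_succ]; exact analyticAt_coord j

lemma analyticAt_pd (hf : AnalyticAt ℂ f u) (k : Fin N) : AnalyticAt ℂ (pd k f) u := by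
  have : pd k f = dd (Pi.single k 1) f := rfl
  rw [this]
  exact analyticAt_dd hf

lemma analyticAt_low (hf : AnalyticAt ℂ f u) (i : Fin (N + 1)) :
    AnalyticAt ℂ (fun x => low κ f x i) u := by
  refine Fin.cases ?_ (fun j => ?_) i
  · simp only [low_zero]
    refine (Finset.analyticAt_fun_sum _ fun k _ => ?_).neg.add (analyticAt_const.mul hf)
    exact (analyticAt_coord k).mul (analyticAt_pd hf k)
  · simp only [low_succ]; exact analyticAt_pd hf j

lemma analyticAt_Eop (hf : AnalyticAt ℂ f u) (i j : Fin (N + 1)) :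
    AnalyticAt ℂ (Eop κ i j f) u := by
  rw [Eop_eq]
  exact (analyticAt_hom i).mul (analyticAt_low hf j)

lemma analyticAt_anti (hf : AnalyticAt ℂ f u) (i j k l : Fin (N + 1)) :
    AnalyticAt ℂ (anti (Eop κ i j) (Eop κ k l) f) u := by
  unfold anti
  exact (analyticAt_Eop (analyticAt_Eop hf k l) i j).add (analyticAt_Eop (analyticAt_Eop hf i j) k l)

lemma pd_coord (k m : Fin N) : pd k (fun x : Fin N → ℂ => x m) u = if k = m then 1 else 0 := by
  have h : HasDerivAt (fun t : ℂ => (u + t • (Pi.single k 1 : Fin N → ℂ)) m)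
      ((Pi.single k 1 : Fin N → ℂ) m) 0 := by
    simp only [Pi.add_apply, Pi.smul_apply, smul_eq_mul]
    simpa using ((hasDerivAt_id (0 : ℂ)).mul_const ((Pi.single k 1 : Fin N → ℂ) m)).const_add (u m)
  have h2 : pd k (fun x : Fin N → ℂ => x m) u = (Pi.single k 1 : Fin N → ℂ) m :=
    dd_eq_of_hasDerivAt h
  rw [h2, Pi.single_apply]
  by_cases hkm : k = m
  · rw [if_pos hkm, if_pos hkm.symm]
  · rw [if_neg hkm, if_neg (Ne.symm hkm)]

lemma pd_mul (hf : DifferentiableAt ℂ f u) (hg : DifferentiableAt ℂ g u) (k : Fin N) :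
    pd k (fun x => f x * g x) u = pd k f u * g u + f u * pd k g u := dd_mul hf hg

lemma pd_comm (hf : AnalyticAt ℂ f u) (k l : Fin N) : pd k (pd l f) u = pd l (pd k f) u :=
  dd_comm hf

/-- Leibniz rule in homogeneous form. -/
lemma low_hom_mul (hg : DifferentiableAt ℂ g u) (k j : Fin (N + 1)) :
    low κ (fun x => hom x k * g x) u j
      = (if j = k then g u else 0) + hom u k * low (κ - 1) g u j := by
  refine Fin.cases ?_ (fun k => ?_) k
  · simp only [hom_zero, one_mul]
    refine Fin.cases ?_ (fun j => ?_) j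
    · simp only [low_zero, if_true]; ring
    · simp only [low_succ]
      rw [if_neg (Fin.succ_ne_zero j), zero_add]
  · simp only [hom_succ]
    have hm : ∀ m, pd m (fun x => x k * g x) u = (if m = k then g u else 0) + u k * pd m g u := by
      intro m
      rw [pd_mul (analyticAt_coord k).differentiableAt hg, pd_coord]
      split_ifs <;> ring
    refine Fin.cases ?_ (fun j => ?_) j
    · simp only [low_zero, hm]
      rw [if_neg (Ne.symm (Fin.succ_ne_zero k)), zero_add]
      simp only [mul_add, Finset.sum_add_distrib, mul_ite, mul_zero, Finset.sum_ite_eq',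
        Finset.mem_univ, if_true]
      have : ∑ x, u x * (u k * pd x g u) = u k * ∑ x, u x * pd x g u := by
        rw [Finset.mul_sum]; exact Finset.sum_congr rfl fun i _ => by ring
      rw [this]; ring
    · simp only [low_succ, hm, Fin.succ_inj]

lemma low_sym (hf : AnalyticAt ℂ f u) (j l : Fin (N + 1)) :
    low (κ - 1) (fun x => low κ f x l) u j = low (κ - 1) (fun x => low κ f x j) u l := by
  have key : ∀ m : Fin N, pd m (fun x => -(∑ k, x k * pd k f x) + κ * f x) u
      = -(∑ k, u k * pd k (pd m f) u) + (κ - 1) * pd m f u := by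
    intro m
    have hd : ∀ k : Fin N, DifferentiableAt ℂ (fun x : Fin N → ℂ => x k * pd k f x) u := fun k =>
      ((analyticAt_coord k).mul (analyticAt_pd hf k)).differentiableAt
    have hs : DifferentiableAt ℂ (fun x => ∑ k, x k * pd k f x) u :=
      DifferentiableAt.fun_sum fun k _ => hd k
    have e0 : (fun x => -(∑ k, x k * pd k f x) + κ * f x)
        = fun x => (-1) * (∑ k, x k * pd k f x) + κ * f x := by
      ext x; ring
    rw [e0]
    have e1 : pd m (fun x => (-1) * (∑ k, x k * pd k f x) + κ * f x) u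
        = (-1) * (∑ k, pd m (fun x => x k * pd k f x) u) + κ * pd m f u := by
      have := dd_add (v := Pi.single m 1) (hs.const_mul (-1)) (hf.differentiableAt.const_mul κ)
      have h2 := dd_const_mul (v := Pi.single m 1) (-1) hs
      have h3 := dd_const_mul (v := Pi.single m 1) κ hf.differentiableAt
      have h4 := dd_sum (v := Pi.single m 1) (y := u) Finset.univ
        (F := fun (k : Fin N) (x : Fin N → ℂ) => x k * pd k f x) (fun k _ => hd k)
      rw [h2, h3, h4] at this
      exact this
    rw [e1]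
    have e2 : ∀ k, pd m (fun x => x k * pd k f x) u
        = (if m = k then pd k f u else 0) + u k * pd k (pd m f) u := by
      intro k
      rw [pd_mul (analyticAt_coord k).differentiableAt (analyticAt_pd hf k).differentiableAt,
        pd_coord, pd_comm hf m k]
      split_ifs <;> ring
    simp only [e2, Finset.sum_add_distrib, Finset.sum_ite_eq, Finset.mem_univ, if_true]
    ring
  refine Fin.cases ?_ (fun j => ?_) j
  · refine Fin.cases rfl (fun l => ?_) l
    simp only [low_zero, low_succ]
    rw [key l]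
  · refine Fin.cases ?_ (fun l => ?_) l
    · simp only [low_zero, low_succ]
      rw [key j]
    · simp only [low_succ]
      exact pd_comm hf j l

lemma euler (κ : ℂ) (g : (Fin N → ℂ) → ℂ) (u : Fin N → ℂ) :
    ∑ j, hom u j * low κ g u j = κ * g u := by
  rw [Fin.sum_univ_succ]
  simp only [hom_zero, hom_succ, low_zero, low_succ]
  ring

/-- the jet. -/
noncomputable def jet (κ : ℂ) (f : (Fin N → ℂ) → ℂ) (u : Fin N → ℂ) (hf : AnalyticAt ℂ f u) :
    Data (N + 1) κ where
  a := hom u
  h1 := low κ f u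
  h2 := fun j l => low (κ - 1) (fun x => low κ f x l) u j
  f0 := f u
  sym := fun j l => low_sym hf j l
  euler1 := euler κ f u
  euler2 := fun i => euler (κ - 1) (fun x => low κ f x i) u

lemma anti_eq_AC (hf : AnalyticAt ℂ f u) (i j k l : Fin (N + 1)) :
    anti (Eop κ i j) (Eop κ k l) f u = AC (jet κ f u hf) i j k l := by
  have e : ∀ i j k l : Fin (N + 1), Eop κ i j (Eop κ k l f) u
      = hom u i * ((if j = k then low κ f u l else 0)
        + hom u k * low (κ - 1) (fun x => low κ f x l) u j) := by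
    intro i j k l
    rw [Eop_eq, Eop_eq]
    beta_reduce
    rw [low_hom_mul (analyticAt_low hf l).differentiableAt]
  unfold anti
  rw [e, e]
  rfl

end Pool.Agent.Lib.MP_0b1044_mp
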