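import Mathlib
import Pool.Agent.Lib.MP_0b1044_mp.Jet
import Pool.Agent.Lib.MP_0b1044_mp.Core

/-!
Chain rule for the gauged operator.
-/

namespace Pool.Agent.Lib.MP_0b1044_mp

open PeriodPair Filter Topology

variable {L : PeriodPair} {N : ℕ}

section

variable {y : Fin N → ℂ} {G : (Fin N → ℂ) → ℂ} {f : (Fin N → ℂ) → ℂ} {β : ℂ}

lemma analyticAt_uvar' (hy : Reg L y) : AnalyticAt ℂ (fun x => uvar L x) y := by
  rw [analyticAt_pi_iff]
  exact fun i => analyticAt_uvar hy i

lemma analyticAt_comp_uvar (hy : Reg L y) (hf : AnalyticAt ℂ f (uvar L y)) :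
    AnalyticAt ℂ (fun x => f (uvar L x)) y :=
  hf.comp_of_eq (analyticAt_uvar' hy) rfl

lemma analyticAt_psi (hy : Reg L y) (hG : AnalyticAt ℂ G y) (hf : AnalyticAt ℂ f (uvar L y)) :
    AnalyticAt ℂ (fun x => Complex.exp (β * G x) * f (uvar L x)) y :=
  (analyticAt_const.mul hG).cexp.mul (analyticAt_comp_uvar hy hf)

lemma dd_comp_uvar (hy : Reg L y) (hf : AnalyticAt ℂ f (uvar L y)) (v : Fin N → ℂ) :
    dd v (fun x => f (uvar L x)) y
      = ∑ i, pd i f (uvar L y) * dd v (fun x => uvar L x i) y :=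
  dd_comp (u := fun x => uvar L x) (fun i => (analyticAt_uvar hy i).differentiableAt)
    hf.differentiableAt

lemma dd_psi (hy : Reg L y) (hG : AnalyticAt ℂ G y) (hf : AnalyticAt ℂ f (uvar L y))
    (v : Fin N → ℂ) :
    dd v (fun x => Complex.exp (β * G x) * f (uvar L x)) y
      = Complex.exp (β * G y) * (β * dd v G y * f (uvar L y)
        + ∑ i, pd i f (uvar L y) * dd v (fun x => uvar L x i) y) := by
  have h1 : DifferentiableAt ℂ (fun x => β * G x) y := hG.differentiableAt.const_mul β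
  rw [dd_mul h1.cexp (analyticAt_comp_uvar hy hf).differentiableAt, dd_cexp h1,
    dd_const_mul _ hG.differentiableAt, dd_comp_uvar hy hf]
  ring

lemma eventually_good_point (hy : Reg L y) (hG : AnalyticAt ℂ G y)
    (hf : AnalyticAt ℂ f (uvar L y)) :
    ∀ᶠ x in 𝓝 y, Reg L x ∧ AnalyticAt ℂ G x ∧ AnalyticAt ℂ f (uvar L x) := by
  have h3 : ∀ᶠ x in 𝓝 y, AnalyticAt ℂ f (uvar L x) :=
    (analyticAt_uvar' hy).continuousAt.eventually hf.eventually_analyticAt
  filter_upwards [reg_eventually hy, hG.eventually_analyticAt, h3] with x a b c using ⟨a, b, c⟩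

lemma dd_dd_psi (hy : Reg L y) (hG : AnalyticAt ℂ G y) (hf : AnalyticAt ℂ f (uvar L y))
    (v : Fin N → ℂ) :
    dd v (dd v (fun x => Complex.exp (β * G x) * f (uvar L x))) y
      = Complex.exp (β * G y) *
        ((∑ i, ∑ j, pd i (pd j f) (uvar L y)
            * (dd v (fun x => uvar L x i) y * dd v (fun x => uvar L x j) y))
        + (∑ i, pd i f (uvar L y) * (dd v (dd v (fun x => uvar L x i)) y
            + 2 * β * (dd v G y * dd v (fun x => uvar L x i) y)))
        + f (uvar L y) * (β ^ 2 * dd v G y ^ 2 + β * dd v (dd v G) y)) := by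
  have h1 : dd v (fun x => Complex.exp (β * G x) * f (uvar L x)) =ᶠ[𝓝 y]
      fun x => Complex.exp (β * G x) * (β * dd v G x * f (uvar L x)
        + ∑ i, pd i f (uvar L x) * dd v (fun x => uvar L x i) x) := by
    filter_upwards [eventually_good_point hy hG hf] with x hx
    exact dd_psi hx.1 hx.2.1 hx.2.2 v
  have hGd : DifferentiableAt ℂ (fun x => β * G x) y := hG.differentiableAt.const_mul β
  have hdG : AnalyticAt ℂ (dd v G) y := analyticAt_dd hG
  have hfu := analyticAt_comp_uvar hy hf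
  have hu : ∀ i, AnalyticAt ℂ (fun x => uvar L x i) y := fun i => analyticAt_uvar hy i
  have hdu : ∀ i, AnalyticAt ℂ (dd v (fun x => uvar L x i)) y := fun i => analyticAt_dd (hu i)
  have hpf : ∀ i, AnalyticAt ℂ (pd i f) (uvar L y) := fun i => analyticAt_pd hf i
  have hpfu : ∀ i, AnalyticAt ℂ (fun x => pd i f (uvar L x)) y := fun i =>
    analyticAt_comp_uvar hy (hpf i)
  have ht : ∀ i, AnalyticAt ℂ (fun x => pd i f (uvar L x) * dd v (fun x => uvar L x i) x) y :=
    fun i => (hpfu i).mul (hdu i)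
  have hA : AnalyticAt ℂ (fun x => β * dd v G x * f (uvar L x)) y :=
    (analyticAt_const.mul hdG).mul hfu
  have hB : AnalyticAt ℂ (fun x => ∑ i, pd i f (uvar L x) * dd v (fun x => uvar L x i) x) y :=
    Finset.analyticAt_fun_sum _ fun i _ => ht i
  have hAB : DifferentiableAt ℂ (fun x => β * dd v G x * f (uvar L x)
      + ∑ i, pd i f (uvar L x) * dd v (fun x => uvar L x i) x) y := (hA.add hB).differentiableAt
  rw [dd_congr h1, dd_mul hGd.cexp hAB, dd_cexp hGd, dd_const_mul _ hG.differentiableAt]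
  have e1 : dd v (fun x => β * dd v G x * f (uvar L x)
        + ∑ i, pd i f (uvar L x) * dd v (fun x => uvar L x i) x) y
      = (β * dd v (dd v G) y) * f (uvar L y) + (β * dd v G y)
          * (∑ i, pd i f (uvar L y) * dd v (fun x => uvar L x i) y)
        + ∑ i, ((∑ j, pd j (pd i f) (uvar L y) * dd v (fun x => uvar L x j) y)
          * dd v (fun x => uvar L x i) y
          + pd i f (uvar L y) * dd v (dd v (fun x => uvar L x i)) y) := by
    rw [dd_add hA.differentiableAt hB.differentiableAt,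
      dd_mul (hdG.differentiableAt.const_mul β) hfu.differentiableAt,
      dd_const_mul _ hdG.differentiableAt, dd_comp_uvar hy hf,
      dd_sum _ (fun i _ => (ht i).differentiableAt)]
    congr 1
    refine Finset.sum_congr rfl fun i _ => ?_
    rw [dd_mul (hpfu i).differentiableAt (hdu i).differentiableAt, dd_comp_uvar hy (hpf i)]
  rw [e1]
  have e2 : ∑ i, ∑ j, pd i (pd j f) (uvar L y)
            * (dd v (fun x => uvar L x i) y * dd v (fun x => uvar L x j) y)
      = ∑ i, (∑ j, pd j (pd i f) (uvar L y) * dd v (fun x => uvar L x j) y)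
          * dd v (fun x => uvar L x i) y := by
    rw [Finset.sum_comm]
    refine Finset.sum_congr rfl fun i _ => ?_
    rw [Finset.sum_mul]
    exact Finset.sum_congr rfl fun j _ => by ring
  rw [e2]
  have e3 : ∑ i, pd i f (uvar L y) * (dd v (dd v (fun x => uvar L x i)) y
            + 2 * β * (dd v G y * dd v (fun x => uvar L x i) y))
      = ∑ i, pd i f (uvar L y) * dd v (dd v (fun x => uvar L x i)) y
        + 2 * (β * dd v G y) * ∑ i, pd i f (uvar L y) * dd v (fun x => uvar L x i) y := by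
    rw [Finset.mul_sum, ← Finset.sum_add_distrib]
    exact Finset.sum_congr rfl fun i _ => by ring
  rw [e3, Finset.sum_add_distrib]
  ring

end

/-- `∑_k D_k D_k` in coordinates. -/
lemma sum_dirv_dirv {ψ : (Fin N → ℂ) → ℂ} {y : Fin N → ℂ} (hψ : AnalyticAt ℂ ψ y) :
    -((N : ℂ) / (N + 1)) * ∑ i, pd i (pd i ψ) y
    + (1 / ((N : ℂ) + 1)) * ∑ i, ∑ j, (if i = j then 0 else pd i (pd j ψ) y)
      = -∑ k : Fin (N + 1), dd (dirv k) (dd (dirv k) ψ) y := by
  have hN1 := N1_ne (N := N)
  have h1 : ∀ v : Fin N → ℂ, dd v (dd v ψ) y = ∑ i, ∑ j, (v i * v j) * pd i (pd j ψ) y := by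
    intro v
    have e1 : dd v ψ =ᶠ[𝓝 y] fun x => ∑ j, v j * pd j ψ x := by
      filter_upwards [hψ.eventually_analyticAt] with x hx
      exact dd_eq_sum_single hx.differentiableAt
    have e2 : ∀ j, AnalyticAt ℂ (fun x => v j * pd j ψ x) y := fun j =>
      analyticAt_const.mul (analyticAt_pd hψ j)
    rw [dd_congr e1, dd_eq_sum_single
      (Finset.analyticAt_fun_sum _ fun j _ => e2 j).differentiableAt]
    refine Finset.sum_congr rfl fun i _ => ?_
    rw [dd_sum _ (fun j _ => (e2 j).differentiableAt), Finset.mul_sum]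
    refine Finset.sum_congr rfl fun j _ => ?_
    rw [dd_const_mul _ (analyticAt_pd hψ j).differentiableAt]
    have : pd i (pd j ψ) y = dd (Pi.single i 1) (pd j ψ) y := rfl
    rw [this]
    ring
  have h2 : ∀ i j : Fin N, ∑ k : Fin (N + 1), (dirv k : Fin N → ℂ) i * (dirv k : Fin N → ℂ) j
      = (if i = j then 1 else 0) - 1 / ((N : ℂ) + 1) := by
    intro i j
    simp only [dirv, sub_mul, mul_sub, Finset.sum_sub_distrib, ite_mul, mul_ite, one_mul, zero_mul,
      mul_one, mul_zero, Finset.sum_ite_eq, Finset.mem_univ, if_true, Finset.sum_const,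
      Finset.card_univ, Fintype.card_fin, nsmul_eq_mul, Fin.castSucc_inj]
    push_cast
    field_simp
    ring
  have h3 : ∑ k : Fin (N + 1), dd (dirv k) (dd (dirv k) ψ) y
      = ∑ i, ∑ j, ((if i = j then 1 else 0) - 1 / ((N : ℂ) + 1)) * pd i (pd j ψ) y := by
    simp only [h1]
    rw [Finset.sum_comm]
    refine Finset.sum_congr rfl fun i _ => ?_
    rw [Finset.sum_comm]
    refine Finset.sum_congr rfl fun j _ => ?_
    rw [← Finset.sum_mul, h2]
  rw [h3]
  have h4 : ∀ i : Fin N, ∑ j, ((if i = j then 1 else 0) - 1 / ((N : ℂ) + 1)) * pd i (pd j ψ) y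
      = (N : ℂ) / (N + 1) * pd i (pd i ψ) y
        - (1 / ((N : ℂ) + 1)) * ∑ j, (if i = j then 0 else pd i (pd j ψ) y) := by
    intro i
    have e1 : ∀ j, ((if i = j then 1 else 0) - 1 / ((N : ℂ) + 1)) * pd i (pd j ψ) y
        = (if i = j then (N : ℂ) / (N + 1) * pd i (pd i ψ) y else 0)
          - (1 / ((N : ℂ) + 1)) * (if i = j then 0 else pd i (pd j ψ) y) := by
      intro j
      by_cases h : i = j
      · subst h
        simp only [if_true]
        field_simp
        ring
      · simp only [if_neg h]; ring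
    simp only [e1, Finset.sum_sub_distrib, Finset.sum_ite_eq, Finset.mem_univ, if_true,
      ← Finset.mul_sum]
  simp only [h4, Finset.sum_sub_distrib, ← Finset.mul_sum]
  ring

end Pool.Agent.Lib.MP_0b1044_mp
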