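import Mathlib
import Pool.Agent.Lib.MP_0b1044_mp.Chain

/-!
The theorem for `N ≥ 2`.
-/

namespace Pool.Agent.Lib.MP_0b1044_mp

open PeriodPair Filter Topology

variable {L : PeriodPair} {N : ℕ}

lemma dd_Fz {y : Fin N → ℂ} (hy : Reg L y) (w : Fin N → ℂ) (z : ℂ) :
    dd w (Fz L z) y = ∑ i : Fin N, (-iteratedDeriv (i : ℕ) ℘[L] z)
      * dd w (fun x => uvar L x i) y := by
  have hu : ∀ j : Fin N, DifferentiableAt ℂ (fun x => uvar L x j) y :=
    fun j => (analyticAt_uvar hy j).differentiableAt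
  have e : Fz L z = fun x : Fin N → ℂ => (1 : ℂ) + ∑ j : Fin N,
      (-iteratedDeriv (j : ℕ) ℘[L] z) * uvar L x j := by
    ext x
    rw [Fz, sub_eq_add_neg, ← Finset.sum_neg_distrib]
    congr 1
    exact Finset.sum_congr rfl fun j _ => by ring
  rw [e, dd_add (differentiableAt_const _) (DifferentiableAt.fun_sum fun j _ =>
    (hu j).const_mul _), dd_const, zero_add, dd_sum _ (fun j _ => (hu j).const_mul _)]
  exact Finset.sum_congr rfl fun j _ => dd_const_mul _ (hu j)

lemma dd_dd_Fz' {y : Fin N → ℂ} (hy : Reg L y) (v w : Fin N → ℂ) (z : ℂ) :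
    dd v (dd w (Fz L z)) y = ∑ i : Fin N, (-iteratedDeriv (i : ℕ) ℘[L] z)
      * dd v (dd w (fun x => uvar L x i)) y := by
  rw [dd_dd_Fz hy, ← Finset.sum_neg_distrib]
  exact Finset.sum_congr rfl fun j _ => by ring

/-- the finite set of constants. -/
noncomputable def cset (z : Fin (N + 1) → ℂ) : Finset ℂ := insert 0 (Finset.univ.image z)

lemma zero_mem_cset (z : Fin (N + 1) → ℂ) : (0 : ℂ) ∈ cset z := Finset.mem_insert_self _ _

lemma mem_cset (z : Fin (N + 1) → ℂ) (p : Fin (N + 1)) : z p ∈ cset z :=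
  Finset.mem_insert_of_mem (Finset.mem_image_of_mem _ (Finset.mem_univ p))

lemma mat_quad {n : ℕ} {ι : Type*} [Fintype ι] (Q : Matrix (Fin n) (Fin n) ℂ)
    (A : ι → Fin n → ℂ) (p q : Fin n) :
    (Q * (Matrix.of fun i j => ∑ k, A k i * A k j) * Q.transpose) p q
      = ∑ k, Q.mulVec (A k) p * Q.mulVec (A k) q := by
  simp only [Matrix.mul_apply, Matrix.transpose_apply, Matrix.of_apply, Matrix.mulVec,
    dotProduct, Finset.sum_mul, Finset.mul_sum]
  have e1 : ∀ k, ∑ i, ∑ j, Q p j * A k j * (Q q i * A k i)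
      = ∑ i, ∑ j, Q p j * (A k j * A k i) * Q q i := fun k =>
    Finset.sum_congr rfl fun i _ => Finset.sum_congr rfl fun j _ => by ring
  simp only [e1]
  rw [Finset.sum_comm (s := (Finset.univ : Finset ι))]
  refine Finset.sum_congr rfl fun i _ => ?_
  rw [Finset.sum_comm]

theorem at_GR (hN : 2 ≤ N) (β : ℂ) {z : Fin (N + 1) → ℂ} (hz1 : ∀ p, z p ∉ L.lattice)
    (hz2 : ∀ p q, p ≠ q → ℘[L] (z p) ≠ ℘[L] (z q)) (hz3 : (vdm L (N + 1) z).det ≠ 0)
    {y : Fin N → ℂ} (h : GR L (cset z) y) {G : (Fin N → ℂ) → ℂ} (hG : AnalyticAt ℂ G y)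
    (hGj : ∀ᶠ x in 𝓝 y, Complex.exp (G x) = jac L x) {f : (Fin N → ℂ) → ℂ}
    (hf : AnalyticAt ℂ f (uvar L y)) :
    Complex.exp (-β * G y) * ham L β (fun x => Complex.exp (β * G x) * f (uvar L x)) y
      = -Efin (parOf L N z hz3) (jet (-β * ((N : ℂ) + 1)) f (uvar L y) hf) := by
  have hC := zero_mem_cset z
  have hreg := h.reg hC (by omega)
  have hcomp : ∀ p, Compat L y (z p) := fun p => h.compat hC (by omega) (mem_cset z p) (hz1 p)
  obtain ⟨α, κ₂, hS, hS', hB, hZ⟩ := h.core hC hN hG hGj β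
  set κ : ℂ := -β * ((N : ℂ) + 1) with hκ
  set A : Fin (N + 1) → Fin (N + 1) → ℂ := fun k =>
    Fin.cons 0 fun i => dd (dirv k) (fun x => uvar L x i) y with hA
  set A2 : Fin (N + 1) → Fin (N + 1) → ℂ := fun k =>
    Fin.cons 0 fun i => dd (dirv k) (dd (dirv k) (fun x => uvar L x i)) y with hA2
  set V : ℂ := ∑ i : Fin (N + 1), ∑ j : Fin (N + 1),
        if i = j then 0 else ℘[L] (yhat y i - yhat y j) with hV
  have hQA : ∀ p k, ((parOf L N z hz3).Q.mulVec (A k)) p = dd (dirv k) (Fz L (z p)) y := by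
    intro p k
    rw [parOf_Q hz1, dd_Fz hreg, hA]
    simp
  have hQA2 : ∀ p k, ((parOf L N z hz3).Q.mulVec (A2 k)) p
      = dd (dirv k) (dd (dirv k) (Fz L (z p))) y := by
    intro p k
    rw [parOf_Q hz1, dd_dd_Fz' hreg, hA2]
    simp
  have hQa : ∀ p, ((parOf L N z hz3).Q.mulVec (hom (uvar L y))) p = Fz L (z p) y := by
    intro p
    rw [parOf_Q hz1, Fz, sub_eq_add_neg, ← Finset.sum_neg_distrib]
    simp only [hom_zero, hom_succ]
    congr 1
    exact Finset.sum_congr rfl fun j _ => by ring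
  have hQ1a : ∀ p, ((parOf L N z hz3).Q1.mulVec (hom (uvar L y))) p
      = ev L (Dp L.g₂ L.g₃ (Fp L y)) (z p) := by
    intro p
    rw [parOf_Q1, ev_Dp_Fp_eq (hz1 p)]
    simp only [hom_succ]
  have hQ2a : ∀ p, ((parOf L N z hz3).Q2.mulVec (hom (uvar L y))) p
      = ev L (Dp L.g₂ L.g₃ (Dp L.g₂ L.g₃ (Fp L y))) (z p) := by
    intro p
    rw [parOf_Q2, ev_Dp_Dp_Fp_eq (hz1 p)]
    simp only [hom_succ]
  set S : Matrix (Fin (N + 1)) (Fin (N + 1)) ℂ := Matrix.of fun i j => ∑ k, A k i * A k j with hSdef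
  set B : Fin (N + 1) → ℂ := fun i => (∑ k, A2 k i) + 2 * β * ∑ k, dd (dirv k) G y * A k i
    with hBdef
  set Z : ℂ := β ^ 2 * (∑ k : Fin (N + 1), dd (dirv k) G y ^ 2)
    + β * (∑ k : Fin (N + 1), dd (dirv k) (dd (dirv k) G) y) - β * (β - 1) * V with hZdef
  have key := Efin_eq (parOf L N z hz3) (jet κ f (uvar L y) hf) S B (fun p => α (z p)) κ₂ Z
    (by
      intro p q
      have e1 : (parOf L N z hz3).Q * S * (parOf L N z hz3).Q.transpose
          = (parOf L N z hz3).Q * (Matrix.of fun i j => ∑ k, A k i * A k j)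
            * (parOf L N z hz3).Q.transpose := rfl
      rw [e1, mat_quad]
      simp only [hQA]
      have e2 : (jet κ f (uvar L y) hf).a = hom (uvar L y) := rfl
      simp only [Mpq, e2, hQa, hQ1a, hQ2a]
      by_cases hpq : p = q
      · subst hpq
        rw [if_pos rfl, hS' _ (hcomp p)]
        simp only [parOf]
        ring
      · rw [if_neg hpq, hS _ _ (hcomp p) (hcomp q) (hz2 p q hpq)]
        simp only [parOf]
        ring)
    (by
      intro p
      have e2 : (jet κ f (uvar L y) hf).a = hom (uvar L y) := rfl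
      simp only [Np, e2, hQa, hQ2a]
      have e3 : ((parOf L N z hz3).Q.mulVec B) p
          = ∑ k, ((parOf L N z hz3).Q.mulVec (A2 k)) p
            + 2 * β * ∑ k, dd (dirv k) G y * ((parOf L N z hz3).Q.mulVec (A k)) p := by
        simp only [Matrix.mulVec, dotProduct, hBdef, mul_add, Finset.sum_add_distrib,
          Finset.mul_sum]
        congr 1
        · rw [Finset.sum_comm]
        · rw [Finset.sum_comm]
          exact Finset.sum_congr rfl fun i _ => Finset.sum_congr rfl fun j _ => by ring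
      rw [e3]
      simp only [hQA, hQA2]
      rw [hB _ (hcomp p)]
      simp only [parOf, hκ]
      ring)
    (by
      rw [hZ, hκ]
      ring)
  rw [← key]
  have hψ := analyticAt_psi (β := β) hreg hG hf
  have hham : ham L β (fun x => Complex.exp (β * G x) * f (uvar L x)) y
      = -(∑ k : Fin (N + 1), dd (dirv k) (dd (dirv k)
          (fun x => Complex.exp (β * G x) * f (uvar L x))) y)
        + β * (β - 1) * V * (Complex.exp (β * G y) * f (uvar L y)) := by
    rw [ham, sum_dirv_dirv hψ]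
  rw [hham]
  simp only [dd_dd_psi hreg hG hf]
  rw [← Finset.mul_sum]
  have hexp : Complex.exp (-β * G y) * Complex.exp (β * G y) = 1 := by
    rw [← Complex.exp_add]; simp
  have e4 : ∀ T : ℂ, Complex.exp (-β * G y) * (-(Complex.exp (β * G y) * T)
      + β * (β - 1) * V * (Complex.exp (β * G y) * f (uvar L y)))
      = -T + β * (β - 1) * V * f (uvar L y) := by
    intro T
    linear_combination (-T + β * (β - 1) * V * f (uvar L y)) * hexp
  rw [e4]
  simp only [Finset.sum_add_distrib, ← Finset.mul_sum]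
  have e5 : ∑ i, ∑ j, (jet κ f (uvar L y) hf).h2 i j * S i j
      = ∑ k : Fin (N + 1), ∑ i, ∑ j, pd i (pd j f) (uvar L y)
            * (dd (dirv k) (fun x => uvar L x i) y * dd (dirv k) (fun x => uvar L x j) y) := by
    have : ∀ i j, (jet κ f (uvar L y) hf).h2 i j * S i j
        = ∑ k, (jet κ f (uvar L y) hf).h2 i j * (A k i * A k j) := by
      intro i j
      rw [hSdef, Matrix.of_apply, Finset.mul_sum]
    simp only [this]
    have h2 : ∀ i, ∑ j, ∑ k, (jet κ f (uvar L y) hf).h2 i j * (A k i * A k j)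
        = ∑ k, ∑ j, (jet κ f (uvar L y) hf).h2 i j * (A k i * A k j) := fun i =>
      Finset.sum_comm
    simp only [h2]
    rw [Finset.sum_comm]
    refine Finset.sum_congr rfl fun k _ => ?_
    rw [Fin.sum_univ_succ]
    simp only [Fin.sum_univ_succ, hA, Fin.cons_zero, Fin.cons_succ, zero_mul, mul_zero,
      Finset.sum_const_zero, zero_add]
    rfl
  have e6 : ∑ i, (jet κ f (uvar L y) hf).h1 i * B i
      = ∑ k : Fin (N + 1), ∑ i, pd i f (uvar L y) * (dd (dirv k) (dd (dirv k) (fun x => uvar L x i)) y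
            + 2 * β * (dd (dirv k) G y * dd (dirv k) (fun x => uvar L x i) y)) := by
    rw [Fin.sum_univ_succ]
    have hB0 : B 0 = 0 := by simp [hBdef, hA, hA2]
    rw [hB0, mul_zero, zero_add, Finset.sum_comm]
    refine Finset.sum_congr rfl fun i _ => ?_
    have hBi : B i.succ = ∑ k : Fin (N + 1), (dd (dirv k) (dd (dirv k) (fun x => uvar L x i)) y
            + 2 * β * (dd (dirv k) G y * dd (dirv k) (fun x => uvar L x i) y)) := by
      simp only [hBdef, hA, hA2, Fin.cons_succ, Finset.sum_add_distrib, Finset.mul_sum]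
    rw [hBi, Finset.mul_sum]
    rfl
  have e7 : (jet κ f (uvar L y) hf).f0 = f (uvar L y) := rfl
  rw [e5, e6, e7, hZdef]
  ring

/-- The main theorem for `N ≥ 2`, at very generic points. -/
theorem main_GR (L : PeriodPair) (hN : 2 ≤ N) (β : ℂ) :
    ∃ (C : Finset ℂ) (_ : (0 : ℂ) ∈ C)
      (c : Fin (N + 1) → Fin (N + 1) → Fin (N + 1) → Fin (N + 1) → ℂ),
      ∀ (y : Fin N → ℂ), GR L C y → ∀ G : (Fin N → ℂ) → ℂ, AnalyticAt ℂ G y →
      (∀ᶠ x in 𝓝 y, Complex.exp (G x) = jac L x) → ∀ f : (Fin N → ℂ) → ℂ,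
      AnalyticAt ℂ f (uvar L y) →
      Complex.exp (-β * G y) * ham L β (fun x => Complex.exp (β * G x) * f (uvar L x)) y
        = ∑ i, ∑ j, ∑ k, ∑ l, c i j k l *
          anti (Eop (-β * ((N : ℂ) + 1)) i j) (Eop (-β * ((N : ℂ) + 1)) k l) f (uvar L y) := by
  obtain ⟨z, hz1, hz2, hz3⟩ := exists_interp L (N + 1)
  obtain ⟨c, hc⟩ := Efin_rep (κ := -β * ((N : ℂ) + 1)) (parOf L N z hz3) (Or.inr (by omega))
  refine ⟨cset z, zero_mem_cset z, fun i j k l => -c i j k l, fun y h G hG hGj f hf => ?_⟩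
  rw [at_GR hN β hz1 hz2 hz3 h hG hGj hf, hc]
  have e : ∀ i j k l, -c i j k l
      * anti (Eop (-β * ((N : ℂ) + 1)) i j) (Eop (-β * ((N : ℂ) + 1)) k l) f (uvar L y)
      = -(c i j k l * AC (jet (-β * ((N : ℂ) + 1)) f (uvar L y) hf) i j k l) := by
    intro i j k l
    rw [anti_eq_AC hf, neg_mul]
  simp only [e, Finset.sum_neg_distrib]

end Pool.Agent.Lib.MP_0b1044_mp
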