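import Mathlib
import Pool.Agent.Lib.MP_0b1044_mp.Main2

/-!
Extension from very generic points to all generic points.
-/

namespace Pool.Agent.Lib.MP_0b1044_mp

open PeriodPair Filter Topology

variable {L : PeriodPair} {N : ℕ}

lemma Generic.reg {y : Fin N → ℂ} (hy : Generic L y) : Reg L y := by
  refine ⟨fun i => ?_, hy.2.2⟩
  have := hy.1 (Fin.castSucc i)
  rwa [yhat_castSucc] at this

lemma analyticAt_ham {β : ℂ} {ψ : (Fin N → ℂ) → ℂ} {y : Fin N → ℂ} (hψ : AnalyticAt ℂ ψ y)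
    (hy : ∀ i j, i ≠ j → yhat y i - yhat y j ∉ L.lattice) :
    AnalyticAt ℂ (ham L β ψ) y := by
  have h1 : ∀ i, AnalyticAt ℂ (fun x => pd i (pd i ψ) x) y := fun i =>
    analyticAt_pd (analyticAt_pd hψ i) i
  have h2 : ∀ i j, AnalyticAt ℂ (fun x => if i = j then 0 else pd i (pd j ψ) x) y := by
    intro i j
    by_cases h : i = j
    · simp only [if_pos h]; exact analyticAt_const
    · simp only [if_neg h]; exact analyticAt_pd (analyticAt_pd hψ j) i
  have h3 : ∀ i j : Fin (N + 1), AnalyticAt ℂ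
      (fun x => if i = j then 0 else ℘[L] (yhat x i - yhat x j)) y := by
    intro i j
    by_cases h : i = j
    · simp only [if_pos h]; exact analyticAt_const
    · simp only [if_neg h]
      exact (analyticAt_wp (hy i j h)).comp_of_eq ((analyticAt_yhat i y).sub (analyticAt_yhat j y))
        rfl
  unfold ham
  refine ((analyticAt_const.mul (Finset.analyticAt_fun_sum _ fun i _ => h1 i)).add
    (analyticAt_const.mul (Finset.analyticAt_fun_sum _ fun i _ =>
      Finset.analyticAt_fun_sum _ fun j _ => h2 i j))).add ?_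
  exact (analyticAt_const.mul (Finset.analyticAt_fun_sum _ fun i _ =>
      Finset.analyticAt_fun_sum _ fun j _ => h3 i j)).mul hψ

/-- The statement at a point. -/
def Holds (L : PeriodPair) {N : ℕ} (β κ : ℂ)
    (c : Fin (N + 1) → Fin (N + 1) → Fin (N + 1) → Fin (N + 1) → ℂ) (y : Fin N → ℂ)
    (G f : (Fin N → ℂ) → ℂ) : Prop :=
  Complex.exp (-β * G y) * ham L β (fun x => Complex.exp (β * G x) * f (uvar L x)) y
        = ∑ i, ∑ j, ∑ k, ∑ l, c i j k l * anti (Eop κ i j) (Eop κ k l) f (uvar L y)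

lemma holds_of_frequently {β κ : ℂ}
    {c : Fin (N + 1) → Fin (N + 1) → Fin (N + 1) → Fin (N + 1) → ℂ} {y : Fin N → ℂ}
    (hy : Generic L y) {G f : (Fin N → ℂ) → ℂ} (hG : AnalyticAt ℂ G y)
    (hf : AnalyticAt ℂ f (uvar L y)) (h : ∃ᶠ x in 𝓝 y, Holds L β κ c x G f) :
    Holds L β κ c y G f := by
  have hreg := hy.reg
  have hψ := analyticAt_psi (β := β) hreg hG hf
  have h1 : ContinuousAt (fun y => Complex.exp (-β * G y)
      * ham L β (fun x => Complex.exp (β * G x) * f (uvar L x)) y) y := by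
    have := ((analyticAt_const (v := -β)).mul hG).cexp.mul (analyticAt_ham (β := β) hψ hy.2.1)
    exact this.continuousAt
  have h2 : ContinuousAt (fun y => ∑ i, ∑ j, ∑ k, ∑ l,
      c i j k l * anti (Eop κ i j) (Eop κ k l) f (uvar L y)) y := by
    refine AnalyticAt.continuousAt (𝕜 := ℂ) ?_
    refine Finset.analyticAt_fun_sum _ fun i _ => Finset.analyticAt_fun_sum _ fun j _ =>
      Finset.analyticAt_fun_sum _ fun k _ => Finset.analyticAt_fun_sum _ fun l _ => ?_
    exact analyticAt_const.mul (analyticAt_comp_uvar hreg (analyticAt_anti hf i j k l))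
  exact tendsto_nhds_unique_of_frequently_eq h1.tendsto h2.tendsto h

/-- The main theorem for `N ≥ 2`. -/
theorem main_ge_two (L : PeriodPair) (hN : 2 ≤ N) (β : ℂ) :
    ∃ c : Fin (N + 1) → Fin (N + 1) → Fin (N + 1) → Fin (N + 1) → ℂ,
      ∀ (y : Fin N → ℂ), Generic L y → ∀ G : (Fin N → ℂ) → ℂ, AnalyticAt ℂ G y →
      (∀ᶠ x in 𝓝 y, Complex.exp (G x) = jac L x) → ∀ f : (Fin N → ℂ) → ℂ,
      AnalyticAt ℂ f (uvar L y) → Holds L β (-β * ((N : ℂ) + 1)) c y G f := by
  obtain ⟨C, hC, c, hc⟩ := main_GR L hN β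
  refine ⟨c, fun y hy G hG hGj f hf => ?_⟩
  have hreg := hy.reg
  refine holds_of_frequently hy hG hf ?_
  have h1 : ∃ᶠ x in 𝓝 y, Good L C x := mem_closure_iff_frequently.mp (dense_good C y)
  refine (h1.and_eventually ((eventually_good_point hreg hG hf).and hGj.eventually_nhds)).mono ?_
  intro x hx
  exact hc x ⟨hx.1, hx.2.1.1.2⟩ G hx.2.1.2.1 hx.2.2 f hx.2.1.2.2

end Pool.Agent.Lib.MP_0b1044_mp
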