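import Mathlib
import Pool.Agent.Lib.MP_0b1044_mp.Extend

/-!
The case `N = 1`.
-/

namespace Pool.Agent.Lib.MP_0b1044_mp

open PeriodPair Filter Topology

variable {L : PeriodPair}

/-- duplication formula. -/
lemma wp_two_mul {t : ℂ} (ht : t ∉ L.lattice) (h2 : 2 * t ∉ L.lattice) :
    4 * ℘[L] (2 * t) * ℘'[L] t ^ 2 = (6 * ℘[L] t ^ 2 - L.g₂ / 2) ^ 2
      - 8 * ℘[L] t * ℘'[L] t ^ 2 := by
  have hp := wp'_ne_zero ht h2
  have hnt : -t ∉ L.lattice := by rwa [neg_mem_iff]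
  have a1 : HasDerivAt ℘'[L] (6 * ℘[L] t ^ 2 - L.g₂ / 2) (-t) := by
    have := hasDerivAt_wp' hnt
    rwa [L.weierstrassP_neg] at this
  have a2 : HasDerivAt ℘[L] (-℘'[L] t) (-t) := by
    have := hasDerivAt_wp hnt
    rwa [L.derivWeierstrassP_neg] at this
  have s1 := hasDerivAt_iff_tendsto_slope_zero.mp a1
  have s2 := hasDerivAt_iff_tendsto_slope_zero.mp a2
  simp only [L.derivWeierstrassP_neg, L.weierstrassP_neg, smul_eq_mul, sub_neg_eq_add] at s1 s2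
  -- the limit of `R`
  have s3 := (s1.div (s2.const_mul (-2)) (by simpa using hp)).pow 2
  have c1 : ∀ᶠ h in 𝓝[≠] (0 : ℂ), -t + h ∉ L.lattice := by
    have : ContinuousAt (fun h : ℂ => -t + h) 0 := by fun_prop
    refine (this.eventually ((isOpen_compl_lattice L).mem_nhds ?_)).filter_mono
      nhdsWithin_le_nhds
    simpa using ht
  have c2 : ∀ᶠ h in 𝓝[≠] (0 : ℂ), t - (-t + h) ∉ L.lattice := by
    have : ContinuousAt (fun h : ℂ => t - (-t + h)) 0 := by fun_prop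
    refine (this.eventually ((isOpen_compl_lattice L).mem_nhds ?_)).filter_mono
      nhdsWithin_le_nhds
    have e : t - (-t + 0) = 2 * t := by ring
    rw [Set.mem_compl_iff]
    beta_reduce
    rw [e]
    exact h2
  have c3 : ∀ᶠ h in 𝓝[≠] (0 : ℂ), t + (-t + h) ∉ L.lattice := by
    filter_upwards [eventually_notMem_lattice (L := L)] with h hh
    have e : t + (-t + h) = h := by ring
    rwa [e]
  have d1 : Tendsto (fun h : ℂ => ℘[L] (t - (-t + h)) + ℘[L] t + ℘[L] (-t + h)) (𝓝[≠] 0)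
      (𝓝 (℘[L] (2 * t) + ℘[L] t + ℘[L] t)) := by
    have e1 : Tendsto (fun h : ℂ => t - (-t + h)) (𝓝[≠] 0) (𝓝 (2 * t)) := by
      have : ContinuousAt (fun h : ℂ => t - (-t + h)) 0 := by fun_prop
      have h := this.tendsto.mono_left (nhdsWithin_le_nhds (s := {0}ᶜ))
      have e : t - (-t + 0) = 2 * t := by ring
      rwa [e] at h
    have e2 : Tendsto (fun h : ℂ => -t + h) (𝓝[≠] 0) (𝓝 (-t)) := by
      have : ContinuousAt (fun h : ℂ => -t + h) 0 := by fun_prop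
      have h := this.tendsto.mono_left (nhdsWithin_le_nhds (s := {0}ᶜ))
      rwa [add_zero] at h
    have e3 := (hasDerivAt_wp h2).continuousAt.tendsto.comp e1
    have e4 := (hasDerivAt_wp hnt).continuousAt.tendsto.comp e2
    rw [L.weierstrassP_neg] at e4
    exact (e3.add_const _).add e4
  have d2 : Tendsto (fun h : ℂ => R L t (-t + h) ^ 2) (𝓝[≠] 0)
      (𝓝 (((6 * ℘[L] t ^ 2 - L.g₂ / 2) / (-2 * -℘'[L] t)) ^ 2)) := by
    refine s3.congr' ?_
    filter_upwards [self_mem_nhdsWithin] with h hh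
    have hh' : h ≠ 0 := hh
    simp only [Pi.div_apply, R]
    congr 1
    rw [add_comm (℘'[L] (-t + h)) (℘'[L] t)]
    have : -2 * (h⁻¹ * (℘[L] (-t + h) - ℘[L] t)) = h⁻¹ * (2 * (℘[L] t - ℘[L] (-t + h))) := by
      ring
    rw [this, mul_div_mul_left _ _ (inv_ne_zero hh')]
  have d3 : Tendsto (fun h : ℂ => R L t (-t + h) ^ 2) (𝓝[≠] 0)
      (𝓝 (℘[L] (2 * t) + ℘[L] t + ℘[L] t)) := by
    refine d1.congr' ?_
    filter_upwards [c1, c2, c3] with h x1 x2 x3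
    exact (R_sq ht x1 x2 x3).symm
  have := tendsto_nhds_unique d2 d3
  rw [div_pow, div_eq_iff (by simpa using hp)] at this
  linear_combination -this

lemma dd_single_comp {g : ℂ → ℂ} {y : Fin 1 → ℂ} {c : ℂ} (h : HasDerivAt g c (y 0)) :
    dd (Pi.single 0 1) (fun x : Fin 1 → ℂ => g (x 0)) y = c := by
  apply dd_eq_of_hasDerivAt
  have h1 : HasDerivAt (fun t : ℂ => (y + t • (Pi.single 0 1 : Fin 1 → ℂ)) 0) 1 0 := by
    simp only [Pi.add_apply, Pi.smul_apply, Pi.single_eq_same, smul_eq_mul, mul_one]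
    exact (hasDerivAt_id (0 : ℂ)).const_add (y 0)
  have h2 : HasDerivAt g c ((y + (0 : ℂ) • (Pi.single 0 1 : Fin 1 → ℂ)) 0) := by simpa using h
  have := h2.comp (0 : ℂ) h1
  rw [mul_one] at this
  exact this

lemma uvar_one (y : Fin 1 → ℂ) (i : Fin 1) : uvar L y i = (℘[L] (y 0))⁻¹ := by
  obtain rfl : i = 0 := Subsingleton.elim _ _
  rw [uvar_eq_cramer]
  simp [wpMatrix]

lemma det_one (y : Fin 1 → ℂ) : (wpMatrix L y).det = ℘[L] (y 0) := by
  simp [wpMatrix]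

lemma jac_one {y : Fin 1 → ℂ} (hy : Reg L y) :
    jac L y = -℘'[L] (y 0) / ℘[L] (y 0) ^ 2 := by
  have h0 : ℘[L] (y 0) ≠ 0 := by rw [← det_one]; exact hy.2
  have h1 : jac L y = dd (Pi.single 0 1) (fun x : Fin 1 → ℂ => (℘[L] (x 0))⁻¹) y := by
    simp only [jac, Matrix.det_unique, Matrix.of_apply, Fin.default_eq_zero, uvar_one]
    rfl
  rw [h1]
  exact dd_single_comp ((hasDerivAt_wp (hy.1 0)).fun_inv h0)

lemma dd_uvar_one (y : Fin 1 → ℂ) :
    dd (Pi.single 0 1) (fun x : Fin 1 → ℂ => uvar L x 0) y = jac L y := by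
  simp only [jac, Matrix.det_unique, Matrix.of_apply, Fin.default_eq_zero]
  rfl

/-- `J^2 = Q(u)`. -/
lemma jac_sq {y : Fin 1 → ℂ} (hy : Reg L y) : jac L y ^ 2
    = 4 * uvar L y 0 - L.g₂ * uvar L y 0 ^ 3 - L.g₃ * uvar L y 0 ^ 4 := by
  have h0 : ℘[L] (y 0) ≠ 0 := by rw [← det_one]; exact hy.2
  have h1 := L.derivWeierstrassP_sq (y 0) (hy.1 0)
  rw [jac_one hy, uvar_one, div_pow, neg_sq, h1]
  field_simp

/-- `J' = Q'(u)/2`. -/
lemma dd_jac_one {y : Fin 1 → ℂ} (hy : Reg L y) : dd (Pi.single 0 1) (jac L) y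
    = 2 - 3 / 2 * L.g₂ * uvar L y 0 ^ 2 - 2 * L.g₃ * uvar L y 0 ^ 3 := by
  have h0 : ℘[L] (y 0) ≠ 0 := by rw [← det_one]; exact hy.2
  have h1 := L.derivWeierstrassP_sq (y 0) (hy.1 0)
  have h2 : jac L =ᶠ[𝓝 y] fun x : Fin 1 → ℂ => -℘'[L] (x 0) / ℘[L] (x 0) ^ 2 := by
    filter_upwards [reg_eventually hy] with x hx
    exact jac_one hx
  rw [dd_congr h2]
  have h3 : HasDerivAt (fun t : ℂ => -℘'[L] t / ℘[L] t ^ 2)
      ((-(6 * ℘[L] (y 0) ^ 2 - L.g₂ / 2) * ℘[L] (y 0) ^ 2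
        - -℘'[L] (y 0) * (2 * ℘[L] (y 0) * ℘'[L] (y 0))) / (℘[L] (y 0) ^ 2) ^ 2) (y 0) := by
    have a := (hasDerivAt_wp' (hy.1 0)).fun_neg
    have b : HasDerivAt (fun t : ℂ => ℘[L] t ^ 2) (2 * ℘[L] (y 0) * ℘'[L] (y 0)) (y 0) := by
      have := (hasDerivAt_wp (hy.1 0)).fun_pow 2
      convert! this using 1
      norm_num
    exact a.fun_div b (pow_ne_zero 2 h0)
  rw [dd_single_comp h3, uvar_one]
  field_simp
  linear_combination 4 * h1

/-- `J'' = Q''(u) J / 2`. -/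
lemma dd_dd_jac_one {y : Fin 1 → ℂ} (hy : Reg L y) :
    dd (Pi.single 0 1) (dd (Pi.single 0 1) (jac L)) y
    = (-3 * L.g₂ * uvar L y 0 - 6 * L.g₃ * uvar L y 0 ^ 2) * jac L y := by
  have h2 : dd (Pi.single 0 1) (jac L) =ᶠ[𝓝 y] fun x =>
      2 - 3 / 2 * L.g₂ * uvar L x 0 ^ 2 - 2 * L.g₃ * uvar L x 0 ^ 3 := by
    filter_upwards [reg_eventually hy] with x hx
    exact dd_jac_one hx
  rw [dd_congr h2]
  have hu := hasDerivAt_line (v := Pi.single 0 1) (analyticAt_uvar hy 0).differentiableAt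
  rw [dd_uvar_one y] at hu
  apply dd_eq_of_hasDerivAt
  have h3 := ((hu.fun_pow 2).const_mul (3 / 2 * L.g₂)).const_sub 2
  have h4 := h3.fun_sub ((hu.fun_pow 3).const_mul (2 * L.g₃))
  convert! h4 using 1
  simp
  ring

/-- the coefficients for `N = 1`. -/
noncomputable def c1 (L : PeriodPair) (i j k l : Fin (1 + 1)) : ℂ :=
  if i = 1 ∧ j = 1 ∧ k = 0 ∧ l = 1 then -1 / 2
  else if i = 0 ∧ j = 0 ∧ k = 0 ∧ l = 1 then 1 / 2
  else if i = 1 ∧ j = 1 ∧ k = 1 ∧ l = 0 then -L.g₂ / 8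
  else if i = 0 ∧ j = 0 ∧ k = 1 ∧ l = 0 then L.g₂ / 8
  else if i = 1 ∧ j = 0 ∧ k = 1 ∧ l = 0 then L.g₃ / 4
  else 0

theorem main_one (L : PeriodPair) (β : ℂ) (y : Fin 1 → ℂ) (hy : Generic L y)
    (G : (Fin 1 → ℂ) → ℂ) (hG : AnalyticAt ℂ G y)
    (hGj : ∀ᶠ x in 𝓝 y, Complex.exp (G x) = jac L x) (f : (Fin 1 → ℂ) → ℂ)
    (hf : AnalyticAt ℂ f (uvar L y)) :
    Holds L β (-β * (((1 : ℕ) : ℂ) + 1)) (c1 L) y G f := by
  have hreg := hy.reg
  have ht : y 0 ∉ L.lattice := hreg.1 0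
  have h0 : ℘[L] (y 0) ≠ 0 := by rw [← det_one]; exact hreg.2
  have h2t : 2 * y 0 ∉ L.lattice := by
    have := hy.2.1 (Fin.castSucc 0) (Fin.last 1) (by decide)
    rw [yhat_castSucc, yhat_last, Finset.univ_unique, Finset.sum_singleton,
      Fin.default_eq_zero, sub_neg_eq_add, ← two_mul] at this
    exact this
  have hψ := analyticAt_psi (β := β) hreg hG hf
  have hham : ham L β (fun x => Complex.exp (β * G x) * f (uvar L x)) y
      = -(1 / 2) * dd (Pi.single 0 1) (dd (Pi.single 0 1)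
          (fun x => Complex.exp (β * G x) * f (uvar L x))) y
        + 2 * β * (β - 1) * ℘[L] (2 * y 0) * (Complex.exp (β * G y) * f (uvar L y)) := by
    have e1 : ℘[L] (yhat y 0 - yhat y 1) = ℘[L] (2 * y 0) := by
      have a : yhat y 0 = y 0 := yhat_castSucc y 0
      have b : yhat y 1 = -y 0 := by
        have := yhat_last y
        simpa using this
      rw [a, b, sub_neg_eq_add, ← two_mul]
    have e2 : ℘[L] (yhat y 1 - yhat y 0) = ℘[L] (2 * y 0) := by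
      rw [← L.weierstrassP_neg, neg_sub, e1]
    simp only [ham, Fin.sum_univ_succ, Finset.univ_eq_empty, Finset.sum_empty, if_true]
    simp only [Fin.succ_zero_eq_one, Fin.isValue, zero_ne_one, one_ne_zero, if_false, e1, e2]
    have e3 : pd 0 (pd 0 fun x => Complex.exp (β * G x) * f (uvar L x)) y
      = dd (Pi.single 0 1) (dd (Pi.single 0 1)
          (fun x => Complex.exp (β * G x) * f (uvar L x))) y := rfl
    rw [e3]
    push_cast
    ring
  have hexp : Complex.exp (-β * G y) * Complex.exp (β * G y) = 1 := by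
    rw [← Complex.exp_add]; simp
  set e : Fin 1 → ℂ := Pi.single 0 1 with he
  set J := jac L y with hJ
  set U := uvar L y 0 with hU
  have hJG : Complex.exp (G y) = J := hGj.self_of_nhds
  have hJ0 : J ≠ 0 := by rw [← hJG]; exact Complex.exp_ne_zero _
  -- derivatives of `G`
  have g1 : ∀ᶠ x in 𝓝 y, Complex.exp (G x) * dd e G x = dd e (jac L) x := by
    filter_upwards [hG.eventually_analyticAt, hGj.eventually_nhds] with x hx1 hx2
    rw [← dd_cexp hx1.differentiableAt]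
    exact dd_congr hx2
  have g1' : J * dd e G y = dd e (jac L) y := by
    have := g1.self_of_nhds
    rwa [hJG] at this
  have g2 : J * dd e G y * dd e G y + J * dd e (dd e G) y = dd e (dd e (jac L)) y := by
    have a := dd_congr (v := e) g1
    rw [dd_mul hG.differentiableAt.cexp (analyticAt_dd hG).differentiableAt,
      dd_cexp hG.differentiableAt, hJG] at a
    exact a
  have q1 : J ^ 2 = 4 * U - L.g₂ * U ^ 3 - L.g₃ * U ^ 4 := jac_sq hreg
  have q2 : dd e (jac L) y = 2 - 3 / 2 * L.g₂ * U ^ 2 - 2 * L.g₃ * U ^ 3 := dd_jac_one hreg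
  have q3 : dd e (dd e (jac L)) y = (-3 * L.g₂ * U - 6 * L.g₃ * U ^ 2) * J := dd_dd_jac_one hreg
  have q4 : dd e (fun x => uvar L x 0) y = J := dd_uvar_one y
  have q5 : dd e (dd e (fun x => uvar L x 0)) y = dd e (jac L) y := by
    apply dd_congr
    exact Eventually.of_forall fun x => dd_uvar_one x
  -- the potential
  have g3 : dd e G y ^ 2 + dd e (dd e G) y = -3 * L.g₂ * U - 6 * L.g₃ * U ^ 2 := by
    apply mul_left_cancel₀ hJ0
    linear_combination g2 + q3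
  have g4 : 4 * ℘[L] (2 * y 0) = dd e G y ^ 2 + 2 * L.g₂ * U + 4 * L.g₃ * U ^ 2 := by
    have hp := wp'_ne_zero ht h2t
    have d := wp_two_mul ht h2t
    have ode := L.derivWeierstrassP_sq (y 0) ht
    have hUv : U = (℘[L] (y 0))⁻¹ := uvar_one y 0
    have hJv : J = -℘'[L] (y 0) / ℘[L] (y 0) ^ 2 := jac_one hreg
    have hG' : dd e G y = (2 - 3 / 2 * L.g₂ * U ^ 2 - 2 * L.g₃ * U ^ 3) / J := by
      rw [eq_div_iff hJ0, mul_comm, g1', q2]
    rw [hG', hJv, hUv]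
    have hW : 4 * ℘[L] (2 * y 0) = ((6 * ℘[L] (y 0) ^ 2 - L.g₂ / 2) ^ 2
      - 8 * ℘[L] (y 0) * ℘'[L] (y 0) ^ 2) / ℘'[L] (y 0) ^ 2 := by
      rw [eq_div_iff (pow_ne_zero 2 hp)]
      exact d
    rw [hW]
    generalize ℘[L] (y 0) = P at *
    generalize ℘'[L] (y 0) = P' at *
    have hP'2 : P' ^ 2 ≠ 0 := pow_ne_zero 2 hp
    field_simp
    rw [ode]
    ring
  unfold Holds
  rw [hham, dd_dd_psi hreg hG hf]
  set κ : ℂ := -β * (((1 : ℕ) : ℂ) + 1) with hκ
  set d := jet κ f (uvar L y) hf with hd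
  have hR : ∑ i, ∑ j, ∑ k, ∑ l, c1 L i j k l * anti (Eop κ i j) (Eop κ k l) f (uvar L y)
      = -1 / 2 * AC d 1 1 0 1 + 1 / 2 * AC d 0 0 0 1 + -L.g₂ / 8 * AC d 1 1 1 0
        + L.g₂ / 8 * AC d 0 0 1 0 + L.g₃ / 4 * AC d 1 0 1 0 := by
    simp only [anti_eq_AC hf]
    simp [Fin.sum_univ_two, c1]
    ring
  rw [hR]
  have ha0 : d.a 0 = 1 := rfl
  have ha1 : d.a 1 = U := rfl
  have hf0 : d.f0 = f (uvar L y) := rfl
  have hf1 : d.h1 1 = pd 0 f (uvar L y) := rfl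
  have hf2 : d.h2 1 1 = pd 0 (pd 0 f) (uvar L y) := rfl
  have r1 := d.euler1
  have r2 := d.euler2 1
  have r3 := d.euler2 0
  have r4 := d.sym 1 0
  rw [Fin.sum_univ_two, ha0, ha1, one_mul] at r1 r2 r3
  have r1' : d.h1 0 = κ * d.f0 - U * d.h1 1 := by linear_combination r1
  have r2' : d.h2 0 1 = (κ - 1) * d.h1 1 - U * d.h2 1 1 := by linear_combination r2
  have r3' : d.h2 0 0 = (κ - 1) * d.h1 0 - U * d.h2 1 0 := by linear_combination r3
  simp only [Finset.univ_unique, Finset.sum_singleton, Fin.default_eq_zero, Fin.isValue]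
  rw [← hf0, ← hf1, ← hf2, q4, q5]
  simp only [AC, ha0, ha1, Fin.isValue, one_ne_zero, zero_ne_one, if_true, if_false]
  rw [r3', r4, r2', r1']
  generalize d.h1 1 = F1
  generalize d.h2 1 1 = F2
  generalize d.f0 = F0
  generalize dd e G y = Gp at *
  generalize dd e (dd e G) y = Gpp at *
  generalize dd e (jac L) y = Jp at *
  generalize ℘[L] (2 * y 0) = W at *
  generalize Complex.exp (β * G y) = E1 at *
  generalize Complex.exp (-β * G y) = E2 at *
  have hκ' : κ = -2 * β := by rw [hκ]; push_cast; ring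
  rw [hκ']
  linear_combination (-(1 / 2) * (F2 * (J * J) + F1 * (Jp + 2 * β * (Gp * J))
      + F0 * (β ^ 2 * Gp ^ 2 + β * Gpp)) + 2 * β * (β - 1) * W * F0) * hexp
    + (-(1 / 2) * F2) * q1 + (-(1 / 2) * F1) * q2 + (-β * F1) * g1' + (-β * F1) * q2
    + (-(1 / 2) * F0 * β) * g3 + (1 / 2 * β * (β - 1) * F0) * g4

end Pool.Agent.Lib.MP_0b1044_mp
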