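import Mathlib
import Pool.Agent.Lib.MP_0b1044_mp.One

/-!
Density of the points at which everything is defined, existence of local branches of the logarithm
of the Jacobian.
-/

namespace Pool.Agent.Lib.MP_0b1044_mp

open PeriodPair Filter Topology Polynomial

variable {L : PeriodPair} {N : ℕ}

lemma exists_ev_ne_zero {v : ℂ[X] × ℂ[X]} (hv : v ≠ 0) {O : Set ℂ} (hO : IsOpen O)
    (hne : O.Nonempty) : ∃ z ∈ O, z ∉ L.lattice ∧ ev L v z ≠ 0 := by
  by_contra hcon
  push Not at hcon
  have hd : Dense ((L.lattice : Set ℂ)ᶜ) := (countable_lattice L).dense_compl ℂ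
  obtain ⟨a, ha1, ha2⟩ := hd.inter_open_nonempty O hO hne
  have han : AnalyticOnNhd ℂ (ev L v) ((L.lattice : Set ℂ)ᶜ) := by
    apply DifferentiableOn.analyticOnNhd _ (isOpen_compl_lattice L)
    intro z hz
    exact (hasDerivAt_ev v hz).differentiableAt.differentiableWithinAt
  have h0 : ev L v =ᶠ[𝓝 a] 0 := by
    filter_upwards [hO.mem_nhds ha1, (isOpen_compl_lattice L).mem_nhds ha2] with z hz1 hz2
    exact hcon z hz1 hz2
  have h1 := han.eqOn_zero_of_preconnected_of_eventuallyEq_zero
    (isPreconnected_compl_of_countable (countable_lattice L)) ha2 h0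
  obtain ⟨z, hz1, _, hz3⟩ := exists_point (L := L) ∅ hv
  exact hz3 (h1 hz1)

lemma exists_det_ne_zero (n : ℕ) (O : Fin n → Set ℂ) (hO : ∀ i, IsOpen (O i))
    (hne : ∀ i, (O i).Nonempty) : ∃ y : Fin n → ℂ, (∀ i, y i ∈ O i) ∧ (∀ i, y i ∉ L.lattice) ∧
      (wpMatrix L y).det ≠ 0 := by
  induction n with
  | zero => exact ⟨Fin.elim0, fun p => p.elim0, fun p => p.elim0, by simp⟩
  | succ n ih =>
    obtain ⟨z, hz1, hz2, hz3⟩ := ih (fun i => O (Fin.castSucc i)) (fun i => hO _) (fun i => hne _)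
    set c : Fin (n + 1) → ℂ := fun j => (-1) ^ ((Fin.last n : Fin (n + 1)) + j : ℕ)
      * (Matrix.of fun p i : Fin n => iteratedDeriv (j.succAbove i : Fin (n + 1)) ℘[L] (z p)).det
      with hc
    have hcl : c (Fin.last n) ≠ 0 := by
      rw [hc]
      refine mul_ne_zero (pow_ne_zero _ (by norm_num)) ?_
      convert hz3 using 2
      ext p i
      simp [wpMatrix, Fin.succAbove_last]
    have hv := combo_ne_zero L.g₂ L.g₃ (n + 1) (Fin.cons 0 c : Fin (n + 2) → ℂ) (by
      rw [← Fin.succ_last, Fin.cons_succ]; exact hcl)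
    obtain ⟨w, hw1, hw2, hw3⟩ := exists_ev_ne_zero (L := L) hv (hO (Fin.last n)) (hne (Fin.last n))
    refine ⟨Fin.snoc z w, ?_, ?_, ?_⟩
    · intro p
      induction p using Fin.lastCases with
      | last => simpa using hw1
      | cast i => simpa using hz1 i
    · intro p
      induction p using Fin.lastCases with
      | last => simpa using hw2
      | cast i => simpa using hz2 i
    · rw [Matrix.det_succ_row _ (Fin.last n)]
      have : ∑ j : Fin (n + 1), (-1) ^ ((Fin.last n : Fin (n + 1)) + j : ℕ)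
          * wpMatrix L (Fin.snoc z w : Fin (n + 1) → ℂ) (Fin.last n) j
          * ((wpMatrix L (Fin.snoc z w : Fin (n + 1) → ℂ)).submatrix (Fin.last n).succAbove
            j.succAbove).det
          = ev L (∑ j, (Fin.cons 0 c : Fin (n + 2) → ℂ) j • phi L.g₂ L.g₃ j) w := by
        have e0 : ∑ j, (Fin.cons 0 c : Fin (n + 2) → ℂ) j • phi L.g₂ L.g₃ j
            = ∑ j : Fin (n + 1), c j • phi L.g₂ L.g₃ (j + 1) := by
          rw [Fin.sum_univ_succ, Fin.cons_zero, zero_smul, zero_add]
          exact Finset.sum_congr rfl fun j _ => by rw [Fin.cons_succ, Fin.val_succ]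
        rw [e0, ev_sum]
        refine Finset.sum_congr rfl fun j _ => ?_
        rw [ev_smul, hc, ev_phi_succ _ hw2]
        have e1 : (wpMatrix L (Fin.snoc z w : Fin (n + 1) → ℂ)).submatrix
            (Fin.last n).succAbove j.succAbove
            = Matrix.of fun p i : Fin n => iteratedDeriv (j.succAbove i : Fin (n + 1)) ℘[L] (z p) := by
          ext p i
          simp [wpMatrix, Fin.succAbove_last]
        rw [e1]
        simp only [wpMatrix, Matrix.of_apply, Fin.snoc_last]
        ring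
      rw [this]
      exact hw3

lemma dense_reg (L : PeriodPair) (N : ℕ) : Dense {y : Fin N → ℂ | Reg L y} := by
  intro y
  rw [mem_closure_iff_nhds]
  intro U hU
  obtain ⟨ε, hε, hball⟩ := Metric.mem_nhds_iff.mp hU
  obtain ⟨x, hx1, hx2, hx3⟩ := exists_det_ne_zero (L := L) N (fun i => Metric.ball (y i) ε)
    (fun i => Metric.isOpen_ball) (fun i => ⟨y i, Metric.mem_ball_self hε⟩)
  refine ⟨x, hball ?_, hx2, hx3⟩
  rw [Metric.mem_ball, dist_pi_lt_iff hε]
  exact fun i => hx1 i

lemma dense_GR (L : PeriodPair) (C : Finset ℂ) :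
    Dense {y : Fin N → ℂ | GR L C y} := by
  have := (dense_good (L := L) (N := N) C).inter_of_isOpen_left (dense_reg L N) (isOpen_good C)
  refine this.mono ?_
  intro y hy
  exact ⟨hy.1, hy.2.2⟩

section

variable {C : Finset ℂ} {y : Fin N → ℂ}

lemma GR.generic (h : GR L C y) (hC : (0 : ℂ) ∈ C) (hN : 1 ≤ N) : Generic L y :=
  ⟨fun i => h.1.yhat_notMem hC hN i, fun _ _ hij => h.1.sub_notMem hC hij, h.2⟩

/-- zeros of `F` at the `y_j` are simple. -/
lemma GR.simple (h : GR L C y) (hC : (0 : ℂ) ∈ C) (hN : 2 ≤ N) (j : Fin N) :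
    ev L (Dp L.g₂ L.g₃ (Fp L y)) (y j) ≠ 0 := by
  have hreg := h.reg hC (by omega)
  set a := y j with ha
  have haL : a ∉ L.lattice := hreg.1 j
  have h2a : 2 * a ∉ L.lattice := h.1.two_mul_notMem hC j
  obtain ⟨c₀, hc⟩ := h.deriv_z hC hN
  have hU := (isOpen_compl_lattice L).mem_nhds haL
  have han : AnalyticAt ℂ (ev L (Fp L y)) a := by
    have : AnalyticOnNhd ℂ (ev L (Fp L y)) ((L.lattice : Set ℂ)ᶜ) := by
      apply DifferentiableOn.analyticOnNhd _ (isOpen_compl_lattice L)
      intro z hz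
      exact (hasDerivAt_ev (Fp L y) hz).differentiableAt.differentiableWithinAt
    exact this a haL
  have hnz : ¬ ∀ᶠ z in 𝓝 a, ev L (Fp L y) z = 0 := by
    intro h0
    obtain ⟨O, hO1, hO2, hO3⟩ := eventually_nhds_iff.mp h0
    obtain ⟨z, hz1, _, hz3⟩ := exists_ev_ne_zero (L := L) (h.Fp_ne_zero hC (by omega)) hO2
      ⟨a, hO3⟩
    exact hz3 (hO1 z hz1)
  obtain ⟨m, g, hg1, hg2, hg3⟩ := han.exists_eventuallyEq_pow_smul_nonzero_iff.mpr hnz
  have hder : ∀ᶠ z in 𝓝 a, ev L (Dp L.g₂ L.g₃ (Fp L y)) z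
      = (m * (z - a) ^ (m - 1)) * g z + (z - a) ^ m * deriv g z := by
    filter_upwards [hg3.eventually_nhds, hg1.eventually_analyticAt, hU] with z hz1 hz2 hz3
    have d1 := hasDerivAt_ev (Fp L y) hz3
    have d2 : HasDerivAt (fun w => (w - a) ^ m * g w)
        ((m * (z - a) ^ (m - 1)) * g z + (z - a) ^ m * deriv g z) z := by
      have e1 : HasDerivAt (fun w : ℂ => (w - a) ^ m) (m * (z - a) ^ (m - 1)) z := by
        have := ((hasDerivAt_id z).sub_const a).fun_pow m
        simpa using this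
      exact e1.fun_mul hz2.differentiableAt.hasDerivAt
    have hz1' : ev L (Fp L y) =ᶠ[𝓝 z] fun w => (w - a) ^ m * g w := by
      filter_upwards [hz1] with w hw
      rw [hw, smul_eq_mul]
    exact d1.unique (d2.congr_of_eventuallyEq hz1')
  -- the limit
  have hlim1 : Tendsto (fun z => (z - a) * ((∑ k, R L z (yhat y k)) + c₀)) (𝓝[≠] a) (𝓝 1) := by
    have t0 : Tendsto (fun z : ℂ => z - a) (𝓝[≠] a) (𝓝 0) := by
      have : ContinuousAt (fun z : ℂ => z - a) a := by fun_prop
      have := this.tendsto.mono_left (nhdsWithin_le_nhds (s := {a}ᶜ))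
      rwa [sub_self] at this
    have t1 : ∀ k, Tendsto (fun z => (z - a) * R L z (yhat y k)) (𝓝[≠] a)
        (𝓝 (if k = Fin.castSucc j then 1 else 0)) := by
      intro k
      by_cases hk : k = Fin.castSucc j
      · rw [if_pos hk, hk, yhat_castSucc]
        exact tendsto_sub_mul_R haL h2a
      · rw [if_neg hk]
        have hne : ℘[L] a ≠ ℘[L] (yhat y k) := by
          have := h.wp_ne hC hN (Ne.symm hk)
          rwa [yhat_castSucc] at this
        have hR := (hasDerivAt_R_left haL (h.1.yhat_notMem hC (by omega) k) hne).continuousAt.tendsto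
        have := t0.mul (hR.mono_left (nhdsWithin_le_nhds (s := {a}ᶜ)))
        rwa [zero_mul] at this
    have t2 := (tendsto_finsetSum Finset.univ fun k _ => t1 k).add (t0.mul_const c₀)
    simp only [Finset.sum_ite_eq', Finset.mem_univ, if_true, zero_mul, add_zero] at t2
    refine t2.congr fun z => ?_
    rw [mul_add, Finset.mul_sum]
  have hlim2 : Tendsto (fun z => g z * ((z - a) * ((∑ k, R L z (yhat y k)) + c₀))) (𝓝[≠] a)
      (𝓝 (g a * 1)) :=
    (hg1.continuousAt.tendsto.mono_left nhdsWithin_le_nhds).mul hlim1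
  have hlim3 : Tendsto (fun z => (m : ℂ) * g z + (z - a) * deriv g z) (𝓝[≠] a)
      (𝓝 (m * g a + (a - a) * deriv g a)) := by
    have : ContinuousAt (fun z => (m : ℂ) * g z + (z - a) * deriv g z) a := by
      have c1 := hg1.continuousAt
      have c2 := hg1.deriv.continuousAt
      fun_prop
    exact this.tendsto.mono_left nhdsWithin_le_nhds
  have heq : ∀ᶠ z in 𝓝[≠] a, (m : ℂ) * g z + (z - a) * deriv g z
      = g z * ((z - a) * ((∑ k, R L z (yhat y k)) + c₀)) := by
    have hcn := compat_near h hC hN j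
    filter_upwards [hcn, hder.filter_mono nhdsWithin_le_nhds,
      hg3.filter_mono nhdsWithin_le_nhds, self_mem_nhdsWithin] with z hz1 hz2 hz3 hz4
    have hza : z - a ≠ 0 := sub_ne_zero.mpr hz4
    have e1 := hc z hz1
    rw [← ev_Fp hz1.1, hz3, hz2, smul_eq_mul] at e1
    have hpow : (z - a) ^ m ≠ 0 := pow_ne_zero m hza
    apply mul_left_cancel₀ hpow
    rcases Nat.eq_zero_or_pos m with hm | hm
    · rw [hm] at e1 ⊢
      simp only [pow_zero, Nat.cast_zero, zero_mul, one_mul, zero_add] at e1 ⊢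
      rw [e1]
      ring
    · have hp : (z - a) ^ m = (z - a) ^ (m - 1) * (z - a) := by
        rw [← pow_succ]; congr 1; omega
      have e2 := congrArg (fun t => (z - a) * t) e1
      beta_reduce at e2
      rw [hp] at e2 ⊢
      linear_combination e2
  have hm : (m : ℂ) * g a = g a * 1 := by
    have := tendsto_nhds_unique (hlim3.congr' heq) hlim2
    rwa [sub_self, zero_mul, add_zero] at this
  have hm1 : (m : ℂ) = 1 := by
    apply mul_right_cancel₀ hg2
    rw [hm]; ring
  have hm2 : m = 1 := by exact_mod_cast hm1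
  have := hder.self_of_nhds
  rw [this, hm2]
  simpa using hg2

lemma GR.jac_ne_zero (h : GR L C y) (hC : (0 : ℂ) ∈ C) (hN : 1 ≤ N) : jac L y ≠ 0 := by
  rcases Nat.lt_or_ge N 2 with h1 | h2
  · obtain rfl : N = 1 := by omega
    have hreg := h.reg hC le_rfl
    rw [jac_one hreg]
    have h0 : ℘[L] (y 0) ≠ 0 := by rw [← det_one]; exact hreg.2
    have hp := wp'_ne_zero (hreg.1 0) (h.1.two_mul_notMem hC 0)
    exact div_ne_zero (neg_ne_zero.mpr hp) (pow_ne_zero 2 h0)
  · have hreg := h.reg hC hN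
    have h1 := congrArg Matrix.det (wp_mul_jacM hreg)
    rw [Matrix.det_mul, Matrix.det_diagonal] at h1
    have h3 : ∏ l, ev L (Dp L.g₂ L.g₃ (Fp L y)) (y l) ≠ 0 :=
      Finset.prod_ne_zero_iff.mpr fun l _ => h.simple hC h2 l
    rw [← h1] at h3
    exact right_ne_zero_of_mul h3

end

/-- The points with nonzero Jacobian are dense. -/
theorem dense_generic (L : PeriodPair) (hN : 1 ≤ N) :
    Dense {y : Fin N → ℂ | Generic L y ∧ jac L y ≠ 0} := by
  refine (dense_GR L {0}).mono ?_
  intro y hy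
  exact ⟨hy.generic (Finset.mem_singleton_self 0) hN, hy.jac_ne_zero (Finset.mem_singleton_self 0) hN⟩

/-- Existence of branches. -/
theorem exists_branch {y : Fin N → ℂ} (hy : Generic L y) (hj : jac L y ≠ 0) :
    ∃ G : (Fin N → ℂ) → ℂ, AnalyticAt ℂ G y ∧ ∀ᶠ x in 𝓝 y, Complex.exp (G x) = jac L x := by
  have hja := analyticAt_jac hy.reg
  refine ⟨fun x => Complex.log (jac L x / jac L y) + Complex.log (jac L y), ?_, ?_⟩
  · refine AnalyticAt.add ?_ analyticAt_const
    refine (hja.div analyticAt_const hj).clog ?_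
    have e : jac L y / jac L y = 1 := div_self hj
    simp only [Pi.div_apply, e]
    exact Complex.one_mem_slitPlane
  · filter_upwards [hja.continuousAt.eventually_ne hj] with x hx
    rw [Complex.exp_add, Complex.exp_log (div_ne_zero hx hj), Complex.exp_log hj,
      div_mul_cancel₀ _ hj]

end Pool.Agent.Lib.MP_0b1044_mp
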