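import Mathlib
import Pool.Agent.Lib.MP_0b1044_mp.Nonvac

/-!
For `N = 1` the gauge exponent must be a root of `γ(γ-1) = β(β-1)`.
-/

namespace Pool.Agent.Lib.MP_0b1044_mp

open PeriodPair Filter Topology

variable {L : PeriodPair}

lemma ham_one {β : ℂ} {y : Fin 1 → ℂ} (ψ : (Fin 1 → ℂ) → ℂ) :
    ham L β ψ y = -(1 / 2) * dd (Pi.single 0 1) (dd (Pi.single 0 1) ψ) y
        + 2 * β * (β - 1) * ℘[L] (2 * y 0) * ψ y := by
  have e1 : ℘[L] (yhat y 0 - yhat y 1) = ℘[L] (2 * y 0) := by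
    have a : yhat y 0 = y 0 := yhat_castSucc y 0
    have b : yhat y 1 = -y 0 := by
      have := yhat_last y
      simpa using this
    rw [a, b, sub_neg_eq_add, ← two_mul]
  have e2 : ℘[L] (yhat y 1 - yhat y 0) = ℘[L] (2 * y 0) := by
    rw [← L.weierstrassP_neg, neg_sub, e1]
  simp only [ham, Fin.sum_univ_succ, Finset.univ_eq_empty, Finset.sum_empty, if_true]
  simp only [Fin.succ_zero_eq_one, Fin.isValue, zero_ne_one, one_ne_zero, if_false, e1, e2]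
  have e3 : pd 0 (pd 0 ψ) y = dd (Pi.single 0 1) (dd (Pi.single 0 1) ψ) y := rfl
  rw [e3]
  push_cast
  ring

/-- the value of the gauged operator on the constant function `1`. -/
lemma gauged_one {β γ : ℂ} {y : Fin 1 → ℂ} (hy : Generic L y) {G : (Fin 1 → ℂ) → ℂ}
    (hG : AnalyticAt ℂ G y) (hGj : ∀ᶠ x in 𝓝 y, Complex.exp (G x) = jac L x) :
    Complex.exp (-γ * G y) * ham L β (fun x => Complex.exp (γ * G x) * 1) y
      = 2 * ℘[L] (2 * y 0) * (β * (β - 1) - γ * (γ - 1))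
        + 1 / 2 * (γ ^ 2 - γ) * (2 * L.g₂ * uvar L y 0 + 4 * L.g₃ * uvar L y 0 ^ 2)
        - 1 / 2 * γ * (-3 * L.g₂ * uvar L y 0 - 6 * L.g₃ * uvar L y 0 ^ 2) := by
  have hreg := hy.reg
  have ht : y 0 ∉ L.lattice := hreg.1 0
  have h0 : ℘[L] (y 0) ≠ 0 := by rw [← det_one]; exact hreg.2
  have h2t : 2 * y 0 ∉ L.lattice := by
    have := hy.2.1 (Fin.castSucc 0) (Fin.last 1) (by decide)
    rw [yhat_castSucc, yhat_last, Finset.univ_unique, Finset.sum_singleton,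
      Fin.default_eq_zero, sub_neg_eq_add, ← two_mul] at this
    exact this
  have hf : AnalyticAt ℂ (fun _ : Fin 1 → ℂ => (1 : ℂ)) (uvar L y) := analyticAt_const
  have hexp : Complex.exp (-γ * G y) * Complex.exp (γ * G y) = 1 := by
    rw [← Complex.exp_add]; simp
  rw [ham_one, dd_dd_psi (f := fun _ => 1) hreg hG hf]
  have hp1 : ∀ x, pd 0 (fun _ : Fin 1 → ℂ => (1 : ℂ)) x = 0 := fun x => dd_const _
  have hp2 : ∀ x, pd 0 (pd 0 (fun _ : Fin 1 → ℂ => (1 : ℂ))) x = 0 := by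
    intro x
    have : pd 0 (fun _ : Fin 1 → ℂ => (1 : ℂ)) = fun _ => 0 := funext hp1
    rw [this]
    exact dd_const _
  simp only [Finset.univ_unique, Finset.sum_singleton, Fin.default_eq_zero, Fin.isValue, hp1, hp2,
    zero_mul, zero_add, one_mul]
  set e : Fin 1 → ℂ := Pi.single 0 1 with he
  set J := jac L y with hJ
  set U := uvar L y 0 with hU
  have hJG : Complex.exp (G y) = J := hGj.self_of_nhds
  have hJ0 : J ≠ 0 := by rw [← hJG]; exact Complex.exp_ne_zero _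
  have g1 : ∀ᶠ x in 𝓝 y, Complex.exp (G x) * dd e G x = dd e (jac L) x := by
    filter_upwards [hG.eventually_analyticAt, hGj.eventually_nhds] with x hx1 hx2
    rw [← dd_cexp hx1.differentiableAt]
    exact dd_congr hx2
  have g1' : J * dd e G y = dd e (jac L) y := by
    have := g1.self_of_nhds
    rwa [hJG] at this
  have g2 : J * dd e G y * dd e G y + J * dd e (dd e G) y = dd e (dd e (jac L)) y := by
    have a := dd_congr (v := e) g1
    rw [dd_mul hG.differentiableAt.cexp (analyticAt_dd hG).differentiableAt,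
      dd_cexp hG.differentiableAt, hJG] at a
    exact a
  have q2 : dd e (jac L) y = 2 - 3 / 2 * L.g₂ * U ^ 2 - 2 * L.g₃ * U ^ 3 := dd_jac_one hreg
  have q3 : dd e (dd e (jac L)) y = (-3 * L.g₂ * U - 6 * L.g₃ * U ^ 2) * J := dd_dd_jac_one hreg
  have g3 : dd e G y ^ 2 + dd e (dd e G) y = -3 * L.g₂ * U - 6 * L.g₃ * U ^ 2 := by
    apply mul_left_cancel₀ hJ0
    linear_combination g2 + q3
  have g4 : 4 * ℘[L] (2 * y 0) = dd e G y ^ 2 + 2 * L.g₂ * U + 4 * L.g₃ * U ^ 2 := by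
    have hp := wp'_ne_zero ht h2t
    have d := wp_two_mul ht h2t
    have ode := L.derivWeierstrassP_sq (y 0) ht
    have hUv : U = (℘[L] (y 0))⁻¹ := uvar_one y 0
    have hJv : J = -℘'[L] (y 0) / ℘[L] (y 0) ^ 2 := jac_one hreg
    have hG' : dd e G y = (2 - 3 / 2 * L.g₂ * U ^ 2 - 2 * L.g₃ * U ^ 3) / J := by
      rw [eq_div_iff hJ0, mul_comm, g1', q2]
    rw [hG', hJv, hUv]
    have hW : 4 * ℘[L] (2 * y 0) = ((6 * ℘[L] (y 0) ^ 2 - L.g₂ / 2) ^ 2
      - 8 * ℘[L] (y 0) * ℘'[L] (y 0) ^ 2) / ℘'[L] (y 0) ^ 2 := by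
      rw [eq_div_iff (pow_ne_zero 2 hp)]
      exact d
    rw [hW]
    generalize ℘[L] (y 0) = P at *
    generalize ℘'[L] (y 0) = P' at *
    have hP'2 : P' ^ 2 ≠ 0 := pow_ne_zero 2 hp
    field_simp
    rw [ode]
    ring
  generalize dd e G y = Gp at *
  generalize dd e (dd e G) y = Gpp at *
  generalize ℘[L] (2 * y 0) = W at *
  generalize Complex.exp (γ * G y) = E1 at *
  generalize Complex.exp (-γ * G y) = E2 at *
  linear_combination (-(1 / 2) * (γ ^ 2 * Gp ^ 2 + γ * Gpp) + 2 * β * (β - 1) * W) * hexp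
    - (1 / 2) * γ * g3 + (1 / 2) * (γ * (γ - 1)) * g4

lemma eventually_generic_one :
    ∀ᶠ t in 𝓝[≠] (0 : ℂ), Generic L (fun _ : Fin 1 => t) ∧ jac L (fun _ : Fin 1 => t) ≠ 0 := by
  have h2 : ∀ᶠ t in 𝓝[≠] (0 : ℂ), 2 * t ∉ L.lattice := by
    have : Tendsto (fun t : ℂ => 2 * t) (𝓝[≠] 0) (𝓝[≠] 0) := by
      rw [tendsto_nhdsWithin_iff]
      constructor
      · have hc : ContinuousAt (fun t : ℂ => 2 * t) 0 := by fun_prop
        have := hc.tendsto.mono_left (nhdsWithin_le_nhds (s := {0}ᶜ))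
        rwa [mul_zero] at this
      · filter_upwards [self_mem_nhdsWithin] with t ht
        have : t ≠ 0 := ht
        simpa using this
    exact this.eventually (eventually_notMem_lattice (L := L))
  have h3 : ∀ᶠ t in 𝓝[≠] (0 : ℂ), ℘[L] t ≠ 0 := by
    have := (tendsto_sq_mul_wp (L := L)).eventually_ne one_ne_zero
    filter_upwards [this] with t ht h0
    rw [h0] at ht; simp at ht
  filter_upwards [eventually_notMem_lattice (L := L), h2, h3] with t a b c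
  have hreg : Reg L (fun _ : Fin 1 => t) := ⟨fun _ => a, by rw [det_one]; exact c⟩
  have y0 : yhat (fun _ : Fin 1 => t) 0 = t := yhat_castSucc _ 0
  have y1 : yhat (fun _ : Fin 1 => t) 1 = -t := by
    have := yhat_last (fun _ : Fin 1 => t)
    simpa using this
  refine ⟨⟨?_, ?_, hreg.2⟩, ?_⟩
  · intro i
    fin_cases i
    · exact y0 ▸ a
    · change yhat (fun _ : Fin 1 => t) 1 ∉ _
      rw [y1, neg_mem_iff]; exact a
  · intro i j hij
    fin_cases i <;> fin_cases j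
    · exact absurd rfl hij
    · change yhat (fun _ : Fin 1 => t) 0 - yhat (fun _ : Fin 1 => t) 1 ∉ _
      rw [y0, y1, sub_neg_eq_add, ← two_mul]; exact b
    · change yhat (fun _ : Fin 1 => t) 1 - yhat (fun _ : Fin 1 => t) 0 ∉ _
      rw [y0, y1, ← neg_mem_iff]
      have : -(-t - t) = 2 * t := by ring
      rw [this]; exact b
    · exact absurd rfl hij
  · rw [jac_one hreg]
    exact div_ne_zero (neg_ne_zero.mpr (wp'_ne_zero a b)) (pow_ne_zero 2 c)

/-- For `N = 1` no gauge exponent `γ` with `γ(γ-1) ≠ β(β-1)` works. -/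
theorem not_comb_one {β γ : ℂ} (hγ : γ * (γ - 1) ≠ β * (β - 1)) (κ : ℂ)
    (c : Fin (1 + 1) → Fin (1 + 1) → Fin (1 + 1) → Fin (1 + 1) → ℂ)
    (hc : ∀ (y : Fin 1 → ℂ), Generic L y → ∀ G : (Fin 1 → ℂ) → ℂ, AnalyticAt ℂ G y →
      (∀ᶠ x in 𝓝 y, Complex.exp (G x) = jac L x) → ∀ f : (Fin 1 → ℂ) → ℂ,
      AnalyticAt ℂ f (uvar L y) →
      Complex.exp (-γ * G y) * ham L β (fun x => Complex.exp (γ * G x) * f (uvar L x)) y
        = ∑ i, ∑ j, ∑ k, ∑ l, c i j k l * anti (Eop κ i j) (Eop κ k l) f (uvar L y)) : False := by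
  set D : ℂ := β * (β - 1) - γ * (γ - 1) with hD
  set RR : (Fin 1 → ℂ) → ℂ := fun u => ∑ i, ∑ j, ∑ k, ∑ l,
    c i j k l * anti (Eop κ i j) (Eop κ k l) (fun _ => 1) u with hRR
  have hRc : ContinuousAt RR 0 := by
    refine AnalyticAt.continuousAt (𝕜 := ℂ) ?_
    refine Finset.analyticAt_fun_sum _ fun i _ => Finset.analyticAt_fun_sum _ fun j _ =>
      Finset.analyticAt_fun_sum _ fun k _ => Finset.analyticAt_fun_sum _ fun l _ => ?_
    exact analyticAt_const.mul (analyticAt_anti analyticAt_const i j k l)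
  have hinv : Tendsto (fun t => (℘[L] t)⁻¹) (𝓝[≠] 0) (𝓝 0) := by
    have h1 := tendsto_sq_mul_wp (L := L)
    have h2 : Tendsto (fun z : ℂ => z ^ 2) (𝓝[≠] 0) (𝓝 0) := by
      have : ContinuousAt (fun z : ℂ => z ^ 2) 0 := by fun_prop
      have := this.tendsto
      simp only [ne_eq, OfNat.ofNat_ne_zero, not_false_eq_true, zero_pow] at this
      exact this.mono_left nhdsWithin_le_nhds
    have h3 := h2.mul (h1.inv₀ one_ne_zero)
    simp only [inv_one, mul_one] at h3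
    refine h3.congr' ?_
    filter_upwards [self_mem_nhdsWithin] with t ht
    have : t ≠ 0 := ht
    rw [mul_inv]
    field_simp
  have hsq : Tendsto (fun z : ℂ => z ^ 2) (𝓝[≠] 0) (𝓝 0) := by
    have : ContinuousAt (fun z : ℂ => z ^ 2) 0 := by fun_prop
    have := this.tendsto
    simp only [ne_eq, OfNat.ofNat_ne_zero, not_false_eq_true, zero_pow] at this
    exact this.mono_left nhdsWithin_le_nhds
  have hw2 : Tendsto (fun t : ℂ => t ^ 2 * ℘[L] (2 * t)) (𝓝[≠] 0) (𝓝 (1 / 4)) := by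
    have h1 : Tendsto (fun t : ℂ => 2 * t) (𝓝[≠] 0) (𝓝[≠] 0) := by
      rw [tendsto_nhdsWithin_iff]
      constructor
      · have hc : ContinuousAt (fun t : ℂ => 2 * t) 0 := by fun_prop
        have := hc.tendsto.mono_left (nhdsWithin_le_nhds (s := {0}ᶜ))
        rwa [mul_zero] at this
      · filter_upwards [self_mem_nhdsWithin] with t ht
        have : t ≠ 0 := ht
        simpa using this
    have h2 := ((tendsto_sq_mul_wp (L := L)).comp h1).const_mul (1 / 4)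
    rw [mul_one] at h2
    refine h2.congr fun t => ?_
    simp only [Function.comp]
    ring
  -- left-hand side
  have hleft : Tendsto (fun t : ℂ => t ^ 2 * (2 * ℘[L] (2 * t) * D
        + 1 / 2 * (γ ^ 2 - γ) * (2 * L.g₂ * (℘[L] t)⁻¹ + 4 * L.g₃ * (℘[L] t)⁻¹ ^ 2)
        - 1 / 2 * γ * (-3 * L.g₂ * (℘[L] t)⁻¹ - 6 * L.g₃ * (℘[L] t)⁻¹ ^ 2))) (𝓝[≠] 0)
      (𝓝 (D / 2)) := by
    have a1 : Tendsto (fun t : ℂ => 2 * D * (t ^ 2 * ℘[L] (2 * t))) (𝓝[≠] 0)
        (𝓝 (2 * D * (1 / 4))) := hw2.const_mul _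
    have a2 : Tendsto (fun t : ℂ => t ^ 2 * (1 / 2 * (γ ^ 2 - γ)
        * (2 * L.g₂ * (℘[L] t)⁻¹ + 4 * L.g₃ * (℘[L] t)⁻¹ ^ 2)
        - 1 / 2 * γ * (-3 * L.g₂ * (℘[L] t)⁻¹ - 6 * L.g₃ * (℘[L] t)⁻¹ ^ 2))) (𝓝[≠] 0)
        (𝓝 (0 * (1 / 2 * (γ ^ 2 - γ) * (2 * L.g₂ * 0 + 4 * L.g₃ * 0 ^ 2)
          - 1 / 2 * γ * (-3 * L.g₂ * 0 - 6 * L.g₃ * 0 ^ 2)))) := by
      refine hsq.mul (Tendsto.sub ?_ ?_)
      · exact ((hinv.const_mul _).add ((hinv.pow 2).const_mul _)).const_mul _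
      · exact ((hinv.const_mul _).sub ((hinv.pow 2).const_mul _)).const_mul _
    have a3 := a1.add a2
    have e : 2 * D * (1 / 4) + 0 * (1 / 2 * (γ ^ 2 - γ) * (2 * L.g₂ * 0 + 4 * L.g₃ * 0 ^ 2)
          - 1 / 2 * γ * (-3 * L.g₂ * 0 - 6 * L.g₃ * 0 ^ 2)) = D / 2 := by ring
    rw [e] at a3
    refine a3.congr fun t => ?_
    ring
  -- right-hand side
  have hright : Tendsto (fun t : ℂ => t ^ 2 * RR (fun _ => (℘[L] t)⁻¹)) (𝓝[≠] 0)
      (𝓝 (0 * RR 0)) := by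
    refine hsq.mul ?_
    have h1 : Tendsto (fun t : ℂ => (fun _ : Fin 1 => (℘[L] t)⁻¹)) (𝓝[≠] 0) (𝓝 0) := by
      rw [tendsto_pi_nhds]
      intro _
      exact hinv
    exact hRc.tendsto.comp h1
  have heq : ∀ᶠ t in 𝓝[≠] (0 : ℂ), t ^ 2 * RR (fun _ => (℘[L] t)⁻¹)
      = t ^ 2 * (2 * ℘[L] (2 * t) * D
        + 1 / 2 * (γ ^ 2 - γ) * (2 * L.g₂ * (℘[L] t)⁻¹ + 4 * L.g₃ * (℘[L] t)⁻¹ ^ 2)
        - 1 / 2 * γ * (-3 * L.g₂ * (℘[L] t)⁻¹ - 6 * L.g₃ * (℘[L] t)⁻¹ ^ 2)) := by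
    filter_upwards [eventually_generic_one (L := L)] with t ht
    obtain ⟨G, hG, hGj⟩ := exists_branch ht.1 ht.2
    have h1 := hc _ ht.1 G hG hGj (fun _ => 1) analyticAt_const
    rw [gauged_one ht.1 hG hGj] at h1
    have hu : uvar L (fun _ : Fin 1 => t) = fun _ => (℘[L] t)⁻¹ := by
      ext i; exact uvar_one _ i
    rw [hu] at h1
    rw [h1]
  have hfin := tendsto_nhds_unique (hright.congr' heq) hleft
  rw [zero_mul] at hfin
  apply hγ
  linear_combination 2 * hfin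

end Pool.Agent.Lib.MP_0b1044_mp
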