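import Mathlib
import Pool.Agent.Lib.MP_0b1044_mp.Printed

/-!
The final theorem.
-/

namespace Pool.Agent.Lib.MP_0b1044_mp

open PeriodPair Filter Topology

theorem main (L : PeriodPair) (N : ℕ) (hN : 1 ≤ N) (β : ℂ) :
    Dense {y : Fin N → ℂ | Generic L y ∧ ∃ G : (Fin N → ℂ) → ℂ, LogJac L G y} ∧
    ∃ c : Fin (N + 1) → Fin (N + 1) → Fin (N + 1) → Fin (N + 1) → ℂ,
      ∀ y : Fin N → ℂ, Generic L y →
      ∀ G : (Fin N → ℂ) → ℂ, LogJac L G y →
      ∀ f : (Fin N → ℂ) → ℂ, AnalyticAt ℂ f (uvar L y) →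
        gauged L β G (fun x => f (uvar L x)) y
          = ∑ i, ∑ j, ∑ k, ∑ l, c i j k l *
              anti (Eop (-β * (N + 1)) i j) (Eop (-β * (N + 1)) k l) f (uvar L y) := by
  constructor
  · refine (dense_generic L hN).mono ?_
    intro y hy
    exact ⟨hy.1, exists_branch hy.1 hy.2⟩
  · rcases Nat.lt_or_ge N 2 with h1 | h2
    · obtain rfl : N = 1 := by omega
      exact ⟨c1 L, fun y hy G hG f hf => main_one L β y hy G hG.1 hG.2 f hf⟩
    · obtain ⟨c, hc⟩ := main_ge_two L h2 β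
      exact ⟨c, fun y hy G hG f hf => hc y hy G hG.1 hG.2 f hf⟩

end Pool.Agent.Lib.MP_0b1044_mp
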